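import Pool.Agent.DQX.Stmts

/-!
DQX, module BLO (helper49): the stable blocks.
-/

set_option autoImplicit false

namespace Pool.Agent.DQX

open CommonSlot

namespace BLO_

theorem eq_of_add {M : Type} [AddCommGroup M] [Module (ZMod 2) M] {a b : M} (h : a + b = 0) :
    a = b := by
  have h1 := ZModModule.add_self b
  calc a = a + (b + b) := by rw [h1, add_zero]
    _ = (a + b) + b := by abel
    _ = b := by rw [h, zero_add]

section

variable {L C : Type} [AddCommGroup L] [Module (ZMod 2) L] [AddCommGroup C]
    [Module (ZMod 2) C] {q : L →ₗ[ZMod 2] L →ₗ[ZMod 2] C} {ι : Type} [Fintype ι] [DecidableEq ι]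
    {c : ι → (L →ₗ[ZMod 2] L)}

/-- the projection onto the sum of the components in `S` -/
def PS (c : ι → (L →ₗ[ZMod 2] L)) (S : Finset ι) : L →ₗ[ZMod 2] L := ∑ j ∈ S, c j

omit [Fintype ι] [DecidableEq ι] in
theorem PS_apply (S : Finset ι) (w : L) : PS c S w = ∑ j ∈ S, c j w := by
  rw [PS, LinearMap.sum_apply]

theorem c_PS (D : Dec q ι c) (S : Finset ι) (j : ι) (w : L) :
    c j (PS c S w) = if j ∈ S then c j w else 0 := by
  rw [PS_apply, map_sum]
  by_cases hj : j ∈ S
  · rw [if_pos hj, Finset.sum_eq_single_of_mem j hj (fun i _ hi => D.orth j i (Ne.symm hi) w)]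
    exact (D.spl j).idem w
  · rw [if_neg hj]
    exact Finset.sum_eq_zero (fun i hi => D.orth j i (fun h => hj (h ▸ hi)) w)

theorem PS_PS (D : Dec q ι c) (S T : Finset ι) (w : L) : PS c S (PS c T w) = PS c (S ∩ T) w := by
  rw [PS_apply S, Finset.sum_congr rfl (fun j _ => c_PS D T j w), ← Finset.sum_filter, PS_apply,
    Finset.filter_mem_eq_inter]

theorem cross' (D : Dec q ι c) (S : Finset ι) (j : ι) (hj : j ∈ S) (w y : L) :
    q (c j w) (PS c S y) = q (c j w) (c j y) := by
  rw [(D.spl j).cross, c_PS D, if_pos hj]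

theorem spl_PS (D : Dec q ι c) (S : Finset ι) : Spl q (PS c S) where
  idem w := by rw [PS_PS D, Finset.inter_self]
  cross w y := by
    rw [PS_apply, map_sum, LinearMap.sum_apply, LinearMap.sum_apply]
    refine Finset.sum_congr rfl fun j hj => ?_
    rw [cross' D S j hj, (D.spl j).cross]
  zero w y h := by
    rw [PS_apply S w, map_sum, LinearMap.sum_apply]
    refine Finset.sum_eq_zero fun j hj => ?_
    rw [cross' D S j hj, (D.spl j).zero w y h]

theorem inj (D : Dec q ι c) (hne : ∀ j, ∃ w, c j w ≠ 0) {a b : ι} (h : ∀ w, c a w = c b w) :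
    a = b := by
  by_contra hab
  obtain ⟨w, hw⟩ := hne a
  apply hw
  rw [← (D.spl a).idem, h (c a w)]
  exact D.orth b a (Ne.symm hab) w

end

section

variable {V B L C : Type} [AddCommGroup V] [Module (ZMod 2) V] [AddCommGroup B]
    [Module (ZMod 2) B] [AddCommGroup L] [Module (ZMod 2) L] [AddCommGroup C]
    [Module (ZMod 2) C] (E : QX V B L C)

theorem s_s (w : L) : E.s (E.s w) = w := by
  rw [E.s_apply, E.s_apply, map_add, E.Nres, add_zero, add_assoc, ZModModule.add_self, add_zero]

/-- a component commuting with the conjugation -/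
theorem sf_of {p : L →ₗ[ZMod 2] L} (hp : Spl E.q' p) (h : ∀ w, E.s (p (E.s w)) = p w) :
    SF E p where
  spl := hp
  comm w := by
    have h1 := h (E.s w)
    rw [s_s, E.s_apply, E.s_apply, map_add] at h1
    exact add_left_cancel h1

end

end BLO_

open BLO_ in
theorem blo_proof : Stmt_BLO := by
  intro V B L C _ _ _ _ _ _ _ _ E _ k c D hne hs
  choose π hπ using hs
  have hπ2 : ∀ j, π (π j) = j := by
    intro j
    apply inj D hne
    intro w
    rw [← hπ, ← hπ, s_s, s_s]
  have hS : ∀ (i : Fin k) (w : L), E.s (PS c {i, π i} (E.s w)) = PS c {i, π i} w := by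
    intro i w
    by_cases h : π i = i
    · have h1 : ({i, π i} : Finset (Fin k)) = {i} := by rw [h]; simp
      have h2 := hπ i w
      rw [h] at h2
      rw [h1, PS_apply, PS_apply, Finset.sum_singleton, Finset.sum_singleton, h2]
    · have h1 : i ≠ π i := fun h' => h h'.symm
      rw [PS_apply, PS_apply, Finset.sum_pair h1, Finset.sum_pair h1, map_add, hπ, hπ, hπ2,
        add_comm]
  have hidx : ∀ i : Fin k, i ≤ π i ∨ π i ≤ π (π i) := by
    intro i
    rw [hπ2]
    exact le_total _ _
  let ι := {i : Fin k // i ≤ π i}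
  let g : Fin k → ι := fun j => if h : j ≤ π j then ⟨j, h⟩ else ⟨π j, (hidx j).resolve_left h⟩
  have hg : ∀ (i : ι), Finset.univ.filter (fun j => g j = i) = {i.1, π i.1} := by
    rintro ⟨i, hi⟩
    ext j
    rw [Finset.mem_filter, Finset.mem_insert, Finset.mem_singleton]
    constructor
    · rintro ⟨-, h⟩
      have h0 := congrArg Subtype.val h
      by_cases hj : j ≤ π j
      · simp only [g, dif_pos hj] at h0
        exact Or.inl h0
      · simp only [g, dif_neg hj] at h0
        right
        change j = π i
        rw [← h0, hπ2]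
    · intro h
      refine ⟨Finset.mem_univ _, ?_⟩
      rcases h with h | h
      · subst h
        simp only [g, dif_pos hi]
      · apply Subtype.ext
        by_cases hj : j ≤ π j
        · simp only [g, dif_pos hj]
          rw [h, hπ2] at hj
          rw [h]
          exact le_antisymm hj hi
        · simp only [g, dif_neg hj]
          rw [h, hπ2]
  refine ⟨ι, inferInstance, inferInstance, fun i => PS c {i.1, π i.1}, ⟨fun i => spl_PS D _,
    ?_, ?_⟩, ?_⟩
  · rintro ⟨i, hi⟩ ⟨j, hj⟩ hij w
    rw [PS_PS D]
    have hij' : i ≠ j := fun h => hij (Subtype.ext h)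
    have h1 : ({i, π i} : Finset (Fin k)) ∩ {j, π j} = ∅ := by
      ext a
      simp only [Finset.mem_inter, Finset.mem_insert, Finset.mem_singleton, Finset.notMem_empty,
        iff_false, not_and]
      rintro (h | h) (h' | h')
      · exact hij' (h.symm.trans h')
      · have h2 : i = π j := h.symm.trans h'
        have h3 : π i = j := by rw [h2, hπ2]
        rw [h3] at hi
        rw [← h2] at hj
        exact hij' (le_antisymm hi hj)
      · have h2 : π i = j := h.symm.trans h'
        have h3 : π j = i := by rw [← h2, hπ2]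
        rw [h2] at hi
        rw [h3] at hj
        exact hij' (le_antisymm hi hj)
      · have h2 : π i = π j := h.symm.trans h'
        have h3 := congrArg π h2
        rw [hπ2, hπ2] at h3
        exact hij' h3
    rw [h1, PS_apply, Finset.sum_empty]
  · intro w
    have h1 := Finset.sum_fiberwise (Finset.univ : Finset (Fin k)) g (fun j => c j w)
    rw [D.sum] at h1
    refine Eq.trans ?_ h1
    refine Finset.sum_congr rfl fun i _ => ?_
    rw [hg, PS_apply]
  · rintro ⟨i, hi⟩
    refine ⟨sf_of E (spl_PS D _) (hS i), ?_⟩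
    by_cases h : π i = i
    · left
      refine ⟨i, ?_⟩
      dsimp only
      rw [h, Finset.insert_eq_of_mem (Finset.mem_singleton_self i), PS, Finset.sum_singleton]
    · right
      have h1 : i ≠ π i := fun h' => h h'.symm
      refine ⟨i, D.spl i, fun w => ?_, fun w => ?_, fun w => ?_⟩
      · dsimp only
        rw [PS_apply, Finset.sum_pair h1, (D.spl i).idem, D.orth _ _ h, add_zero]
      · exact (c_PS D _ i w).trans (if_pos (Finset.mem_insert_self _ _))
      · dsimp only
        rw [PS_apply, Finset.sum_pair h1]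
        have h2 := hπ i (E.s w)
        rw [s_s] at h2
        rw [h2, add_comm (c i (E.s w)), add_assoc, ZModModule.add_self, add_zero]

end Pool.Agent.DQX
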