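import Pool.Agent.DQX.Stmts

/-!
DQX, module CEN: the conjugation permutes the components.
-/

set_option autoImplicit false

namespace Pool.Agent.DQX

open CommonSlot

theorem cen_two {L : Type} [AddCommGroup L] [Module (ZMod 2) L] (a : L) : a + a = 0 := by
  have h : (2 : ZMod 2) • a = a + a := two_smul _ a
  rw [← h, show (2 : ZMod 2) = 0 from rfl, zero_smul]

theorem cen_proof (hIDC : Stmt_IDC) (hCOM : Stmt_COM) : Stmt_CEN := by
  intro V B L C _ _ _ _ _ _ _ _ E hR k c hD hT hne j
  -- the conjugation is an involution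
  have hss : ∀ w, E.s (E.s w) = w := by
    intro w
    rw [QX.s_apply, QX.s_apply, map_add, E.Nres, add_zero, add_assoc, cen_two, add_zero]
  have hsq : ∀ w y, E.q' w y = 0 → E.q' (E.s w) (E.s y) = 0 := E.sq
  -- conjugates of split maps are split
  have hspl : ∀ p, Spl E.q' p → Spl E.q' (E.s ∘ₗ p ∘ₗ E.s) := by
    intro p hp
    refine ⟨fun w => ?_, fun w y => ?_, fun w y h => ?_⟩
    · simp only [LinearMap.comp_apply]
      rw [hss, hp.idem]
    · simp only [LinearMap.comp_apply]
      have h1 : E.q' (p (E.s w)) (E.s y + p (E.s y)) = 0 := by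
        rw [map_add, ← hp.cross, cen_two]
      have h2 := hsq _ _ h1
      rw [map_add E.s, hss, map_add] at h2
      have h3 := congrArg (· + E.q' (E.s (p (E.s w))) (E.s (p (E.s y)))) h2
      simp only [add_assoc, cen_two, add_zero, zero_add] at h3
      exact h3
    · simp only [LinearMap.comp_apply]
      exact hsq _ _ (hp.zero _ _ (hsq _ _ h))
  have hl := E.link'
  have hnd := hR.nd'
  -- the products of commuting split maps are split
  have hmul : ∀ f p, Spl E.q' f → Spl E.q' p → Spl E.q' (f ∘ₗ p) := by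
    intro f p hf hp
    have hc := hCOM L C E.q' (E.res E.e) hl hnd f p hf hp
    refine ⟨fun w => ?_, fun w y => ?_, fun w y h => ?_⟩
    · simp only [LinearMap.comp_apply]
      rw [← hc (p w), hp.idem, hf.idem]
    · simp only [LinearMap.comp_apply]
      rw [hf.cross, hc w, hp.cross, ← hc w, ← hc y]
    · simp only [LinearMap.comp_apply]
      exact hf.zero _ _ (hp.zero _ _ h)
  -- the step
  have step : ∀ f, Spl E.q' f → ∀ i, (∀ w, f (c i w) = 0) ∨ ∀ w, f (c i w) = c i w := by
    intro f hf i
    have hc := hCOM L C E.q' (E.res E.e) hl hnd f (c i) hf (hD.spl i)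
    refine hIDC L C E.q' (E.res E.e) hl hnd (c i) (hD.spl i) (hT i) (f ∘ₗ c i)
      (hmul f (c i) hf (hD.spl i)) (fun w => ?_) (fun w => ?_)
    · simp only [LinearMap.comp_apply]
      rw [(hD.spl i).idem]
    · simp only [LinearMap.comp_apply]
      rw [← hc, (hD.spl i).idem]
  set f : L →ₗ[ZMod 2] L := E.s ∘ₗ c j ∘ₗ E.s with hf
  have hfs : Spl E.q' f := hspl _ (hD.spl j)
  have hfa : ∀ w, f w = E.s (c j (E.s w)) := fun w => rfl
  -- `f ≠ 0`
  obtain ⟨w1, hw1⟩ := hne j
  have hex : ∃ i, ∀ w, f (c i w) = c i w := by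
    by_contra hcon
    push Not at hcon
    have h0 : ∀ i w, f (c i w) = 0 := by
      intro i
      rcases step f hfs i with h | h
      · exact h
      · obtain ⟨w, hw⟩ := hcon i
        exact absurd (h w) hw
    have h1 : ∀ w, f w = 0 := by
      intro w
      rw [← hD.sum w, map_sum]
      exact Finset.sum_eq_zero (fun i _ => h0 i w)
    have h2 := h1 (E.s w1)
    rw [hfa, hss] at h2
    have h3 := congrArg E.s h2
    rw [hss, map_zero] at h3
    exact hw1 h3
  obtain ⟨i, hi⟩ := hex
  -- the other direction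
  set g : L →ₗ[ZMod 2] L := E.s ∘ₗ c i ∘ₗ E.s with hg
  have hgs : Spl E.q' g := hspl _ (hD.spl i)
  have hga : ∀ w, g w = E.s (c i (E.s w)) := fun w => rfl
  -- `c j g = g`
  have hcg : ∀ w, c j (g w) = g w := by
    intro w
    have h1 := hi (E.s w)
    rw [hfa] at h1
    have h2 := congrArg E.s h1
    rw [hss] at h2
    exact h2
  have hgc : ∀ w, g (c j w) = g w := by
    intro w
    rw [hCOM L C E.q' (E.res E.e) hl hnd g (c j) hgs (hD.spl j) w, hcg]
  refine ⟨i, fun w => ?_⟩
  rcases step g hgs j with h | h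
  · exfalso
    have h1 : ∀ w, g w = 0 := fun w => by rw [← hgc, h]
    obtain ⟨w2, hw2⟩ := hne i
    have h2 := h1 (E.s w2)
    rw [hga, hss] at h2
    have h3 := congrArg E.s h2
    rw [hss, map_zero] at h3
    exact hw2 h3
  · -- `g = c j`
    have h1 : ∀ w, g w = c j w := fun w => by rw [← hgc, h]
    rw [← h1 (E.s w), hga, hss, hss]

end Pool.Agent.DQX
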