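import Pool.Agent.DQX.XID

/-! DQX: COM -/

set_option autoImplicit false

namespace Pool.Agent.DQX

open CommonSlot XID_

theorem com_proof : Stmt_COM := by
  intro V B _ _ _ _ q e hq hnd f p hf hp w
  -- adjointness
  have key : ∀ g : V →ₗ[ZMod 2] V, (∀ w y, q w y = 0 → q (g w) y = 0) →
      ∀ w y, q (g w) y = q w (g y) := by
    intro g hg w y
    have h1 : ∀ a, q (g a) (a + e) = 0 := fun a => hg a (a + e) (by
      rw [map_add, hq.diag, ad])
    have h2 := h1 (w + y)
    have h3 := h1 w
    have h4 := h1 y
    simp only [map_add, LinearMap.add_apply] at h2 h3 h4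
    have h5 : q (g w) y + q (g y) w = 0 := by
      have : q (g w) y + q (g y) w = (q (g w) w + q (g y) w + (q (g w) y + q (g y) y) +
          (q (g w) e + q (g y) e)) + (q (g w) w + q (g w) e) + (q (g y) y + q (g y) e) := by
        have e1 := ad (q (g w) w)
        have e2 := ad (q (g w) e)
        have e3 := ad (q (g y) y)
        have e4 := ad (q (g y) e)
        calc q (g w) y + q (g y) w = q (g w) y + q (g y) w + (q (g w) w + q (g w) w) +
            (q (g w) e + q (g w) e) + (q (g y) y + q (g y) y) + (q (g y) e + q (g y) e) := by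
              rw [e1, e2, e3, e4]; simp
          _ = _ := by abel
      rw [this, h3, h4]
      simpa using h2
    rw [eq_of h5, hq.symm]
  have hz : ∀ g, Spl q g → ∀ w y, q w y = 0 → q (g w) y = 0 := by
    intro g hg w y h
    rw [hg.cross]; exact hg.zero w y h
  have kf := key f (hz f hf)
  have kp := key p (hz p hp)
  apply eq_of
  apply hnd
  intro y
  have k1 : q (f (p w)) y = q w (f (p y)) := by
    refine key (f ∘ₗ p) ?_ w y
    intro w y h
    exact hz f hf _ _ (hz p hp _ _ h)
  have k2 : q (p (f w)) y = q w (f (p y)) := by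
    rw [kp, kf]
  rw [map_add, LinearMap.add_apply, k1, k2, ad]

end Pool.Agent.DQX
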