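import Pool.Agent.DQX.Stmts

/-!
DCM: projections of a direct sum.
-/

set_option autoImplicit false

namespace Pool.Agent.DQX

theorem dcm_proof : Stmt_DCM := by
  classical
  intro V _ _ ι _ _ W h1 h2
  choose f hf hf' using h1
  have huniq : ∀ (v : V) (g : ι → V), (∀ i, g i ∈ W i) → ∑ i, g i = v → g = f v := by
    intro v g hg hg'
    have h3 := h2 (g - f v) (fun i => Submodule.sub_mem _ (hg i) (hf v i)) (by
      simp only [Pi.sub_apply, Finset.sum_sub_distrib, hg', hf', sub_self])
    funext i
    exact sub_eq_zero.1 (h3 i)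
  have hadd : ∀ u v, f (u + v) = f u + f v := fun u v =>
    (huniq (u + v) (f u + f v) (fun i => Submodule.add_mem _ (hf u i) (hf v i)) (by
      simp only [Pi.add_apply, Finset.sum_add_distrib, hf'])).symm
  have hsmul : ∀ (a : ZMod 2) v, f (a • v) = a • f v := fun a v =>
    (huniq (a • v) (a • f v) (fun i => Submodule.smul_mem _ a (hf v i)) (by
      simp only [Pi.smul_apply, ← Finset.smul_sum, hf'])).symm
  have hsingle : ∀ i, ∀ v ∈ W i, f v = Pi.single i v := fun i v hv =>
    (huniq v (Pi.single i v) (fun j => by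
      by_cases hj : j = i
      · rw [hj, Pi.single_eq_same]; exact hv
      · rw [Pi.single_eq_of_ne hj]; exact Submodule.zero_mem _) (by
      rw [Finset.sum_pi_single', if_pos (Finset.mem_univ i)])).symm
  refine ⟨fun i => ⟨⟨fun v => f v i, fun u v => ?_⟩, fun a v => ?_⟩, fun i v => hf v i,
    fun v => hf' v, fun i v hv => ?_, fun i j hij v hv => ?_⟩
  · rw [hadd]; rfl
  · change f (a • v) i = a • f v i
    rw [hsmul]; rfl
  · change f v i = v
    rw [hsingle i v hv, Pi.single_eq_same]
  · change f v j = 0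
    rw [hsingle i v hv, Pi.single_eq_of_ne (Ne.symm hij)]

end Pool.Agent.DQX
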