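import Pool.Agent.DQX.Stmts

/-!
DQX, module DES: the descent theorem (reduced) from the modules.
-/

set_option autoImplicit false

namespace Pool.Agent.DQX

open CommonSlot

namespace DES_

theorem zmod2 (c : ZMod 2) : c = 0 ∨ c = 1 := by
  revert c; decide

variable {V B L C : Type} [AddCommGroup V] [Module (ZMod 2) V] [AddCommGroup B]
  [Module (ZMod 2) B] [AddCommGroup L] [Module (ZMod 2) L] [AddCommGroup C]
  [Module (ZMod 2) C]

/-- every stable block is all right -/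
theorem blk (hBFR : Stmt_BFR) (hLC3 : Stmt_LC3) (hEX2 : Stmt_EX2) (hEX4 : Stmt_EX4)
    (hEX5 : Stmt_EX5) (hEX6 : Stmt_EX6) [Finite L] {E : QX V B L C} (hE : E.Red) {w0 : L}
    (hw : E.N w0 = E.x) {p : L →ₗ[ZMod 2] L} (hp : SF E p)
    (h : Typ E.q' (E.res E.e) p ∨ ∃ c, Fre E p c) : BlkOK E w0 p := by
  rcases h with (h | ⟨τ, h⟩) | ⟨c, h⟩
  · exact hLC3 V B L C E inferInstance hE p w0 hp hw h
  · by_cases hc : ∀ v, τ (E.res v) = 0
    · exact hEX2 V B L C E hE p τ w0 hp h hw hc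
    · have hc' : ∃ v, τ (E.res v) = 1 := by
        push Not at hc
        obtain ⟨v, hv⟩ := hc
        exact ⟨v, (zmod2 _).resolve_left hv⟩
      refine ⟨hEX4 V B L C E hE p τ w0 hp h hw hc', hEX5 V B L C E hE p τ w0 hp h hw hc', ?_⟩
      intro _ hg Φ _ h2
      exact hEX6 V B L C E hE p τ w0 hp h hw hc' hg Φ h2
  · exact (hBFR V B L C E hE p c w0 hp h hw).2

end DES_

open DES_ in
theorem des_proof (hBFR : Stmt_BFR) (hLC1 : Stmt_LC1) (hLC3 : Stmt_LC3) (hEX1 : Stmt_EX1)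
    (hEX2 : Stmt_EX2) (hEX3 : Stmt_EX3) (hEX4 : Stmt_EX4) (hEX5 : Stmt_EX5) (hEX6 : Stmt_EX6)
    (hPR1 : Stmt_PR1) (hPR2 : Stmt_PR2) (hFFR : Stmt_FFR) (hFFT : Stmt_FFT) (hFLO : Stmt_FLO)
    (hFE1 : Stmt_FE1) (hFE2 : Stmt_FE2) (hCEN : Stmt_CEN) (hBLO : Stmt_BLO) : Stmt_DES := by
  intro V B L C _ _ _ _ _ _ _ _ E hfin hE hxe k c hc ht hne
  obtain ⟨w0, hw⟩ := E.norm E.x (by rw [E.link.diag]; exact hxe)
  have hperm := hCEN V B L C E hE k c hc ht hne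
  obtain ⟨ι, i1, i2, p, hp, hb⟩ := hBLO V B L C E hE k c hc hne hperm
  have hsf : ∀ i, SF E (p i) := fun i => (hb i).1
  have hty : ∀ i, Typ E.q' (E.res E.e) (p i) ∨ ∃ j, Fre E (p i) (c j) := by
    intro i
    rcases (hb i).2 with ⟨j, hj⟩ | h
    · left; rw [hj]; exact ht j
    · right; exact h
  have hok : ∀ i, BlkOK E w0 (p i) := by
    intro i
    refine blk hBFR hLC3 hEX2 hEX4 hEX5 hEX6 hE hw (hsf i) ?_
    rcases hty i with h | ⟨j, h⟩
    · exact Or.inl h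
    · exact Or.inr ⟨_, h⟩
  obtain ⟨P, a1, a2, a3, a4, a5, a6⟩ := hPR1 V B L C E ι p w0 hE hw hp hsf hok
  obtain ⟨hP, hF⟩ := hPR2 V B L C E ι p w0 hE hw hp hsf hok P a1 a2 a3 a4 a5 a6
  have key : ∀ i, Typ E.q E.e (P i) ∧ (∃ v, P i v ≠ 0) ∧
      (P i E.x ≠ 0 ∨ ∃ j, Iso E (P i) (c j)) := by
    intro i
    have hx : P i E.x = E.N (p i w0) := by rw [← hw, (hF i).NP]
    -- the fixed case
    have fixed : Typ E.q E.e (P i) → E.N (p i w0) ≠ 0 → Typ E.q E.e (P i) ∧ (∃ v, P i v ≠ 0) ∧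
        (P i E.x ≠ 0 ∨ ∃ j, Iso E (P i) (c j)) := by
      intro h1 h2
      exact ⟨h1, ⟨E.x, by rw [hx]; exact h2⟩, Or.inl (by rw [hx]; exact h2)⟩
    rcases hty i with (h | ⟨τ, h⟩) | ⟨j, h⟩
    · exact fixed (Or.inl (hFLO V B L C E hfin hE (P i) (p i) w0 (hF i) hw h))
        (hLC1 V B L C E hE (p i) w0 (hsf i) hw h).1
    · by_cases hc : ∀ v, τ (E.res v) = 0
      · exact fixed (hFE1 V B L C E hE (P i) (p i) τ w0 (hF i) hw h (hok i) hc)
          (hEX1 V B L C E hE (p i) τ w0 (hsf i) h hw hc).2.2.2.2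
      · have hc' : ∃ v, τ (E.res v) = 1 := by
          push Not at hc
          obtain ⟨v, hv⟩ := hc
          exact ⟨v, (zmod2 _).resolve_left hv⟩
        exact fixed (hFE2 V B L C E hE (P i) (p i) τ w0 (hF i) hw h (hok i) hc')
          (hEX3 V B L C E hE (p i) τ w0 (hsf i) h hw hc').1
    · obtain ⟨h1, h2⟩ := hFFR V B L C E hE (P i) (p i) (c j) w0 (hF i) h hw
        (hBFR V B L C E hE (p i) (c j) w0 (hsf i) h hw).1
      refine ⟨hFFT V B L C E hE (P i) (p i) (c j) (hF i) h h1 h2 (ht j), ?_, Or.inr ⟨j, h1⟩⟩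
      obtain ⟨w, hw⟩ := hne j
      obtain ⟨v, hv⟩ := h1.surj w
      refine ⟨v, fun h0 => hw ?_⟩
      rw [← hv, ← h1.hP, h0, map_zero, map_zero]
  let f := Fintype.equivFin ι
  refine ⟨Fintype.card ι, fun i => P (f.symm i), ⟨?_, ?_, ?_⟩, fun i => key _⟩
  · intro i; exact hP.spl _
  · intro i j hij w
    exact hP.orth _ _ (fun h => hij (f.symm.injective h)) w
  · intro w
    rw [Equiv.sum_comp f.symm (fun i => P i w)]
    exact hP.sum w

end Pool.Agent.DQX
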