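import Pool.Agent.DQX.StmtsZ

/-!
DQX, module DSF: the descent for fields in the form of `ETG.Iface`.
-/

set_option autoImplicit false

namespace Pool.Agent.DQX

open CommonSlot Pool.Agent.EWG

theorem dsf_proof : Stmt_DSF := by
  intro hDES hRED hZIN hZOU hZFR hQXF F K _ _ _ hF hfin E k' C' hOS
  obtain ⟨hfK, B, C, i1, i2, i3, i4, Q, he, hx, hres, hZ, hZ'⟩ := hQXF F K hF E
  have finK : Finite (VV K) := hfK hfin
  obtain ⟨V1, L1, j1, j2, j3, j4, E1, πV, πL, hRed, sV, sL, kV, kL, q1, q1', r1, n1, x1, e1⟩ :=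
    hRED (VV F) B (VV K) C Q
  have he1 : E1.e = 0 := by rw [e1, he, map_zero]
  have hl : IsLinked E1.q 0 := by
    have := E1.link
    rwa [he1] at this
  have hl' : IsLinked E1.q' 0 := by
    have := E1.link'
    rwa [he1, map_zero] at this
  obtain ⟨c, c1, c2, c3, c4⟩ := hZIN (VV K) L1 C Q.q' E1.q' πL (ETG.Zf K) k' C' hl' hRed.nd' sL
    q1' hZ' hOS
  have finL1 : Finite L1 := Finite.of_surjective _ sL
  obtain ⟨k, P, P1, P2⟩ := hDES V1 B L1 C E1 finL1 hRed (by rw [he1, map_zero]) k' c c2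
    (by rw [he1, map_zero]; exact c3) c4
  obtain ⟨D, D1, D2⟩ := hZOU (VV F) V1 B Q.q E1.q πV (ETG.Zf F) k P hl hRed.nd sV q1 hZ P1
    (fun j => by
      have := (P2 j).1
      rwa [he1] at this) (fun j => (P2 j).2.1)
  refine ⟨k, D, D1, fun j => ?_⟩
  rcases (P2 j).2.2 with h | ⟨j', h⟩
  · left
    intro h0
    apply h
    rw [x1, hx]
    exact (D2 j _).2.1 h0
  · right
    refine ⟨j', ?_⟩
    have hr : Q.res = ETG.rv F K := LinearMap.ext hres
    rw [← hr]
    refine hZFR (VV F) B (VV K) C V1 L1 Q E1 πV πL (ETG.Zf F) (ETG.Zf K) (D.p j) (C'.p j') (P j)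
      (c j') hRed sV sL q1 q1' r1 hZ hZ' (D.idem j) (fun v => (D2 j v).1) (fun v => (D2 j v).2)
      (C'.idem j') (fun w => (c1 j' w).symm) ?_ (P1.spl j) (c2.spl j') h
    intro w
    rw [c1]
    constructor
    · intro h0; rw [h0, map_zero]
    · intro h0
      apply C'.nd
      intro w'
      rw [← hZ']
      exact (kL _).1 h0 _

end Pool.Agent.DQX
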