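import Pool.Agent.DQX.Stmts

/-! Module EQP: equal symbols have equal components. -/

set_option autoImplicit false

namespace Pool.Agent.DQX

open CommonSlot

namespace EQP_

theorem add_eq {B : Type} [AddCommGroup B] [Module (ZMod 2) B] {a b : B} (h : a + b = 0) :
    a = b := by
  have h2 : b + b = 0 := by
    rw [← two_smul (ZMod 2) b]
    have : (2 : ZMod 2) = 0 := rfl
    rw [this, zero_smul]
  calc a = a + (b + b) := by rw [h2, add_zero]
    _ = a + b + b := by abel
    _ = b := by rw [h, zero_add]

theorem self_add {B : Type} [AddCommGroup B] [Module (ZMod 2) B] (b : B) : b + b = 0 := by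
  rw [← two_smul (ZMod 2) b]
  have : (2 : ZMod 2) = 0 := rfl
  rw [this, zero_smul]

end EQP_

open EQP_

theorem eqp_proof : Stmt_EQP := by
  intro V B _ _ _ _ q e hl p hp a b c d h
  obtain ⟨s, h1, h2⟩ := hl.link a b c d h
  have h3 : q a (s + b) = 0 := by
    rw [map_add, h1, self_add]
  have h4 : q c (s + d) = 0 := by
    rw [map_add, h2, h, self_add]
  have h5 : q (a + c) s = 0 := by
    rw [map_add, LinearMap.add_apply, h1, h2, self_add]
  have h6 := hp.zero _ _ h3
  have h7 := hp.zero _ _ h4
  have h8 := hp.zero _ _ h5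
  rw [map_add, map_add] at h6 h7
  rw [map_add, map_add, LinearMap.add_apply] at h8
  rw [← add_eq h6, ← add_eq h7]
  exact add_eq h8

end Pool.Agent.DQX
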