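import Pool.Agent.DQX.Stmts

/-!
DQX EX1: extension type, `res V` has no component outside `H`.
-/

set_option autoImplicit false

namespace Pool.Agent.DQX

open CommonSlot

theorem ex1_proof (hRGD : Stmt_RGD) (hXID : Stmt_XID) (hLM1 : Stmt_LM1) (hINX : Stmt_INX)
    (hLMZ : Stmt_LMZ) : Stmt_EX1 := by
  intro V B L C _ _ _ _ _ _ _ _ E hR p τ w0 hp hE hw0 h0
  have hLM := hLM1 V B L C E hR p hp
  have hs := hp.spl
  obtain ⟨t, ht⟩ := hE.ex
  -- rigidity: `τ w = 1`, `τ y = 0`
  have hrig : ∀ w y, τ w = 1 → τ y = 0 → E.q' (p w) (p y) = 0 → p y = 0 := by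
    intro w y hw hy h
    rcases hRGD L C E.q' (E.res E.e) E.link' p τ hs hE w y hw h with h1 | h1
    · exact h1
    · exfalso
      have h2 := congrArg τ h1
      rw [map_add, hE.tp, hE.tp, hE.tp, hy, hw, h0] at h2
      revert h2
      decide
  -- (i)
  have hi : ∀ w, τ w = 0 → ∃ v, p w = p (E.res v) := by
    intro w hw
    obtain ⟨b, c, hbc⟩ := E.rt t w
    refine ⟨c, ?_⟩
    have h1 := hs.zero _ _ hbc
    have h2 := hrig _ _ (by rw [map_add, ht, h0, add_zero]) (by rw [map_add, hw, h0, add_zero]) h1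
    rw [map_add] at h2
    exact eq_of_add_eq_zero' h2
  have hN0 : ∀ y, τ y = 0 → E.N (p y) = 0 := by
    intro y hy
    obtain ⟨v, hv⟩ := hi y hy
    rw [hv, hLM]
  -- EPS + RGD
  have heps : ∀ y u, τ y = 1 → E.q u (E.N (p y)) = 0 → p (E.res u) = 0 := by
    intro y u hy hu
    obtain ⟨f, hf⟩ := E.np u (p y) hu
    have h1 := hs.zero _ _ hf
    rw [map_add, hs.idem, ← map_add, E.link'.symm] at h1
    exact hrig _ _ (by rw [map_add, hy, h0, add_zero]) (h0 u) h1
  -- (ii)
  have hii : ∀ y, τ y = 1 → E.res (E.N (p y)) = p (E.res E.e) := by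
    intro y hy
    have h1 := heps y (E.N (p y) + E.e) hy (by
      rw [map_add, LinearMap.add_apply, E.link.diag, E.link.symm E.e, ZModModule.add_self])
    rw [map_add, map_add, ← hp.comm, hs.idem] at h1
    exact eq_of_add_eq_zero' h1
  -- (iii)
  have hiii : p (E.res E.e) = 0 := by
    by_contra hne
    have hw : τ w0 = 0 := by
      rcases zm (τ w0) with h1 | h1
      · exact h1
      · exfalso
        apply hne
        rw [← hii w0 h1, hp.comm, hw0, E.resx, map_zero]
    have hx : E.N (p w0) = 0 := hN0 w0 hw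
    obtain ⟨h, hh0, hh1, hh2⟩ := hE.big
    obtain ⟨u, hu⟩ := hi h hh0
    obtain ⟨b, c, hbc⟩ := E.rt (p (E.res u)) (p t + w0 + p w0)
    have h1 : E.cor (E.q' (p (E.res u)) (p t + w0 + p w0)) = E.q b (E.N (p t) + E.x) := by
      have h2 := congrArg E.cor hbc
      rw [map_zero, map_add E.q', LinearMap.add_apply, map_add (E.q' (p (E.res u))),
        map_add (E.q' (E.res b)), map_add E.cor, map_add E.cor, map_add E.cor, E.proj, E.proj,
        E.Nres, map_zero, add_zero, E.link'.symm (p (E.res u)) (E.res c), E.proj,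
        hLM, map_zero, add_zero, map_add E.N, map_add E.N, hw0, hx,
        add_zero] at h2
      exact eq_of_add_eq_zero' h2
    have h3 : E.cor (E.q' (p (E.res u)) (p t + w0 + p w0)) = E.q u (E.N (p t)) := by
      have h4 : E.q' (p (E.res u)) (w0 + p w0) = 0 := by
        rw [map_add, hs.cross _ w0, ZModModule.add_self]
      rw [add_assoc, map_add, h4, add_zero, ← E.proj, E.link'.symm (p (E.res u)), hs.cross,
        hs.idem, ← hs.cross, E.link'.symm]
    rw [h3] at h1
    have h5 : E.q (E.N (p t)) (u + b) = E.q E.x b := by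
      rw [map_add, E.link.symm _ u, h1, map_add, E.link.symm b, E.link.symm b E.x,
        add_assoc, add_comm, add_assoc, ZModModule.add_self, add_zero]
    have h6 := hINX V B L C E hR p w0 hp hw0 t (u + b) b h5
    rw [hx, map_zero, LinearMap.zero_apply] at h6
    obtain ⟨n, hn⟩ := E.norm b h6.symm
    have h7 : p (E.res b) = 0 ∨ p (E.res b) = p (E.res E.e) := by
      rw [← hn, ← hp.comm]
      rcases zm (τ n) with h8 | h8
      · left
        rw [hN0 n h8, map_zero]
      · right
        exact hii n h8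
    have h9 : p (E.res (u + b)) = 0 := heps t (u + b) ht (by rw [E.link.symm, h5, ← h6])
    rw [map_add, map_add] at h9
    have h10 : p h = p (E.res b) := by rw [hu]; exact eq_of_add_eq_zero' h9
    rw [← h10] at h7
    rcases h7 with h7 | h7
    · exact hh1 h7
    · exact hh2 h7
  have hNt : E.N (p t) ≠ 0 := by
    intro hz
    obtain ⟨h, _, hh1, _⟩ := hE.big
    apply hh1
    refine hLMZ V B L C E hR p w0 hp hw0 ?_ h
    intro z
    rcases zm (τ z) with h8 | h8
    · exact hN0 z h8
    · have h9 := hN0 (z + t) (by rw [map_add, h8, ht]; decide)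
      rw [map_add, map_add, hz, add_zero] at h9
      exact h9
  have hrt : E.res (E.N (p t)) = 0 := by rw [hii t ht, hiii]
  have hnx : E.N (p w0) ≠ 0 := by
    intro hx
    apply hNt
    apply hR.nd
    intro v
    obtain ⟨u, hu, _⟩ := (hXID V B L C E _ hrt).2 v
    have h6 := hINX V B L C E hR p w0 hp hw0 t v u hu.symm
    rw [hx, map_zero, LinearMap.zero_apply] at h6
    rw [← hu, ← h6]
  refine ⟨hiii, hi, ?_, ?_, hnx⟩
  · intro y
    rcases zm (τ y) with h8 | h8
    · rw [hN0 y h8, map_zero]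
    · rw [hii y h8, hiii]
  · rcases zm (τ w0) with h8 | h8
    · exact absurd (hN0 w0 h8) hnx
    · exact h8

end Pool.Agent.DQX
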