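import Pool.Agent.DQX.Stmts

/-!
DQX EX2: extension type, `res V` has no component outside `H`: the block is fine.
-/

set_option autoImplicit false

namespace Pool.Agent.DQX

open CommonSlot

theorem ex2_proof (hRGD : Stmt_RGD) (hXID : Stmt_XID) (hLM1 : Stmt_LM1) (hEX1 : Stmt_EX1)
    (hLSC : Stmt_LSC) : Stmt_EX2 := by
  intro V B L C _ _ _ _ _ _ _ _ E hR p τ w0 hp hE hw0 h0
  obtain ⟨he, h1, h2, h3, h4⟩ := hEX1 V B L C E hR p τ w0 hp hE hw0 h0
  have hLM := hLM1 V B L C E hR p hp
  have hs := hp.spl
  -- values of the norm on the block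
  have hN0 : ∀ y, τ y = 0 → E.N (p y) = 0 := by
    intro y hy
    obtain ⟨v, hv⟩ := h1 y hy
    rw [hv, hLM]
  have hN1 : ∀ y, τ y = 1 → E.N (p y) = E.N (p w0) := by
    intro y hy
    have h5 : E.N (p (y + w0)) = 0 := hN0 _ (by rw [map_add, hy, h3]; decide)
    rw [map_add, map_add] at h5
    exact eq_of_add_eq_zero' h5
  have hN : ∀ y, E.N (p y) = 0 ∨ E.N (p y) = E.N (p w0) := by
    intro y
    rcases zm (τ y) with h5 | h5
    · exact Or.inl (hN0 y h5)
    · exact Or.inr (hN1 y h5)
  -- `cor (q' (p res u) w0) = q u x_p`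
  have hcor : ∀ u, E.cor (E.q' (p (E.res u)) w0) = E.q u (E.N (p w0)) := by
    intro u
    rw [hs.cross, E.link'.symm, ← hs.cross, E.link'.symm, E.proj]
  refine ⟨?_, fun y _ => hN y, ?_⟩
  · intro m hm hc
    refine ⟨0, ?_⟩
    rw [map_zero, map_zero, map_zero]
    have hτ : τ m = 0 := by
      rcases zm (τ m) with h5 | h5
      · exact h5
      · exact absurd ((hN1 m h5).symm.trans hm) h4
    obtain ⟨u, hu⟩ := h1 m hτ
    rw [hu, E.link'.symm, hcor] at hc
    obtain ⟨f, hf⟩ := E.np u (p w0) hc
    have h6 := hs.zero _ _ hf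
    rw [map_add, hs.idem, ← map_add, E.link'.symm] at h6
    rw [hu]
    rcases hRGD L C E.q' (E.res E.e) E.link' p τ hs hE (w0 + E.res f) (E.res u)
      (by rw [map_add, h3, h0, add_zero]) h6 with h7 | h7
    · exact h7
    · exfalso
      have h8 := congrArg τ h7
      rw [he, add_zero, hE.tp, hE.tp, map_add, h3, h0, h0] at h8
      revert h8
      decide
  · intro _ _ Φ _ hΦ
    let W : Submodule (ZMod 2) V :=
      { carrier := {v | VP E p v}
        add_mem' := by
          intro a b ha hb
          show p (E.res (a + b)) = E.res (a + b)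
          rw [map_add, map_add, ha, hb]
        zero_mem' := by
          show p (E.res 0) = E.res 0
          rw [map_zero, map_zero]
        smul_mem' := by
          intro r a ha
          show p (E.res (r • a)) = E.res (r • a)
          rw [map_smul, map_smul, ha] }
    apply hLSC V B W Φ (E.q E.x)
    intro v hv
    have hv' : p (E.res v) = E.res v := hv
    obtain ⟨a, g, hg, hΦv, -⟩ := hΦ v hv
    rcases hN a with h5 | h5
    · left
      rw [hΦv, h5, map_zero, LinearMap.zero_apply]
    · right
      have h6 : E.q (E.N (p w0)) g = 0 := (hXID V B L C E _ (h2 w0)).1 g hg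
      have h7 := hcor v
      rw [hv', E.proj, hw0] at h7
      rw [hΦv, h5, map_add, h6, add_zero, E.link.symm, ← h7, E.link.symm]

end Pool.Agent.DQX
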