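import Pool.Agent.DQX.Stmts

/-!
EX3: `res V` has a component outside `H`.
-/

set_option autoImplicit false

namespace Pool.Agent.DQX

open CommonSlot

namespace EX3_

theorem cross' {L C : Type} [AddCommGroup L] [Module (ZMod 2) L] [AddCommGroup C]
    [Module (ZMod 2) C] {q : L →ₗ[ZMod 2] L →ₗ[ZMod 2] C} {e : L} (hl : IsLinked q e)
    {p : L →ₗ[ZMod 2] L} (hp : Spl q p) (w y : L) : q w (p y) = q (p w) (p y) := by
  rw [hl.symm w, hp.cross y w, hl.symm (p y)]

end EX3_

open EX3_ in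
theorem ex3_proof (hLM1 : Stmt_LM1) (hINX : Stmt_INX) (hLMZ : Stmt_LMZ) (hRGN : Stmt_RGN)
    (hEX0 : Stmt_EX0) : Stmt_EX3 := by
  intro V B L C _ _ _ _ _ _ _ _ E hE p τ w0 hp hτ hw0 hex
  obtain ⟨vt, hvt⟩ := hex
  have hpp := hp.spl.idem
  have key : E.N (p w0) ≠ 0 := by
    intro hx
    -- `z` with `N (p z) ≠ 0`
    obtain ⟨z, hz⟩ : ∃ z, E.N (p z) ≠ 0 := by
      by_contra hcon
      have hcon' : ∀ z, E.N (p z) = 0 := fun z => not_not.1 fun h => hcon ⟨z, h⟩
      obtain ⟨h, -, hh, -⟩ := hτ.big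
      exact hh (hLMZ V B L C E hE p w0 hp hw0 hcon' h)
    obtain ⟨b, c, hbc⟩ := E.rt (p (E.res vt)) (p z + w0 + p w0)
    -- the corestriction
    have h1 : E.cor (E.q' (p (E.res vt)) (p z + w0 + p w0)) = E.q b (E.N (p z) + E.x) := by
      have h2 := congrArg E.cor hbc
      rw [map_zero, map_add E.q', LinearMap.add_apply, map_add (E.q' (p (E.res vt))),
        map_add (E.q' (E.res b)), map_add E.cor, map_add E.cor, map_add E.cor, E.proj, E.proj,
        E.Nres, map_zero, add_zero, E.link'.symm (p (E.res vt)) (E.res c), E.proj,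
        hLM1 V B L C E hE p hp, map_zero, add_zero, map_add E.N, map_add E.N, hw0, hx,
        add_zero] at h2
      rw [← sub_eq_zero, ZModModule.sub_eq_add]
      exact h2
    have h3 : E.cor (E.q' (p (E.res vt)) (p z + w0 + p w0)) = E.q vt (E.N (p z)) := by
      have h4 : E.q' (p (E.res vt)) (w0 + p w0) = 0 := by
        rw [map_add, hp.spl.cross _ w0, ZModModule.add_self]
      rw [add_assoc, map_add, h4, add_zero, ← E.proj, hp.spl.cross, hpp]
      rw [← cross' E.link' hp.spl (E.res vt) z]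
    rw [h3] at h1
    have h5 : E.q (E.N (p z)) (vt + b) = E.q E.x b := by
      rw [map_add, E.link.symm _ vt, h1, map_add, E.link.symm b, E.link.symm b E.x,
        add_assoc, add_comm, add_assoc, ZModModule.add_self, add_zero]
    have h6 := hINX V B L C E hE p w0 hp hw0 z (vt + b) b h5
    rw [hx, map_zero, LinearMap.zero_apply] at h6
    obtain ⟨n, hn⟩ := E.norm b h6.symm
    have h7 : τ (E.res b) = 0 := by
      have h8 := hEX0 V B L C E hE p τ hp hτ n
      rw [hp.comm, hτ.tp] at h8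
      rw [← hn]
      exact h8
    have h9 : E.q (vt + b) (E.N (p z)) = 0 := by
      rw [E.link.symm, h5, ← h6]
    obtain ⟨f, hf⟩ := hRGN V B L C E hE p τ hp hτ (vt + b) z (by
      rw [map_add, map_add, hvt, h7, add_zero]) h9
    apply hz
    rw [hf]
    exact hLM1 V B L C E hE p hp f
  refine ⟨key, fun v hv h0 => ?_⟩
  obtain ⟨f, hf⟩ := hRGN V B L C E hE p τ hp hτ v w0 hv (by rw [E.link.symm]; exact h0)
  apply key
  rw [hf]
  exact hLM1 V B L C E hE p hp f

end Pool.Agent.DQX
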