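import Pool.Agent.DQX.Stmts

/-!
EX4: the kernel of the corestriction on a group extension.
-/

set_option autoImplicit false

namespace Pool.Agent.DQX

open CommonSlot

theorem ex4_proof (hRGD : Stmt_RGD) (hSAT : Stmt_SAT) (hXID : Stmt_XID) (hRGN : Stmt_RGN)
    (hEX0 : Stmt_EX0) (hEX3 : Stmt_EX3) : Stmt_EX4 := by
  intro V B L C _ _ _ _ _ _ _ _ E hE p τ w0 hp hτ hw0 hex m hm hcor
  obtain ⟨vt, hvt⟩ := hex
  have hpp := hp.spl.idem
  have hcr := hp.spl.cross
  have hcr' : ∀ w y, E.q' w (p y) = E.q' (p w) (p y) := by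
    intro w y
    rw [E.link'.symm w, hcr y w, E.link'.symm (p y)]
  have two : ∀ a : ZMod 2, a ≠ 1 → a = 0 := by decide
  obtain ⟨hx0, hx1⟩ := hEX3 V B L C E hE p τ w0 hp hτ hw0 ⟨vt, hvt⟩
  have hx2 : ∀ v, E.q (E.N (p w0)) v = 0 → τ (E.res v) = 0 := fun v hv =>
    two _ fun h => hx1 v h hv
  have hEX0' : ∀ n, τ (E.res (E.N n)) = 0 := by
    intro n
    have h := hEX0 V B L C E hE p τ hp hτ n
    rw [hp.comm, hτ.tp] at h
    exact h
  -- `p m = p (res v)`
  obtain ⟨v, hv⟩ := hRGN V B L C E hE p τ hp hτ vt m hvt (by rw [hm, map_zero])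
  have h1 : E.q (E.N (p w0)) v = 0 := by
    rw [E.link.symm, ← E.proj, hcr' (E.res v) w0, ← hv, ← hcr m w0, E.link'.symm]
    exact hcor
  have hτv := hx2 v h1
  have hres : E.res (E.N (p w0)) = 0 := by
    rw [hp.comm, hw0, E.resx, map_zero]
  obtain ⟨u', hu1, hu2⟩ := (hXID V B L C E (E.N (p w0)) hres).2 vt
  have hτu : τ (E.res u') = 1 := by
    have h2 : E.q (E.N (p w0)) (vt + u') = 0 := by
      rw [map_add, hu2, ZModModule.add_self]
    have h3 := hx2 _ h2
    rw [map_add, map_add, hvt] at h3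
    revert h3
    generalize τ (E.res u') = a
    revert a
    decide
  obtain ⟨a, g, ha, hg, hag⟩ := hSAT V B E.q E.e E.link E.x u' (E.N (p w0)) vt v hu1 h1
  obtain ⟨n, rfl⟩ := E.norm a ha
  obtain ⟨n', rfl⟩ := E.norm g hg
  have h4 : E.q' (E.res (v + E.N n)) (E.res (u' + E.N n')) = 0 := by
    rw [← E.rsq, hag, map_zero]
  have h5 := hp.spl.zero _ _ h4
  have h6 : τ (E.res (u' + E.N n')) = 1 := by
    rw [map_add, map_add, hτu, hEX0', add_zero]
  have h7 : τ (E.res (v + E.N n)) = 0 := by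
    rw [map_add, map_add, hτv, hEX0', add_zero]
  have h8 : p (E.res (v + E.N n)) = 0 := by
    rcases hRGD L C E.q' (E.res E.e) E.link' p τ hp.spl hτ (E.res (u' + E.N n'))
      (E.res (v + E.N n)) h6 (by rw [E.link'.symm]; exact h5) with h | h
    · exact h
    · exfalso
      have h9 := congrArg τ h
      rw [hτ.tp, h7, map_add τ (p _) (p _), hτ.tp, hτ.tp, h6, hτ.eta] at h9
      revert h9
      decide
  refine ⟨n, ?_⟩
  rw [hv, hp.comm]
  rw [map_add, map_add] at h8
  calc p (E.res v) = p (E.res v) + p (E.res (E.N n)) + p (E.res (E.N n)) := by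
        rw [add_assoc, ZModModule.add_self, add_zero]
    _ = p (E.res (E.N n)) := by rw [h8, zero_add]

end Pool.Agent.DQX
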