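import Pool.Agent.DQX.Stmts

/-!
DQX, module EX5.
-/

set_option autoImplicit false

namespace Pool.Agent.DQX

open CommonSlot

theorem ex5_proof (hXID : Stmt_XID) (hLM1 : Stmt_LM1) (hINX : Stmt_INX) (hRGN : Stmt_RGN) :
    Stmt_EX5 := by
  intro V B L C _ _ _ _ _ _ _ _ E hR p τ w0 hp hE hw0 hex y hy
  obtain ⟨vt, hvt⟩ := hex
  obtain ⟨u, hu1, hu2⟩ := (hXID V B L C E (E.N (p y)) hy).2 vt
  have h1 := hINX V B L C E hR p w0 hp hw0 y vt u hu1.symm
  -- `q u (N (p (y + w0))) = 0`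
  have h2 : E.q u (E.N (p (y + w0))) = 0 := by
    rw [map_add, map_add, map_add, E.link.symm u, E.link.symm u, hu2, h1, hu1,
      ZModModule.add_self]
  have h01 : ∀ a : ZMod 2, a = 0 ∨ a = 1 := by decide
  rcases h01 (τ (E.res u)) with h | h
  · -- `τ (res (vt + u)) = 1`
    left
    have h3 : τ (E.res (vt + u)) = 1 := by rw [map_add, map_add, hvt, h, add_zero]
    have h4 : E.q (vt + u) (E.N (p y)) = 0 := by
      rw [E.link.symm, map_add, hu2, ZModModule.add_self]
    obtain ⟨f, hf⟩ := hRGN V B L C E hR p τ hp hE (vt + u) y h3 h4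
    rw [hf]
    exact hLM1 V B L C E hR p hp f
  · right
    obtain ⟨f, hf⟩ := hRGN V B L C E hR p τ hp hE u (y + w0) h h2
    have h5 : E.N (p (y + w0)) = 0 := by rw [hf]; exact hLM1 V B L C E hR p hp f
    rw [map_add, map_add] at h5
    rw [← add_zero (E.N (p y)), ← ZModModule.add_self (E.N (p w0)), ← add_assoc, h5, zero_add]

end Pool.Agent.DQX
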