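import Pool.Agent.DQX.XID

/-! DQX: EX6 -/

set_option autoImplicit false

namespace Pool.Agent.DQX

open CommonSlot XID_

theorem ex6_proof (hRGD : Stmt_RGD) (hXID : Stmt_XID) (hLM1 : Stmt_LM1) (hRGN : Stmt_RGN)
    (hEX0 : Stmt_EX0) (hEX3 : Stmt_EX3) (hEX5 : Stmt_EX5) (hLSC : Stmt_LSC) : Stmt_EX6 := by
  intro V B L C _ _ _ _ _ _ _ _ E hE p τ w0 hp hτ hw hvt hA Φ hΦ
  have hx : E.res (E.N (p w0)) = 0 := comp_res hp hw
  have hN : ∀ g, E.q E.x g = 0 → τ (E.res g) = 0 := by
    intro g hg
    obtain ⟨n, rfl⟩ := E.norm g hg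
    rw [← hτ.tp, ← hp.comm]
    exact hEX0 V B L C E hE p τ hp hτ n
  have hVx : ∀ v, VP E p v → E.q (E.N (p w0)) v = E.q E.x v := by
    intro v hv
    have hv' : p (E.res v) = E.res v := hv
    rw [← cor_res' E, ← hw, ← cor_res' E, ← hv', ← hp.spl.cross, cross' hp w0, ← hv', hp.spl.idem]
  have hxg : ∀ g, E.q E.x g = 0 → E.q (E.N (p w0)) g = 0 := (hXID V B L C E _ hx).1
  have h1 : ∀ v, VP E p v → τ (E.res v) = 1 → Φ v = 0 ∨ Φ v = E.q E.x v := by
    intro v hv ht
    obtain ⟨a, g, hg, h2, h3⟩ := hΦ v hv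
    have ht2 : τ (E.res (v + g)) = 1 := by rw [map_add, map_add, ht, hN g hg, add_zero]
    have h4 : E.q' (p (E.res (v + g))) (p (E.res (E.N (p a)))) = 0 := by
      rw [E.link'.symm, ← hp.spl.cross, hp.comm, hp.spl.cross, hp.spl.idem,
        ← hp.comm]
      rw [E.link'.symm] at h3 ⊢
      have := h3
      rw [hp.comm, ← hp.spl.idem (E.res (v + g)), ← hp.spl.cross] at this
      rw [hp.comm, ← hp.spl.idem (E.res (v + g)), ← hp.spl.cross]
      first
        | exact this
        | (rw [hp.spl.idem]; exact this)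
    have h5 : p (E.res (E.N (p a))) = E.res (E.N (p a)) := by
      rw [hp.comm, hp.spl.idem]
    have h6 : E.res (E.N (p a)) = 0 := by
      rcases hRGD L C E.q' (E.res E.e) E.link' p τ hp.spl hτ _ _ ht2 h4 with h | h
      · rw [← h5, h]
      · exfalso
        have h7 := congrArg τ h
        rw [map_add, hτ.tp, hτ.tp, hτ.tp, hEX0 V B L C E hE p τ hp hτ a, ht2, hτ.eta,
          add_zero] at h7
        exact zero_ne_one h7
    rcases hEX5 V B L C E hE p τ w0 hp hτ hw hvt a h6 with h | h
    · left; rw [h2, h, map_zero, LinearMap.zero_apply]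
    · right; rw [h2, h, map_add, hxg g hg, add_zero, hVx v hv]
  obtain ⟨vt, hvt1⟩ := hvt
  obtain ⟨v1, hv1⟩ := hA vt
  have hv1P : VP E p v1 := by
    show p (E.res v1) = E.res v1
    rw [hv1, hp.spl.idem]
  have hv1t : τ (E.res v1) = 1 := by rw [hv1, hτ.tp, hvt1]
  have h0 : ∀ v, VP E p v → τ (E.res v) = 0 → Φ v = 0 ∨ Φ v = E.q E.x v := by
    intro v hv ht
    have hvP : VP E p (v1 + v) := by
      show p (E.res (v1 + v)) = E.res (v1 + v)
      have e1 : p (E.res v1) = E.res v1 := hv1P
      have e2 : p (E.res v) = E.res v := hv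
      rw [map_add, map_add, e1, e2]
    have hvt2 : τ (E.res (v1 + v)) = 1 := by rw [map_add, map_add, hv1t, ht, add_zero]
    have hbad : ∀ u1, VP E p u1 → τ (E.res u1) = 1 → Φ v = E.q E.x u1 → False := by
      intro u1 hu hut h
      obtain ⟨a, g, hg, h2, h3⟩ := hΦ v hv
      obtain ⟨s, hs1, hs2⟩ := E.link.link _ _ _ _ (h2.symm.trans h)
      have h4 : E.q E.x (s + u1) = 0 := by
        rw [map_add, hs2, ← h2, h, ad]
      have h5 := hN _ h4
      rw [map_add, map_add, hut] at h5
      have h6 : τ (E.res s) = 1 := by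
        rcases zm (τ (E.res s)) with h' | h'
        · rw [h', zero_add] at h5; exact absurd h5 one_ne_zero
        · exact h'
      have h7 : τ (E.res (s + (v + g))) = 1 := by
        rw [map_add, map_add, map_add, map_add, h6, ht, hN g hg, add_zero, add_zero]
      have h8 : E.q (s + (v + g)) (E.N (p a)) = 0 := by
        rw [E.link.symm, map_add, hs1, ad]
      obtain ⟨f, hf⟩ := hRGN V B L C E hE p τ hp hτ _ a h7 h8
      have h9 : E.N (p a) = 0 := by rw [hf]; exact hLM1 V B L C E hE p hp f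
      have h10 : E.q (E.N (p w0)) u1 = 0 := by
        rw [hVx u1 hu, ← h, h2, h9, map_zero, LinearMap.zero_apply]
      exact (hEX3 V B L C E hE p τ w0 hp hτ hw ⟨vt, hvt1⟩).2 u1 hut h10
    have hsum : Φ v = Φ v1 + Φ (v1 + v) := by
      rw [map_add, ← add_assoc, ad, zero_add]
    rcases h1 v1 hv1P hv1t with h | h <;> rcases h1 _ hvP hvt2 with h' | h'
    · left; rw [hsum, h, h', add_zero]
    · exact (hbad _ hvP hvt2 (by rw [hsum, h, h', zero_add])).elim
    · exact (hbad _ hv1P hv1t (by rw [hsum, h, h', add_zero])).elim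
    · right; rw [hsum, h, h', map_add, ← add_assoc, ad, zero_add]
  obtain ⟨l, hl⟩ := hLSC V B
    { carrier := {v | VP E p v}
      add_mem' := by
        intro a b ha hb
        show p (E.res (a + b)) = E.res (a + b)
        have e1 : p (E.res a) = E.res a := ha
        have e2 : p (E.res b) = E.res b := hb
        rw [map_add, map_add, e1, e2]
      zero_mem' := by show p (E.res 0) = E.res 0; rw [map_zero, map_zero]
      smul_mem' := by
        intro c a ha
        show p (E.res (c • a)) = E.res (c • a)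
        have e1 : p (E.res a) = E.res a := ha
        rw [map_smul, map_smul, e1] } Φ (E.q E.x) (by
      intro v hv
      rcases zm (τ (E.res v)) with h | h
      · exact h0 v hv h
      · exact h1 v hv h)
  exact ⟨l, fun v hv => hl v hv⟩

end Pool.Agent.DQX
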