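import Pool.Agent.DQX.Stmts

/-!
DQX, module FE1: the factors of `F`, extension type, first case.
-/

set_option autoImplicit false

namespace Pool.Agent.DQX

open CommonSlot

theorem fe1_proof (hXID : Stmt_XID) (hRIG : Stmt_RIG) (hSPX : Stmt_SPX) (hSPY : Stmt_SPY)
    (hEX1 : Stmt_EX1) : Stmt_FE1 := by
  intro V B L C _ _ _ _ _ _ _ _ E hR P p τ w0 hF hw0 hE hB hτ
  obtain ⟨hpe, -, hres, -, hx0⟩ := hEX1 V B L C E hR p τ w0 hF.sf hE hw0 hτ
  have qxN : ∀ w, E.q E.x (E.N w) = 0 := by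
    intro w
    rw [← E.proj, E.resx, map_zero, LinearMap.zero_apply, map_zero]
  have hPx : P E.x = E.N (p w0) := by rw [← hw0, hF.NP]
  have hxp : ∀ v, E.q E.x (P v) = E.q (E.N (p w0)) (P v) := by
    intro v
    rw [← hPx, E.link.symm, hF.splP.cross, E.link.symm]
  have h1 : ∀ v, E.q E.x (P v) = 0 → P v = 0 ∨ P v = E.N (p w0) := by
    intro v hv
    obtain ⟨y, hy⟩ := E.norm _ hv
    have h2 : P v = E.N (p y) := by
      rw [← hF.NP, hy, hF.splP.idem]
    rw [h2]
    exact hB.fx y (hres y)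
  have h1' : ∀ v, E.q (E.N (p w0)) (P v) = 0 → P v = 0 ∨ P v = E.N (p w0) := by
    intro v hv
    apply h1
    rw [hxp, hv]
  have hPe : E.q E.x (P E.e) = 0 := by
    have hr : E.res (P E.e) = 0 := by rw [hF.resP, hpe]
    have hxx : E.q E.x E.x = 0 := by
      conv_lhs => rw [← hw0]
      rw [hw0]
      have := qxN w0
      rw [hw0] at this
      exact this
    rw [E.link.symm]
    exact (hXID V B L C E _ hr).1 _ hxx
  have hxpxp : E.q (E.N (p w0)) (E.N (p w0)) = 0 := by
    have hr : E.res (E.N (p w0)) = 0 := hres w0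
    exact (hXID V B L C E _ hr).1 _ (qxN _)
  have hPt : P (E.N (p w0)) = E.N (p w0) := by
    rw [← hPx, hF.splP.idem]
  have hex : ∃ v, E.q (E.N (p w0)) v ≠ 0 := by
    by_contra hc
    push Not at hc
    exact hx0 (hR.nd _ hc)
  rcases h1 E.e hPe with h0 | h0
  · right
    exact hRIG V B E.q E.e E.link P (E.N (p w0)) hF.splP h0 hPt hex h1'
  · have hne : P E.e ≠ 0 := by
      rw [h0]
      exact hx0
    have hself : E.q (P E.e) (P E.e) = 0 := by
      rw [h0]
      exact hxpxp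
    have hval : ∀ v, E.q (P E.e) (P v) = 0 → P v = 0 ∨ P v = P E.e := by
      rw [h0]
      exact h1'
    have hex' : ∃ v, E.q (P E.e) v ≠ 0 := by
      rw [h0]
      exact hex
    exact hSPY V B E.q E.e E.link P hF.splP hne hself hex' hval
      (hSPX V B E.q E.e E.link P hF.splP hne hself hval)

end Pool.Agent.DQX
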