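import Pool.Agent.DQX.Stmts

/-!
DQX, module FE2 (helper49): extension type, second case.
-/

set_option autoImplicit false

namespace Pool.Agent.DQX

open CommonSlot

namespace FE2_

variable {V B L C : Type} [AddCommGroup V] [Module (ZMod 2) V] [AddCommGroup B]
    [Module (ZMod 2) B] [AddCommGroup L] [Module (ZMod 2) L] [AddCommGroup C]
    [Module (ZMod 2) C]

theorem eq_of_add {M : Type} [AddCommGroup M] [Module (ZMod 2) M] {a b : M} (h : a + b = 0) :
    a = b := by
  have h1 := ZModModule.add_self b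
  calc a = a + (b + b) := by rw [h1, add_zero]
    _ = (a + b) + b := by abel
    _ = b := by rw [h, zero_add]

theorem zm2 (a : ZMod 2) : a = 0 ∨ a = 1 := by
  revert a; decide

/-- restriction of a component -/
theorem res_P {E : QX V B L C} {P p} (F : Fct E P p) (w0 : L) (hw : E.N w0 = E.x)
    (hB : BlkOK E w0 p) (hXID : Stmt_XID) (h : V) (h0 : E.res (P h) = 0) :
    P h = 0 ∨ P h = E.N (p w0) := by
  have h1 := (hXID V B L C E (P h) h0).1
  have h2 : E.q E.x E.x = 0 := by
    have h3 := E.proj E.x w0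
    rw [E.resx, map_zero, LinearMap.zero_apply, map_zero, hw] at h3
    exact h3.symm
  have h3 := h1 _ h2
  rw [E.link.symm] at h3
  obtain ⟨y, hy⟩ := E.norm _ h3
  have h4 : P h = E.N (p y) := by
    rw [← F.NP, hy, F.splP.idem]
  have h5 : E.res (E.N (p y)) = 0 := by rw [← h4, h0]
  rcases hB.fx y h5 with h6 | h6
  · exact Or.inl (by rw [h4, h6])
  · exact Or.inr (by rw [h4, h6])

end FE2_

open FE2_ in
theorem fe2_proof (hXID : Stmt_XID) (hRGD : Stmt_RGD) (hTYE : Stmt_TYE) (hEX0 : Stmt_EX0)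
    (hEX3 : Stmt_EX3) : Stmt_FE2 := by
  intro V B L C _ _ _ _ _ _ _ _ E hR P p τ w0 F hw hX hB hv
  obtain ⟨hx0, hx1⟩ := hEX3 V B L C E hR p τ w0 F.sf hX hw hv
  have hq2 : ∀ w, E.q E.x (E.N w) = 0 := by
    intro w
    have h3 := E.proj E.x w
    rw [E.resx, map_zero, LinearMap.zero_apply, map_zero] at h3
    exact h3.symm
  have hPx : P E.x = E.N (p w0) := by rw [← hw, F.NP]
  have hrx : E.res (E.N (p w0)) = 0 := by rw [← hPx, F.resP, E.resx, map_zero]
  have hτP : ∀ w, τ (E.res (P w)) = τ (E.res w) := by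
    intro w
    rw [F.resP, hX.tp]
  have hcr : ∀ a b, E.q (P a) b = E.q (P a) (P b) := F.splP.cross
  have hxP : ∀ v, E.q (E.N (p w0)) (P v) = E.q (E.N (p w0)) v := by
    intro v
    rw [← hPx, ← hcr]
  have hqx : ∀ v, E.q E.x (P v) = E.q (E.N (p w0)) v := by
    intro v
    rw [E.link.symm, hcr, hPx, E.link.symm, hxP]
  have hext : ∀ t h h1 h2, τ (E.res t) = 1 → τ (E.res h) = 0 → τ (E.res h1) = 0 →
      τ (E.res h2) = 0 → E.q (P t) (P h) = E.q (P h1) (P h2) → P h = 0 := by
    intro t h h1 h2 ht hh hh1 hh2 he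
    have e1 : E.q' (p (E.res t)) (p (E.res h)) = E.q' (p (E.res h1)) (p (E.res h2)) := by
      have := congrArg E.rs he
      rw [E.rsq, E.rsq, F.resP, F.resP, F.resP, F.resP] at this
      exact this
    have e2 := hX.ext _ _ _ _ ht hh hh1 hh2 e1
    rcases res_P F w0 hw hB hXID h (by rw [F.resP, e2]) with e3 | e3
    · exact e3
    exfalso
    rw [e3] at he
    have e4 : E.q (P h1) (P h2) = E.q (E.N (p w0)) (P t) := by rw [← he, E.link.symm]
    obtain ⟨s, hs1, hs2⟩ := E.link.link _ _ _ _ e4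
    have e5 : E.q (E.N (p w0)) (s + t) = 0 := by
      rw [map_add, hs2, e4, hxP]
      exact ZModModule.add_self _
    have e6 : E.q E.x (P (s + t)) = 0 := by rw [hqx, e5]
    obtain ⟨n, hn⟩ := E.norm _ e6
    have e7 : τ (E.res (s + t)) = 0 := by
      rw [← hτP]
      have e8 : P (s + t) = E.N (p n) := by rw [← F.NP, hn, F.splP.idem]
      rw [e8]
      exact hEX0 V B L C E hR p τ F.sf hX n
    have e8 : τ (E.res s) = 1 := by
      rw [map_add, map_add, ht] at e7
      exact eq_of_add e7
    have e9 : E.q (P h1 + E.N (p w0)) s = 0 := by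
      rw [map_add, LinearMap.add_apply, hs1, hs2]
      exact ZModModule.add_self _
    have e10 : E.q' (p (E.res h1)) (E.res s) = 0 := by
      have := congrArg E.rs e9
      rw [E.rsq, map_add, hrx, add_zero, map_zero, F.resP] at this
      exact this
    have e11 : E.q' (p (E.res s)) (p (E.res h1)) = 0 := by
      have := F.sf.spl.zero _ _ e10
      rw [F.sf.spl.idem] at this
      rw [E.link'.symm]
      exact this
    have e12 : p (E.res h1) = 0 := by
      rcases hRGD L C E.q' (E.res E.e) E.link' p τ F.sf.spl hX (E.res s) (E.res h1) e8 e11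
        with e13 | e13
      · exact e13
      · exfalso
        have e14 := congrArg τ e13
        rw [map_add, hX.tp, hX.tp, hX.tp, hh1, e8, hX.eta, add_zero] at e14
        exact zero_ne_one e14
    rcases res_P F w0 hw hB hXID h1 (by rw [F.resP, e12]) with e13 | e13
    · rw [e13, map_zero, LinearMap.zero_apply] at he
      apply hx1 t ht
      rw [← hxP, E.link.symm]
      exact he
    · rw [e13, hxP, hxP] at e4
      apply hx1 (h2 + t)
      · rw [map_add, map_add, hh2, ht, zero_add]
      · rw [map_add, e4]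
        exact ZModModule.add_self _
  by_cases hbig : ∃ h, τ (E.res h) = 0 ∧ P h ≠ 0 ∧ P h ≠ P E.e
  · right
    exact ⟨τ ∘ₗ E.res, hτP, hv, hX.eta, hext, hbig⟩
  · left
    have hb : ∀ h, τ (E.res h) = 0 → P h = 0 ∨ P h = P E.e := by
      intro h hh
      by_contra hc
      rw [not_or] at hc
      exact hbig ⟨h, hh, hc.1, hc.2⟩
    have hτx : τ (E.res E.x) = 0 := by rw [E.resx, map_zero]
    have hPe : P E.e = E.N (p w0) := by
      rcases hb E.x hτx with h | h
      · exact absurd (hPx.symm.trans h) hx0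
      · rw [← h, hPx]
    refine hTYE V B E.q E.e E.link P (τ ∘ₗ E.res) F.splP hτP hv hX.eta hext
      ⟨E.x, hτx, by rw [hPx]; exact hx0⟩ hb ?_
    rw [hPe]
    exact (hXID V B L C E _ hrx).1 _ (hq2 _)

end Pool.Agent.DQX
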