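import Pool.Agent.DQX.Stmts

/-!
Squad DQX, module FFR: free orbits.
-/

set_option autoImplicit false

namespace Pool.Agent.DQX

open CommonSlot

namespace FFR_

theorem add_self'' {V : Type} [AddCommGroup V] [Module (ZMod 2) V] (v : V) : v + v = 0 :=
  ZModModule.add_self v

variable {V B L C : Type} [AddCommGroup V] [Module (ZMod 2) V] [AddCommGroup B]
  [Module (ZMod 2) B] [AddCommGroup L] [Module (ZMod 2) L] [AddCommGroup C]
  [Module (ZMod 2) C] (E : QX V B L C)

theorem resN (w : L) : E.res (E.N w) = w + E.s w := by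
  rw [E.s_apply, ← add_assoc, add_self'', zero_add]

theorem surj' {p h : L →ₗ[ZMod 2] L} (hh : Fre E p h) (w : L) : h (E.res (E.N (h w))) = h w := by
  rw [resN, map_add, hh.conj, map_add, hh.hp, hh.spl.idem, hh.spl.idem, add_self'', add_zero]

theorem inj' (hEQP : Stmt_EQP) (hXID : Stmt_XID) (hR : E.Red) {P : V →ₗ[ZMod 2] V}
    {p h : L →ₗ[ZMod 2] L} (hP : Fct E P p) (hh : Fre E p h) (hPx : P E.x = 0) (v : V)
    (hv : h (E.res v) = 0) : P v = 0 := by
  have h1 : E.res (P v) = 0 := by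
    have h2 := hh.conj (E.res v)
    rw [hv, map_zero, E.s_apply, E.Nres, map_zero, add_zero, hv, add_zero] at h2
    rw [hP.resP, ← h2]
  apply hR.nd
  intro y
  obtain ⟨u, hu, -⟩ := (hXID V B L C E (P v) h1).2 y
  have h2 := hEQP V B E.q E.e E.link P hP.splP (P v) y E.x u hu.symm
  rw [hP.splP.idem, hPx, map_zero, LinearMap.zero_apply] at h2
  rw [hP.splP.cross, h2]

end FFR_

open FFR_

theorem ffr_proof (hEQP : Stmt_EQP) (hXID : Stmt_XID) : Stmt_FFR := by
  intro V B L C _ _ _ _ _ _ _ _ E hR P p h w0 hP hh hw0 hpw0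
  have hPx : P E.x = 0 := by rw [← hw0, hP.NP, hpw0]
  have hN : ∀ v, P v = E.N (h (E.res v)) := by
    intro v
    have h1 : P (v + E.N (h (E.res v))) = 0 := by
      apply inj' E hEQP hXID hR hP hh hPx
      rw [map_add, map_add, surj' E hh, add_self'']
    rw [map_add, hP.NP, hh.ph] at h1
    calc P v = P v + (E.N (h (E.res v)) + E.N (h (E.res v))) := by rw [add_self'', add_zero]
      _ = E.N (h (E.res v)) := by rw [← add_assoc, h1, zero_add]
  have hF : ∀ v u, E.q (P v) (P u) = E.cor (E.q' (h (E.res v)) (h (E.res u))) := by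
    intro v u
    rw [E.link.symm, hN v, ← E.proj, hP.resP, E.link'.symm, hh.spl.cross, hh.hp]
  refine ⟨⟨fun v => by rw [hP.resP, hh.hp], inj' E hEQP hXID hR hP hh hPx,
    fun w => ⟨_, surj' E hh w⟩, fun v u => ⟨fun h0 => ?_, fun h0 => ?_⟩⟩, hF⟩
  · have h1 := congrArg E.rs h0
    rw [E.rsq, map_zero, hP.resP, hP.resP] at h1
    have h2 := hh.spl.zero _ _ h1
    rwa [hh.hp, hh.hp] at h2
  · rw [hF, h0, map_zero]

end Pool.Agent.DQX
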