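import Pool.Agent.DQX.Stmts

/-!
FLO: local type.
-/

set_option autoImplicit false

namespace Pool.Agent.DQX

open CommonSlot

theorem flo_proof (hEQP : Stmt_EQP) (hLC1 : Stmt_LC1) (hLC2 : Stmt_LC2) (hLM1 : Stmt_LM1) :
    Stmt_FLO := by
  intro V B L C _ _ _ _ _ _ _ _ E hfin hE P p w0 hF hw0 hloc
  obtain ⟨hx, β, y0, hβ, -, hval⟩ := hLC1 V B L C E hE p w0 hF.sf hw0 hloc
  obtain ⟨h2, -⟩ := hLC2 V B L C E hfin hE p w0 hF.sf hw0 hloc
  have hPx : P E.x = E.N (p w0) := by rw [← hw0, hF.NP]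
  have hall : ∀ v u, E.q (P v) (P u) = 0 ∨ E.q (P v) (P u) = E.cor β := by
    intro v u
    have h3 : E.q' (E.res (P v)) (E.res (P u)) = 0 := by
      rw [hF.resP, hF.resP]
      exact h2 _ _ (hLM1 V B L C E hE p hF.sf v) (hLM1 V B L C E hE p hF.sf u)
    obtain ⟨ψ, hψ⟩ := E.kq _ _ h3
    have h4 := hEQP V B E.q E.e E.link P hF.splP _ _ _ _ hψ
    rw [hF.splP.idem, hF.splP.idem, hPx] at h4
    have h5 : E.q (E.N (p w0)) (P ψ) = E.cor (E.q' (p (E.res ψ)) (p w0)) := by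
      rw [E.link.symm, ← E.proj, hF.resP]
    rw [h4, h5]
    rcases hval (E.res ψ) w0 with h6 | h6
    · left; rw [h6, map_zero]
    · right; rw [h6]
  refine ⟨E.cor β, hβ, ?_, hall⟩
  -- `x_p ≠ 0`
  obtain ⟨u, hu⟩ : ∃ u, E.q (E.N (p w0)) u ≠ 0 := by
    by_contra hcon
    exact hx (hE.nd _ fun u => not_not.1 fun h => hcon ⟨u, h⟩)
  rw [← hPx, hF.splP.cross] at hu
  exact ⟨E.x, u, (hall E.x u).resolve_left hu⟩

end Pool.Agent.DQX
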