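import Pool.Agent.DQX.Stmts

/-! GRA: `ker N = res V`, and `res V` is graded. -/

set_option autoImplicit false

namespace Pool.Agent.DQX

open CommonSlot

namespace GRA_

section
variable {V B L C : Type} [AddCommGroup V] [Module (ZMod 2) V] [AddCommGroup B]
  [Module (ZMod 2) B] [AddCommGroup L] [Module (ZMod 2) L] [AddCommGroup C]
  [Module (ZMod 2) C]

theorem sf_id (E : QX V B L C) : SF E LinearMap.id where
  spl := { idem := fun _ => rfl, cross := fun _ _ => rfl, zero := fun _ _ h => h }
  comm := fun _ => rfl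

end

end GRA_

open GRA_ in
theorem gra_proof (hXID : Stmt_XID) (hLM1 : Stmt_LM1) (hIND : Stmt_IND) (hMGR : Stmt_MGR)
    (hHFX : Stmt_HFX) : Stmt_GRA := by
  intro V B L C _ _ _ _ _ _ _ _ E ι _ _ p w0 hred hw0 hdec hsf hok
  have hres : ∀ i, E.res (E.N (p i w0)) = 0 := by
    intro i
    rw [(hsf i).comm, hw0, E.resx, map_zero]
  have ha : ∀ m, E.N m = 0 → ∃ v, m = E.res v := by
    intro m hm
    obtain ⟨c0, hc0, -⟩ := hHFX V B L C E hred LinearMap.id w0 (sf_id E) hw0 m hm
    have hc0' : E.cor (E.q' w0 m) = E.q E.x c0 := hc0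
    set m' := m + E.res c0 with hm'
    have hNm' : E.N m' = 0 := by rw [hm', map_add, hm, E.Nres, add_zero]
    have hcor : E.cor (E.q' w0 m') = 0 := by
      rw [hm', map_add, map_add, hc0', E.link'.symm w0 (E.res c0), E.proj, hw0,
        E.link.symm c0 E.x, ZModModule.add_self]
    have hci : ∀ i, ∃ c, E.cor (E.q' w0 (p i m')) = E.q E.x c ∧
        E.q (E.N (p i w0)) c = E.q E.x c := fun i =>
      hHFX V B L C E hred (p i) w0 (hsf i) hw0 m' hNm'
    choose c hc1 hc2 using hci
    have hsum : E.q E.x (∑ i, c i) = 0 := by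
      rw [map_sum, Finset.sum_congr rfl fun i _ => (hc1 i).symm, ← map_sum, ← map_sum,
        hdec.sum, hcor]
    have hoff : ∀ i j, i ≠ j → E.q (E.N (p j w0)) (c i) = 0 := by
      intro i j hij
      have h1 : E.q (c i) (E.N (w0 + p i w0)) = 0 := by
        rw [map_add, map_add, hw0, E.link.symm (c i) E.x, E.link.symm (c i) (E.N (p i w0)),
          hc2, ZModModule.add_self]
      have h2 := hIND V B L C E hred (p j) (hsf j) (c i) (w0 + p i w0) h1
      rw [map_add, hdec.orth j i (Ne.symm hij), add_zero] at h2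
      rw [E.link.symm, h2]
    have hzero : ∀ j, E.q E.x (c j) = 0 := by
      intro j
      have h1 := (hXID V B L C E (E.N (p j w0)) (hres j)).1 _ hsum
      rw [map_sum, Finset.sum_eq_single j] at h1
      · rw [← hc2, h1]
      · intro i _ hi
        exact hoff i j hi
      · intro h
        exact absurd (Finset.mem_univ j) h
    have hz : ∀ j, ∃ z, p j m' = E.res (E.N (p j z)) := by
      intro j
      apply (hok j).hj
      · exact hMGR V B L C E hred (p j) (hsf j) m' hNm'
      · rw [hc1, hzero]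
    choose z hz using hz
    refine ⟨(∑ j, E.N (p j (z j))) + c0, ?_⟩
    rw [map_add, map_sum, Finset.sum_congr rfl fun j _ => (hz j).symm, hdec.sum, hm', add_assoc,
      ZModModule.add_self, add_zero]
  refine ⟨ha, ?_⟩
  intro i v
  obtain ⟨v', hv'⟩ := ha (p i (E.res v)) (hLM1 V B L C E hred (p i) (hsf i) v)
  exact ⟨v', hv'.symm⟩

end Pool.Agent.DQX
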