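import Pool.Agent.DQX.Stmts

/-!
DQX IDC: the components are indecomposable.
-/

set_option autoImplicit false

namespace Pool.Agent.DQX

open CommonSlot

theorem idc_proof (hRGD : Stmt_RGD) : Stmt_IDC := by
  intro V B _ _ _ _ q e hq hnd p hp htyp f hf hfp hpf
  have hself : ∀ v : V, v + v = 0 := ZModModule.add_self
  have hselfB : ∀ v : B, v + v = 0 := ZModModule.add_self
  -- `g = p + f`
  have hfg : ∀ y, f (p y + f y) = 0 := by
    intro y
    rw [map_add, hfp, hf.idem, hself]
  have hpg : ∀ y, p (p y + f y) = p y + f y := by
    intro y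
    rw [map_add, hp.idem, hpf]
  have hfgo : ∀ w y, q (f w) (p y + f y) = 0 := by
    intro w y
    rw [hf.cross, hfg, map_zero]
  have hgc : ∀ y y', q (p y + f y) y' = q (p y + f y) (p y' + f y') := by
    intro y y'
    have h1 : q (p y + f y) (f y') = 0 := by rw [hq.symm]; exact hfgo y' y
    rw [map_add (q (p y + f y)), h1, add_zero]
    have h2 := hp.cross (p y + f y) y'
    rw [hpg] at h2
    exact h2
  have hfixg : ∀ y, p y + f y = 0 → f y = p y := fun y h => (eq_of_add_eq_zero' h).symm
  rcases htyp with ⟨β, hβ, -, hval⟩ | ⟨τ, hE⟩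
  · -- local type
    by_contra hcon
    push Not at hcon
    obtain ⟨⟨w, hw⟩, ⟨y, hy⟩⟩ := hcon
    obtain ⟨w', hw'⟩ : ∃ w', q (f w) w' ≠ 0 := by
      by_contra h
      push Not at h
      exact hw (hnd _ h)
    obtain ⟨y', hy'⟩ : ∃ y', q (p y + f y) y' ≠ 0 := by
      by_contra h
      push Not at h
      exact hy (hfixg y (hnd _ h))
    have e1 : q (f w) (f w') = β := by
      rw [hf.cross] at hw'
      rcases hval (f w) (f w') with h | h
      · rw [hpf, hpf] at h
        exact absurd h hw'
      · rwa [hpf, hpf] at h
    have e2 : q (p y + f y) (p y' + f y') = β := by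
      rw [hgc] at hy'
      rcases hval (p y + f y) (p y' + f y') with h | h
      · rw [hpg, hpg] at h
        exact absurd h hy'
      · rwa [hpg, hpg] at h
    have e3 : q (f w + (p y + f y)) (f w' + (p y' + f y')) = 0 := by
      have e4 : q (p y + f y) (f w') = 0 := by rw [hq.symm]; exact hfgo w' y
      rw [map_add q, LinearMap.add_apply, map_add (q (f w)), map_add (q (p y + f y)), e1, e2, e4,
        hfgo, add_zero, zero_add, hselfB]
    have e5 := hf.zero _ _ e3
    rw [map_add f, hfg, add_zero, hf.idem, map_add f, hfg, add_zero, hf.idem, e1] at e5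
    exact hβ e5
  · -- extension type
    obtain ⟨t0, ht0⟩ := hE.ex
    obtain ⟨t, ht, htp⟩ : ∃ t, τ t = 1 ∧ p t = t :=
      ⟨p t0, by rw [hE.tp, ht0], hp.idem t0⟩
    have hte : τ (t + e) = 1 := by rw [map_add, ht, hE.eta, add_zero]
    have hpte : p (t + e) = t + p e := by rw [map_add, htp]
    have h10 : (1 : ZMod 2) ≠ 0 := one_ne_zero
    have hne : t + p e ≠ 0 := by
      intro h
      have := congrArg τ h
      rw [← hpte, hE.tp, hte, map_zero] at this
      exact h10 this
    have hne' : t ≠ 0 := by
      rintro rfl
      rw [map_zero] at ht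
      exact h10 ht.symm
    have R1 : ∀ y, p y = y → q t y = 0 → y = 0 ∨ y = t + p e := by
      intro y hy h
      have := hRGD V B q e hq p τ hp hE t y ht (by rw [htp, hy]; exact h)
      rwa [hy, htp] at this
    have R2 : ∀ y, p y = y → q (t + p e) y = 0 → y = 0 ∨ y = t := by
      intro y hy h
      have := hRGD V B q e hq p τ hp hE (t + e) y hte (by rw [hpte, hy]; exact h)
      rw [hy, hpte, add_assoc, hself, add_zero] at this
      exact this
    have hff : q (f t) (f t + f e) = 0 := by
      rw [map_add, hq.diag, ← hf.cross, hselfB]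
    have hfpe : f (t + p e) = f (t + e) := by rw [map_add, map_add, hfp]
    have A1 : f (t + e) = 0 ∨ f (t + e) = t + p e := by
      apply R1 _ (hpf _)
      rw [hq.symm, hf.cross, hq.symm, map_add]
      exact hff
    have A2 : f t = 0 ∨ f t = t := by
      apply R2 _ (hpf _)
      rw [hq.symm, hf.cross, map_add, hfp]
      exact hff
    have C1 : f t = t → ∀ y, p y + f y = 0 ∨ p y + f y = t + p e := by
      intro h y
      apply R1 _ (hpg y)
      have := hfgo t y
      rwa [h] at this
    have C2 : f (t + e) = t + p e → ∀ y, p y + f y = 0 ∨ p y + f y = t := by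
      intro h y
      apply R2 _ (hpg y)
      have := hfgo (t + e) y
      rwa [h] at this
    have C3 : f t = 0 → ∀ y, f y = 0 ∨ f y = t + p e := by
      intro h y
      apply R1 _ (hpf y)
      rw [hq.symm, hf.cross, h, map_zero]
    have C4 : f (t + e) = 0 → ∀ y, f y = 0 ∨ f y = t := by
      intro h y
      apply R2 _ (hpf y)
      rw [hq.symm, hf.cross, hfpe, h, map_zero]
    have hbig : ∀ y, p y = 0 ∨ p y = t ∨ p y = t + p e ∨ p y = p e → τ y = 0 →
        p y = 0 ∨ p y = p e := by
      intro y h hy
      rcases h with h | h | h | h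
      · exact Or.inl h
      · exfalso
        have := congrArg τ h
        rw [hE.tp, hy, ht] at this
        exact h10 this.symm
      · exfalso
        have := congrArg τ h
        rw [hE.tp, hy, ← hpte, hE.tp, hte] at this
        exact h10 this.symm
      · exact Or.inr h
    obtain ⟨h, hh, hh0, hhe⟩ := hE.big
    have hsum : ∀ y, p y = (p y + f y) + f y := fun y => by rw [add_assoc, hself, add_zero]
    have e6 : t + p e + t = p e := by
      rw [add_comm t, add_assoc, hself, add_zero]
    have e7 : t + (t + p e) = p e := by rw [← add_assoc, hself, zero_add]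
    rcases A2 with a2 | a2 <;> rcases A1 with a1 | a1
    · -- `f t = 0`, `f (t + e) = 0`
      left
      intro y
      rcases C3 a2 y with h5 | h5
      · exact h5
      · exfalso
        have h6 := hf.idem y
        rw [h5, hfpe, a1] at h6
        exact hne h6.symm
    · -- `f t = 0`, `f (t + e) = t + p e`
      exfalso
      rcases hbig h (by
        rw [hsum h]
        rcases C3 a2 h with h5 | h5 <;> rcases C2 a1 h with h6 | h6 <;> rw [h6, h5]
        · simp
        · simp
        · simp
        · right; right; right; rw [e7]) hh with h7 | h7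
      · exact hh0 h7
      · exact hhe h7
    · -- `f t = t`, `f (t + e) = 0`
      exfalso
      rcases hbig h (by
        rw [hsum h]
        rcases C4 a1 h with h5 | h5 <;> rcases C1 a2 h with h6 | h6 <;> rw [h6, h5]
        · simp
        · simp
        · simp
        · right; right; right; rw [e6]) hh with h7 | h7
      · exact hh0 h7
      · exact hhe h7
    · -- `f t = t`, `f (t + e) = t + p e`
      right
      intro y
      rcases C1 a2 y with h5 | h5
      · exact hfixg y h5
      · exfalso
        have h6 := hfg y
        rw [h5, hfpe, a1] at h6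
        exact hne h6

end Pool.Agent.DQX
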