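import Pool.Agent.DQX.Stmts

/-!
DQX, module LC1: stable factors of local type.
-/

set_option autoImplicit false

namespace Pool.Agent.DQX

open CommonSlot

theorem lc1_proof (hINX : Stmt_INX) (hLMZ : Stmt_LMZ) : Stmt_LC1 := by
  intro V B L C _ _ _ _ _ _ _ _ E hR p w0 hp hw0 hloc
  obtain ⟨β, hβ, ⟨w1, y1, hwy⟩, hval⟩ := hloc
  have hz : ∃ z, E.N (p z) ≠ 0 := by
    by_contra hcon
    push Not at hcon
    have h1 := hLMZ V B L C E hR p w0 hp hw0 hcon w1
    rw [h1, map_zero, LinearMap.zero_apply] at hwy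
    exact hβ hwy.symm
  obtain ⟨z, hz⟩ := hz
  have hv : ∃ v, E.q (E.N (p z)) v ≠ 0 := by
    by_contra hcon
    push Not at hcon
    exact hz (hR.nd _ hcon)
  obtain ⟨v, hv⟩ := hv
  have hcr : ∀ y, E.q' (E.res v) (p y) = E.q' (p (E.res v)) (p y) := by
    intro y
    rw [E.link'.symm, hp.spl.cross, E.link'.symm]
  have hc1 : E.cor (E.q' (p (E.res v)) (p z)) = E.q v (E.N (p z)) := by
    rw [← hcr, E.proj]
  have hb1 : E.q' (p (E.res v)) (p z) = β := by
    refine (hval _ _).resolve_left ?_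
    intro h
    rw [h, map_zero] at hc1
    apply hv
    rw [E.link.symm, ← hc1]
  rw [hb1] at hc1
  have hcβ : E.cor β ≠ 0 := by
    rw [hc1, E.link.symm]
    exact hv
  have hN0 : E.res (E.N (p (E.res v))) = 0 := by
    rw [hp.comm, E.Nres, map_zero, map_zero]
  have hb2 : E.q' (p (E.res v)) (p z + E.res (E.N (p z))) = β := by
    have h1 : p z + E.res (E.N (p z)) = p (z + E.res (E.N z)) := by
      rw [hp.comm, map_add]
    rw [h1]
    refine (hval _ _).resolve_left ?_
    rw [← h1]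
    intro h2
    have h3 := E.sq _ _ h2
    rw [hN0, add_zero, map_add E.N, E.Nres, add_zero, add_assoc, ZModModule.add_self, add_zero,
      hb1] at h3
    exact hβ h3
  have hrs : E.q' (E.res v) (E.res (E.N (p z))) = 0 := by
    rw [hp.comm, hcr, ← hp.comm]
    rw [map_add, hb1] at hb2
    exact (add_eq_left.1 hb2)
  obtain ⟨y0, hy0⟩ := E.kq _ _ hrs
  have hinx := hINX V B L C E hR p w0 hp hw0 z v y0 (by rw [E.link.symm, hy0])
  refine ⟨?_, β, y0, hcβ, by rw [hc1, hy0], hval⟩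
  intro h
  rw [h, map_zero, LinearMap.zero_apply, ← hy0, ← hc1] at hinx
  exact hcβ hinx.symm

end Pool.Agent.DQX
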