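import Pool.Agent.DQX.Stmts

/-!
DQX, module LC2: stable factors of local type.
-/

set_option autoImplicit false

namespace Pool.Agent.DQX

open CommonSlot

namespace LC2_

theorem eq_of_add {M : Type} [AddCommGroup M] [Module (ZMod 2) M] {a b : M} (h : a + b = 0) :
    a = b := by
  have h1 : b + b = 0 := ZModModule.add_self b
  have h2 : a + b = b + b := by rw [h, h1]
  exact add_right_cancel h2

theorem dual {L : Type} [AddCommGroup L] [Module (ZMod 2) L] [Finite L]
    (b : L →ₗ[ZMod 2] L →ₗ[ZMod 2] ZMod 2) (A : Submodule (ZMod 2) L) (m : L)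
    (h : ∀ z, (∀ a ∈ A, b a z = 0) → b m z = 0) : ∃ a ∈ A, b a = b m := by
  have h1 : b m ∈ Submodule.span (ZMod 2) (Set.range (fun a : A => b (a : L))) := by
    apply mem_span_of_iInf_ker_le_ker
    intro z hz
    rw [Submodule.mem_iInf] at hz
    exact h z (fun a ha => hz ⟨a, ha⟩)
  have h2 : Submodule.span (ZMod 2) (Set.range (fun a : A => b (a : L))) ≤ A.map b := by
    rw [Submodule.span_le]
    rintro _ ⟨a, rfl⟩
    exact ⟨a, a.2, rfl⟩
  obtain ⟨a, ha, h3⟩ := h2 h1
  exact ⟨a, ha, h3⟩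

theorem exists_functional {C : Type} [AddCommGroup C] [Module (ZMod 2) C] {β : C} (h : β ≠ 0) :
    ∃ φ : C →ₗ[ZMod 2] ZMod 2, φ β ≠ 0 := by
  by_contra hc
  push Not at hc
  exact h ((Module.forall_dual_apply_eq_zero_iff (ZMod 2) β).1 hc)

end LC2_

open LC2_ in
theorem lc2_proof (hRTM : Stmt_RTM) (_hLM1 : Stmt_LM1) (hLC1 : Stmt_LC1) : Stmt_LC2 := by
  intro V B L C _ _ _ _ _ _ _ _ E hL hR p w0 h hw0 hloc
  obtain ⟨-, β, y0, hβ, -, hv⟩ := hLC1 V B L C E hR p w0 h hw0 hloc
  have first : ∀ m m', E.N (p m) = 0 → E.N (p m') = 0 → E.q' (p m) (p m') = 0 := by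
    intro m m' h1 h2
    rcases hv m m' with h3 | h3
    · exact h3
    · have h4 := hRTM V B L C E _ _ h1 h2
      rw [h3] at h4
      exact absurd h4 hβ
  refine ⟨first, ?_⟩
  intro m hm
  have hβ0 : β ≠ 0 := by
    intro h0
    apply hβ
    rw [h0, map_zero]
  obtain ⟨φ, hφ⟩ := exists_functional hβ0
  have hφ0 : ∀ w y, φ (E.q' (p w) (p y)) = 0 → E.q' (p w) (p y) = 0 := by
    intro w y h1
    rcases hv w y with h2 | h2
    · exact h2
    · rw [h2] at h1
      exact absurd h1 hφ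
  obtain ⟨a, ⟨v, hav⟩, h1⟩ := dual ((E.q'.compl₁₂ p p).compr₂ φ) (LinearMap.range E.res) m (by
    intro z hz
    have hz' : ∀ v, E.q' (p (E.res v)) (p z) = 0 := by
      intro v
      apply hφ0
      exact hz (E.res v) ⟨v, rfl⟩
    have hN : E.N (p z) = 0 := by
      apply hR.nd
      intro v
      rw [E.link.symm, ← E.proj, E.link'.symm, h.spl.cross, E.link'.symm, hz' v, map_zero]
    have h2 := first m z hm hN
    change φ (E.q' (p m) (p z)) = 0
    rw [h2, map_zero])
  refine ⟨v, ?_⟩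
  have h3 : p (m + E.res v) = 0 := by
    apply hR.nd'
    intro y
    rw [h.spl.cross]
    apply hφ0
    have h4 := LinearMap.congr_fun h1 y
    change φ (E.q' (p a) (p y)) = φ (E.q' (p m) (p y)) at h4
    rw [hav, map_add, map_add, LinearMap.add_apply, map_add, h4]
    exact ZModModule.add_self _
  rw [map_add] at h3
  exact eq_of_add h3

end Pool.Agent.DQX
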