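import Pool.Agent.DQX.Stmts

set_option autoImplicit false

namespace Pool.Agent.DQX

open CommonSlot

namespace LC3_

theorem two {M : Type} [AddCommGroup M] [Module (ZMod 2) M] (a : M) : a + a = 0 :=
  ZModModule.add_self a

theorem eq_of_add {M : Type} [AddCommGroup M] [Module (ZMod 2) M] {a b : M} (h : a + b = 0) :
    a = b := by
  have : a + b + b = b := by rw [h, zero_add]
  rwa [add_assoc, two, add_zero] at this

/-- duality on a finite factor of local type -/
theorem dual {L C : Type} [AddCommGroup L] [Module (ZMod 2) L] [AddCommGroup C]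
    [Module (ZMod 2) C] [Finite L] (q' : L →ₗ[ZMod 2] L →ₗ[ZMod 2] C) (hnd : ND q')
    (p : L →ₗ[ZMod 2] L) (hp : Spl q' p) (β : C)
    (hβ : ∀ w y, q' (p w) (p y) = 0 ∨ q' (p w) (p y) = β) (I : Submodule (ZMod 2) L) (m : L)
    (hm : p m ∉ I) : ∃ y, (∀ i ∈ I, p i = i → q' (p y) i = 0) ∧ q' (p y) (p m) ≠ 0 := by
  classical
  have hpm0 : p m ≠ 0 := fun h => hm (by rw [h]; exact I.zero_mem)
  have hβ0 : β ≠ 0 := by
    rintro rfl
    apply hpm0
    refine hnd _ fun y => ?_
    rw [hp.cross]
    rcases hβ m y with h | h <;> exact h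
  obtain ⟨φ, hφ, -⟩ := Submodule.exists_le_ker_of_notMem
    (show β ∉ (⊥ : Submodule (ZMod 2) C) by rwa [Submodule.mem_bot])
  let R := LinearMap.range p
  have hfinR : Finite R := Subtype.finite
  have hmodR : Module.Finite (ZMod 2) R := Module.Finite.of_finite
  have hpR : ∀ a : R, p a = a := by
    rintro ⟨a, b, rfl⟩
    exact hp.idem b
  let bR : R →ₗ[ZMod 2] Module.Dual (ZMod 2) R := (q'.domRestrict₁₂ R R).compr₂ φ
  have hbR : ∀ a b : R, bR a b = φ (q' a b) := fun _ _ => rfl
  have hval : ∀ a b : R, bR a b = 0 → q' (a : L) b = 0 := by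
    intro a b h
    rw [hbR] at h
    have h1 := hβ a b
    rw [hpR, hpR] at h1
    rcases h1 with h1 | h1
    · exact h1
    · rw [h1] at h
      exact absurd h hφ
  have hinj : Function.Injective bR := by
    rw [← LinearMap.ker_eq_bot, LinearMap.ker_eq_bot']
    intro a ha
    apply Subtype.ext
    refine hnd _ fun y => ?_
    have h1 : q' (a : L) y = q' (a : L) (p y) := by
      conv_lhs => rw [← hpR a, hp.cross, hpR a]
    rw [h1]
    exact hval a ⟨p y, y, rfl⟩ (by rw [ha]; rfl)
  have hsurj : Function.Surjective bR :=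
    (LinearMap.injective_iff_surjective_of_finrank_eq_finrank
      (Subspace.dual_finrank_eq).symm).1 hinj
  obtain ⟨f, hf, hfI⟩ := Submodule.exists_le_ker_of_notMem
    (show (⟨p m, m, rfl⟩ : R) ∉ I.comap R.subtype from hm)
  obtain ⟨y, hy⟩ := hsurj f
  refine ⟨y, ?_, ?_⟩
  · intro i hi hpi
    rw [hpR]
    refine hval y ⟨i, i, hpi⟩ ?_
    rw [hy]
    exact hfI (show (⟨i, i, hpi⟩ : R) ∈ I.comap R.subtype from hi)
  · rw [hpR]
    intro h
    apply hf
    rw [← hy, hbR]
    show φ (q' (y : L) (p m)) = 0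
    rw [h, map_zero]

end LC3_

open LC3_ in
theorem lc3_proof (hXID : Stmt_XID) (hLC1 : Stmt_LC1) (hLC2 : Stmt_LC2) (hLSC : Stmt_LSC) :
    Stmt_LC3 := by
  intro V B L C _ _ _ _ _ _ _ _ E hfin hRed p w0 hSF hw0 hLoc
  obtain ⟨hx0, β, y0, hcβ, hcy0, hβ⟩ := hLC1 V B L C E hRed p w0 hSF hw0 hLoc
  obtain ⟨hiso, -⟩ := hLC2 V B L C E hfin hRed p w0 hSF hw0 hLoc
  have hsy := E.link.symm
  have hsy' := E.link'.symm
  have hcr := hSF.spl.cross
  have hcomm := hSF.comm
  have hcr' : ∀ a b, E.q' a (p b) = E.q' (p a) (p b) := by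
    intro a b
    rw [hsy' a, hcr, hsy']
  -- the values
  have hqN : ∀ v z, E.q (E.N (p z)) v = E.cor (E.q' (p z) (p (E.res v))) := by
    intro v z
    rw [hsy, ← E.proj, hsy', hcr]
  have hqN' : ∀ v z, E.q (E.N (p z)) v = 0 ∨ E.q (E.N (p z)) v = E.cor β := by
    intro v z
    rw [hqN]
    rcases hβ z (E.res v) with h | h
    · left; rw [h, map_zero]
    · right; rw [h]
  have hresx : E.res (E.N (p w0)) = 0 := by
    rw [hcomm, hw0, E.resx, map_zero]
  -- every non zero `N (p z)` in the kernel of `res`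
  have hker : ∀ z, E.res (E.N (p z)) = 0 → E.N (p z) ≠ 0 → ∀ u', E.q E.x u' = E.cor β →
      E.q (E.N (p z)) u' = E.cor β := by
    intro z hz hz0 u' hu'
    obtain ⟨hX1, hX2⟩ := hXID V B L C E (E.N (p z)) hz
    obtain ⟨v, hv⟩ : ∃ v, E.q (E.N (p z)) v ≠ 0 := by
      by_contra hcon
      push Not at hcon
      exact hz0 (hRed.nd _ hcon)
    obtain ⟨u, hu1, hu2⟩ := hX2 v
    rw [(hqN' v z).resolve_left hv] at hu1 hu2
    have h1 := hX1 (u + u') (by rw [map_add, hu1, hu']; exact two _)
    rw [map_add, hu2] at h1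
    exact (eq_of_add h1).symm
  have hfx : ∀ y, E.res (E.N (p y)) = 0 → E.N (p y) = 0 ∨ E.N (p y) = E.N (p w0) := by
    intro y hy
    by_contra hcon
    rw [not_or] at hcon
    obtain ⟨h1, h2⟩ := hcon
    have h3 : E.N (p (y + w0)) ≠ 0 := by
      rw [map_add, map_add]
      exact fun h => h2 (eq_of_add h)
    have h4 : E.res (E.N (p (y + w0))) = 0 := by
      rw [map_add, map_add, map_add, hy, hresx, add_zero]
    have h5 := hker y hy h1 y0 hcy0.symm
    have h6 := hker w0 hresx hx0 y0 hcy0.symm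
    have h7 := hker (y + w0) h4 h3 y0 hcy0.symm
    rw [map_add, map_add, map_add, LinearMap.add_apply, h5, h6, two] at h7
    exact hcβ h7.symm
  -- the conjugation
  have hss : ∀ w, E.s (E.s w) = w := by
    intro w
    rw [E.s_apply, E.s_apply, map_add, E.Nres, add_zero, add_assoc, two, add_zero]
  have hsp : ∀ w, E.s (p w) = p (E.s w) := by
    intro w
    rw [E.s_apply, E.s_apply, map_add, hcomm]
  have hsq : ∀ w y, E.q' w (E.s y) = 0 ↔ E.q' (E.s w) y = 0 := by
    intro w y
    constructor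
    · intro h
      have := E.sq _ _ h
      rw [← E.s_apply, ← E.s_apply, hss] at this
      exact this
    · intro h
      have := E.sq _ _ h
      rw [← E.s_apply, ← E.s_apply, hss] at this
      exact this
  refine ⟨?_, hfx, ?_⟩
  · intro m hm hcm
    by_contra hcon
    have hI : p m ∉ LinearMap.range (E.res ∘ₗ E.N ∘ₗ p) := by
      rintro ⟨z, hz⟩
      exact hcon ⟨z, hz.symm⟩
    obtain ⟨y, hy1, hy2⟩ := dual E.q' hRed.nd' p hSF.spl β hβ _ m hI
    have hyI : ∀ z, E.q' (p y) (E.res (E.N (p z))) = 0 := by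
      intro z
      refine hy1 _ ⟨z, rfl⟩ ?_
      rw [hcomm, hSF.spl.idem]
    have hzero : E.res (E.N (p y)) = 0 := by
      refine hRed.nd' _ fun b => ?_
      -- `q' (p y) b = q' (p y) (s b)`
      have h1 : E.q' (p y) b = E.q' (p y) (E.s b) := by
        refine eq_of_add ?_
        rw [← map_add, hcr]
        have h2 : b + E.s b = E.res (E.N b) := by
          rw [E.s_apply, ← add_assoc, two, zero_add]
        rw [h2, ← hcomm]
        exact hyI b
      have h3 := hsq (p y) b
      have h4 := hβ y b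
      rw [← hcr] at h4
      have h5 := hβ (E.s y) b
      rw [← hcr, ← hsp] at h5
      have h6 : E.q' (E.s (p y)) b = E.q' (p y) b + E.q' (E.res (E.N (p y))) b := by
        rw [E.s_apply, map_add, LinearMap.add_apply]
      rw [← h1] at h3
      have h7 : E.q' (E.s (p y)) b = E.q' (p y) b := by
        rcases h4 with h4 | h4
        · rw [h4]
          exact h3.1 h4
        · rcases h5 with h5 | h5
          · rw [h5]
            exact (h3.2 h5).symm
          · rw [h4, h5]
      rw [h7] at h6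
      have h8 : E.q' (p y) b + 0 = E.q' (p y) b + E.q' (E.res (E.N (p y))) b := by
        rw [add_zero]; exact h6
      exact (add_left_cancel h8).symm
    rcases hfx y hzero with h | h
    · exact hy2 (hiso y m h hm)
    · have h1 : E.N (p (y + w0)) = 0 := by
        rw [map_add, map_add, h]; exact two _
      have h2 := hiso (y + w0) m h1 hm
      rw [map_add, map_add, LinearMap.add_apply] at h2
      have h3 := eq_of_add h2
      apply hy2
      rw [h3]
      rw [hcr'] at hcm
      rcases hβ w0 m with h4 | h4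
      · exact h4
      · rw [h4] at hcm
        exact absurd hcm hcβ
  · intro _ _ Φ hΦ1 hΦ2
    let W : Submodule (ZMod 2) V := LinearMap.eqLocus (p ∘ₗ E.res) E.res
    have hW : ∀ v, v ∈ W ↔ VP E p v := fun v => Iff.rfl
    obtain ⟨l, hl⟩ := hLSC V B W Φ (E.q E.x) (by
      intro v hv
      have hv' : p (E.res v) = E.res v := hv
      have h1 : E.q E.x v = 0 ∨ E.q E.x v = E.cor β := by
        rw [hsy, ← hw0, ← E.proj, ← hv', hcr]
        rcases hβ (E.res v) w0 with h | h
        · left; rw [h, map_zero]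
        · right; rw [h]
      rcases h1 with h1 | h1
      · left
        exact hΦ1 v hv h1
      · obtain ⟨a, g, -, h2, -⟩ := hΦ2 v hv
        rw [h1, h2]
        exact hqN' _ _)
    exact ⟨l, fun v hv => hl v hv⟩

end Pool.Agent.DQX
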