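import Pool.Agent.DQX.Stmts

/-!
DQX, module LEA.
-/

set_option autoImplicit false

namespace Pool.Agent.DQX

open CommonSlot

theorem lea_proof (hXID : Stmt_XID) (hIND : Stmt_IND) (hINX : Stmt_INX) : Stmt_LEA := by
  intro V B L C _ _ _ _ _ _ _ _ E ι _ _ p w0 hR hw0 hD hS hB i j k v z ψ hv hz h hki hkj
  have hxk : E.res (E.N (p k w0)) = 0 := by
    rw [(hS k).comm, hw0, E.resx, map_zero]
  -- orthogonality
  have hort : ∀ (j : ι) (z : V), VP E (p j) z → k ≠ j → E.q (E.N (p k w0)) z = 0 := by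
    intro j z hz hkj
    rw [E.link.symm, ← E.proj, ← hz, (hS j).spl.cross, hD.orth j k hkj.symm, map_zero, map_zero]
  have e1 : E.q (v + E.N (p k w0)) z = E.q E.x ψ := by
    rw [map_add, LinearMap.add_apply, h, hort j z hz hkj, add_zero]
  obtain ⟨s, s1, s2⟩ := E.link.link v z E.x ψ h
  obtain ⟨s', t1, t2⟩ := E.link.link (v + E.N (p k w0)) z E.x ψ e1
  have hn : E.q E.x (s + s') = 0 := by
    rw [map_add, s2, t2, e1, h, ZModModule.add_self]
  obtain ⟨n', hn'⟩ := E.norm _ hn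
  have e2 : E.q v (s + s') = E.q (E.N (p k w0)) s' := by
    have t3 : E.q v s' + E.q (E.N (p k w0)) s' = E.q E.x ψ := by
      rw [e1, map_add, LinearMap.add_apply] at t1
      exact t1
    rw [map_add, s1, h, ← t3]
    rw [add_comm (E.q v s'), add_assoc, ZModModule.add_self, add_zero]
  have e3 : E.q (E.N (p k w0)) s' = E.q (E.N (p k w0)) ψ := by
    have h1 : E.q E.x (s' + ψ) = 0 := by
      rw [map_add, t2, e1, ZModModule.add_self]
    have h2 := (hXID V B L C E _ hxk).1 _ h1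
    rw [map_add] at h2
    calc E.q (E.N (p k w0)) s' = E.q (E.N (p k w0)) s' +
        (E.q (E.N (p k w0)) ψ + E.q (E.N (p k w0)) ψ) := by rw [ZModModule.add_self, add_zero]
      _ = E.q (E.N (p k w0)) ψ := by rw [← add_assoc, h2, zero_add]
  have e4 : E.q (E.N (p i n')) v = E.q (E.N (p k w0)) ψ := by
    rw [← e3, ← e2, ← hn', ← E.proj, E.link.symm, ← E.proj]
    rw [← hv, ← (hS i).spl.cross]
  obtain ⟨u, u1, u2⟩ := (hXID V B L C E _ hxk).2 ψ
  have e5 := hINX V B L C E hR (p i) w0 (hS i) hw0 n' v u (by rw [e4, u1])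
  have e6 : E.q u (E.N (p i (w0 + p k w0))) = 0 := by
    apply hIND V B L C E hR (p i) (hS i)
    rw [map_add E.N, hw0, map_add (E.q u), E.link.symm u E.x, E.link.symm u (E.N (p k w0)), u1, u2,
      ZModModule.add_self]
  rw [map_add, hD.orth i k hki.symm, add_zero, E.link.symm, e5, u1] at e6
  exact e6

end Pool.Agent.DQX
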