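import Pool.Agent.DQX.Stmts

set_option autoImplicit false

namespace Pool.Agent.DQX

open CommonSlot

namespace LEB_

variable {V B L C : Type} [AddCommGroup V] [Module (ZMod 2) V] [AddCommGroup B]
    [Module (ZMod 2) B] [AddCommGroup L] [Module (ZMod 2) L] [AddCommGroup C]
    [Module (ZMod 2) C] (E : QX V B L C)

theorem qN {p : L →ₗ[ZMod 2] L} (hp : Spl E.q' p) (z : L) (v : V) :
    E.q v (E.N (p z)) = E.cor (E.q' (p (E.res v)) (p z)) := by
  rw [← E.proj, E.link'.symm (E.res v) (p z), hp.cross, E.link'.symm]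

/-- `q x v = q x_p v` for `v` in the part of `p` -/
theorem fact1 {p : L →ₗ[ZMod 2] L} (hp : Spl E.q' p) {w0 : L} (hw0 : E.N w0 = E.x) {v : V}
    (hv : VP E p v) : E.q (E.N (p w0)) v = E.q E.x v := by
  have h1 : E.q v E.x = E.cor (E.q' (p (E.res v)) (p w0)) := by
    rw [← hw0, ← E.proj]
    conv_lhs => rw [← hv]
    rw [hp.cross]
  rw [E.link.symm (E.N (p w0)) v, qN E hp, ← h1, E.link.symm]

section dec
variable {ι : Type} [Fintype ι] {p : ι → (L →ₗ[ZMod 2] L)} (hD : Dec E.q' ι p)
include hD

/-- orthogonality of different parts -/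
theorem fact2 {i k : ι} (hik : i ≠ k) {v : V} (hv : VP E (p i) v) (z : L) :
    E.q v (E.N (p k z)) = 0 := by
  rw [← E.proj, ← hv, (hD.spl i).cross, hD.orth i k hik, map_zero, map_zero]

end dec

end LEB_

open LEB_ in
theorem leb_proof (hSAT : Stmt_SAT) (_hXID : Stmt_XID) (hIND : Stmt_IND) (hINX : Stmt_INX)
    (hVPN : Stmt_VPN) : Stmt_LEB := by
  intro V B L C _ _ _ _ _ _ _ _ E ι _ _ p w0 hR hw0 hD hSF hB i j hij z hz g hg
  have hxj : ∀ k, k ≠ j → E.q (E.N (p k w0)) z = 0 := by
    intro k hk
    rw [E.link.symm]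
    exact fact2 E hD (Ne.symm hk) hz w0
  constructor
  · intro v hv hxv
    obtain ⟨y, c, hci, hvc⟩ := hVPN V B L C E ι p w0 hR hw0 hD hSF hB i v hv hxv
    have h1 : E.q v z = c j • E.q E.x z := by
      conv_lhs => rw [hvc]
      rw [map_add, LinearMap.add_apply, map_sum, LinearMap.sum_apply, E.link.symm _ z,
        fact2 E hD (Ne.symm hij) hz y, zero_add, Finset.sum_eq_single j]
      · rw [map_smul, LinearMap.smul_apply, fact1 E (hD.spl j) hw0 hz]
      · intro k _ hk
        rw [map_smul, LinearMap.smul_apply, hxj k hk, smul_zero]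
      · intro h
        exact absurd (Finset.mem_univ j) h
    rw [h1, map_smul, hg, hxj i hij, smul_zero]
  · intro v hv
    -- killing lemma
    have kill : ∀ k a w, E.q' (E.res (E.N (p k a))) (p k (E.res w)) = 0 →
        (k = i → g (E.q (E.N (p k a)) w) = E.q (E.N (p k a)) w) ∧
        (k ≠ i → g (E.q (E.N (p k a)) w) = 0) := by
      intro k a w h0
      have h1 : E.q' (E.res (E.N (p k a))) (E.res w) = 0 := by
        rw [(hSF k).comm, (hD.spl k).cross, ← (hSF k).comm, h0]
      obtain ⟨u, hu⟩ := E.kq _ _ h1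
      have h2 := hINX V B L C E hR (p k) w0 (hSF k) hw0 a w u hu
      constructor
      · rintro rfl
        rw [hu, hg, h2]
      · intro hki
        rw [hu, hg]
        have h3 : E.q u (E.N (w0 + p k w0)) = 0 := by
          rw [map_add, hw0, map_add, E.link.symm u E.x, E.link.symm u (E.N (p k w0)), h2,
            ZModModule.add_self]
        have h4 := hIND V B L C E hR (p i) (hSF i) u _ h3
        rw [map_add, hD.orth i k (Ne.symm hki), add_zero] at h4
        rw [E.link.symm]
        exact h4
    have hSAT' := hSAT V B E.q E.e E.link E.x v (E.N (p i w0)) v z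
      (fact1 E (hD.spl i) hw0 hv).symm (hxj i hij)
    obtain ⟨a', g', ha', hg', hag⟩ := hSAT'
    obtain ⟨a, rfl⟩ := E.norm a' ha'
    obtain ⟨b, rfl⟩ := E.norm g' hg'
    have hrs : E.q' (E.res (z + E.N a)) (E.res (v + E.N b)) = 0 := by
      rw [← E.rsq, hag, map_zero]
    -- the components
    have hpz : ∀ k, k ≠ j → p k (E.res z) = 0 := by
      intro k hk
      rw [← hz, hD.orth k j hk]
    have hpv : ∀ k, k ≠ i → p k (E.res v) = 0 := by
      intro k hk
      rw [← hv, hD.orth k i hk]
    have hTk : ∀ k, k ≠ j → E.q' (E.res (E.N (p k a))) (p k (E.res (v + E.N b))) = 0 := by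
      intro k hk
      have h1 := (hD.spl k).zero _ _ hrs
      rw [map_add E.res z, map_add (p k), hpz k hk, zero_add, ← (hSF k).comm] at h1
      exact h1
    have hTj : E.q' (E.res (E.N (p j b))) (p j (E.res (z + E.N a))) = 0 := by
      have h1 := (hD.spl j).zero _ _ hrs
      rw [map_add E.res v, map_add (p j) (E.res v), hpv j (Ne.symm hij), zero_add,
        ← (hSF j).comm, E.link'.symm] at h1
      exact h1
    refine ⟨a, E.N b, hg', ?_, hTk i hij⟩
    -- expansion
    have hsum : ∀ w : L, E.N w = ∑ k, E.N (p k w) := by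
      intro w
      rw [← map_sum, hD.sum]
    have hVPN' : ∀ k w, VP E (p k) (E.N (p k w)) := by
      intro k w
      unfold VP
      rw [(hSF k).comm, (hD.spl k).idem]
    have e1 : E.q z (E.N b) = E.q z (E.N (p j b)) := by
      conv_lhs => rw [hsum b]
      rw [map_sum, Finset.sum_eq_single j]
      · intro k _ hk
        exact fact2 E hD (Ne.symm hk) hz b
      · intro h
        exact absurd (Finset.mem_univ j) h
    have e2 : E.q (E.N (p j a)) (E.N b) = E.q (E.N (p j a)) (E.N (p j b)) := by
      conv_lhs => rw [hsum b]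
      rw [map_sum, Finset.sum_eq_single j]
      · intro k _ hk
        exact fact2 E hD (Ne.symm hk) (hVPN' j a) b
      · intro h
        exact absurd (Finset.mem_univ j) h
    have e3 : E.q (E.N (p j b)) (E.N a) = E.q (E.N (p j a)) (E.N (p j b)) := by
      conv_lhs => rw [hsum a]
      rw [map_sum, Finset.sum_eq_single j, E.link.symm]
      · intro k _ hk
        exact fact2 E hD (Ne.symm hk) (hVPN' j b) a
      · intro h
        exact absurd (Finset.mem_univ j) h
    have e4 : E.q (E.N (p j a)) v = 0 := by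
      rw [E.link.symm]
      exact fact2 E hD hij hv a
    have e5 : E.q (E.N a) (v + E.N b) = ∑ k, E.q (E.N (p k a)) (v + E.N b) := by
      conv_lhs => rw [hsum a]
      rw [map_sum, LinearMap.sum_apply]
    have e6 : E.q v z = ∑ k ∈ Finset.univ.erase j, E.q (E.N (p k a)) (v + E.N b) +
        E.q (E.N (p j b)) (z + E.N a) := by
      have h1 : ∑ k ∈ Finset.univ.erase j, E.q (E.N (p k a)) (v + E.N b) =
          E.q (E.N a) (v + E.N b) + E.q (E.N (p j a)) (v + E.N b) := by
        rw [e5, ← Finset.add_sum_erase Finset.univ _ (Finset.mem_univ j)]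
        have h7 : ∀ s t : B, t = s + t + s := by
          intro s t
          have : s + t + s = t + (s + s) := by abel
          rw [this, ZModModule.add_self, add_zero]
        exact h7 _ _
      have h2 : E.q (E.N (p j a)) (v + E.N b) = E.q (E.N (p j a)) (E.N (p j b)) := by
        rw [map_add, e4, zero_add, e2]
      have h3 : E.q (E.N (p j b)) (z + E.N a) =
          E.q z (E.N b) + E.q (E.N (p j a)) (E.N (p j b)) := by
        rw [map_add, e3, E.link.symm _ z, e1]
      have h4 : E.q (z + E.N a) (v + E.N b) =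
          E.q v z + E.q z (E.N b) + E.q (E.N a) (v + E.N b) := by
        rw [map_add E.q z, LinearMap.add_apply, map_add (E.q z), E.link.symm z v]
      rw [h1, h2, h3]
      rw [h4] at hag
      have h5 : E.q v z = E.q z (E.N b) + E.q (E.N a) (v + E.N b) := by
        apply eq_of_add_eq_zero'
        rw [← add_assoc]
        exact hag
      rw [h5]
      have h6 : ∀ s t u : B, s + t = t + u + (s + u) := by
        intro s t u
        have : t + u + (s + u) = s + t + (u + u) := by abel
        rw [this, ZModModule.add_self, add_zero]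
      exact h6 _ _ _
    rw [e6, map_add, map_sum, (kill j b (z + E.N a) hTj).2 (Ne.symm hij), add_zero,
      Finset.sum_eq_single i]
    · exact (kill i a (v + E.N b) (hTk i hij)).1 rfl
    · intro k hk hki
      exact (kill k a (v + E.N b) (hTk k (Finset.ne_of_mem_erase hk))).2 hki
    · intro h
      exact absurd (Finset.mem_erase.2 ⟨hij, Finset.mem_univ i⟩) h

end Pool.Agent.DQX
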