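import Pool.Agent.DQX.Stmts

/-!
DQX, module LEX.
-/

set_option autoImplicit false

namespace Pool.Agent.DQX

open CommonSlot

theorem lex_proof : Stmt_LEX := by
  intro V B _ _ _ _ f g h
  obtain ⟨s0, hs0⟩ := (f.rangeRestrict).exists_rightInverse_of_surjective
    (LinearMap.range_rangeRestrict _)
  obtain ⟨s, hs⟩ := LinearMap.exists_extend s0
  refine ⟨g.comp s, fun v => ?_⟩
  have h1 : s (f v) = s0 (f.rangeRestrict v) := by rw [← hs]; rfl
  have h2 : f (s (f v)) = f v := by
    rw [h1]
    exact congrArg Subtype.val (LinearMap.congr_fun hs0 (f.rangeRestrict v))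
  have h3 : g (s (f v) + v) = 0 := h _ (by rw [map_add, h2, ZModModule.add_self])
  rw [map_add] at h3
  rw [LinearMap.comp_apply, ← add_zero (g (s (f v))), ← ZModModule.add_self (g v), ← add_assoc,
    h3, zero_add]

end Pool.Agent.DQX
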