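import Pool.Agent.DQX.Stmts

/-!
DQX, module LM1 (the key trick): `N (p (res v)) = 0` for a stable factor `p`.
-/

set_option autoImplicit false

namespace Pool.Agent.DQX

open CommonSlot

namespace LM1_

section
variable {V B L C : Type} [AddCommGroup V] [Module (ZMod 2) V] [AddCommGroup B]
    [Module (ZMod 2) B] [AddCommGroup L] [Module (ZMod 2) L] [AddCommGroup C]
    [Module (ZMod 2) C] (E : QX V B L C)

theorem eq_of_add {M : Type} [AddCommGroup M] [Module (ZMod 2) M] {a b : M} (h : a + b = 0) :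
    a = b := by
  have h1 : b + b = 0 := ZModModule.add_self b
  have h2 : a + b = b + b := by rw [h, h1]
  exact add_right_cancel h2

theorem qxN (w : L) : E.q E.x (E.N w) = 0 := by
  rw [← E.proj, E.resx]
  simp

variable {E} {p : L →ₗ[ZMod 2] L}

theorem resn (h : SF E p) (a : V) : E.res (E.N (p (E.res a))) = 0 := by
  rw [h.comm, E.Nres]
  simp

theorem qn (h : SF E p) (a b : V) :
    E.q (E.N (p (E.res a))) b = E.cor (E.q' (p (E.res a)) (p (E.res b))) := by
  rw [E.link.symm, ← E.proj, E.link'.symm, h.spl.cross]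

theorem qn_symm (h : SF E p) (a b : V) :
    E.q (E.N (p (E.res a))) b = E.q (E.N (p (E.res b))) a := by
  rw [qn h, qn h, E.link'.symm]

end

end LM1_

open LM1_ in
theorem lm1_proof (hXID : Stmt_XID) : Stmt_LM1 := by
  intro V B L C _ _ _ _ _ _ _ _ E hR p h v
  have self0 : ∀ a, E.q (E.N (p (E.res a))) a = 0 := by
    intro a
    have h1 : E.q (E.N (p (E.res a))) a = E.q (E.N (p (E.res a))) E.e := by
      rw [qn h, E.link'.diag]
      rw [E.link.symm, ← E.proj, E.link'.symm]
    rw [h1, ← E.link.diag]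
    exact (hXID V B L C E _ (resn h a)).1 _ (qxN E _)
  have key : ∀ a b, E.q (E.N (p (E.res a))) b = 0 := by
    intro a b
    obtain ⟨c, hc1, hc2⟩ := (hXID V B L C E _ (resn h a)).2 b
    obtain ⟨u, hu1, hu2⟩ := (hXID V B L C E _ (resn h c)).2 a
    have h1 : E.q (E.N (p (E.res c))) a = E.q (E.N (p (E.res a))) b := by
      rw [qn_symm h, hc2]
    have h2 : E.q E.x (u + c) = 0 := by
      rw [map_add, hu1, hc1, h1]
      exact ZModModule.add_self _
    have h3 := (hXID V B L C E _ (resn h c)).1 _ h2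
    rw [map_add, self0 c, add_zero, hu2, h1] at h3
    exact h3
  exact hR.nd _ (key v)

end Pool.Agent.DQX
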