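import Pool.Agent.DQX.Stmts

/-!
LMZ: the norm is not zero on a stable factor.
-/

set_option autoImplicit false

namespace Pool.Agent.DQX

open CommonSlot

namespace LMZ_

theorem cross' {L C : Type} [AddCommGroup L] [Module (ZMod 2) L] [AddCommGroup C]
    [Module (ZMod 2) C] {q : L →ₗ[ZMod 2] L →ₗ[ZMod 2] C} {e : L} (hl : IsLinked q e)
    {p : L →ₗ[ZMod 2] L} (hp : Spl q p) (w y : L) : q w (p y) = q (p w) (p y) := by
  rw [hl.symm w, hp.cross y w, hl.symm (p y)]

end LMZ_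

open LMZ_ in
theorem lmz_proof (hEQP : Stmt_EQP) : Stmt_LMZ := by
  intro V B L C _ _ _ _ _ _ _ _ E hE p w0 hp hw0 hz w
  by_contra hw
  have hpp := hp.spl.idem
  -- (1) there is `v` with `p (res v) ≠ 0`
  obtain ⟨v, hv⟩ : ∃ v, p (E.res v) ≠ 0 := by
    by_contra hcon
    have hcon' : ∀ v, p (E.res v) = 0 := fun v => not_not.1 fun h => hcon ⟨v, h⟩
    apply hw
    apply hE.nd'
    intro y
    rw [hp.spl.cross]
    obtain ⟨b, c, hbc⟩ := E.rt (p w) (p y)
    have h1 := hp.spl.zero _ _ hbc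
    rw [map_add p, map_add p, hcon', hcon', add_zero, add_zero, hpp, hpp] at h1
    exact h1
  -- (2)
  obtain ⟨y, hy⟩ : ∃ y, E.q' (p (E.res v)) y ≠ 0 := by
    by_contra hcon
    exact hv (hE.nd' _ fun y => not_not.1 fun h => hcon ⟨y, h⟩)
  rw [hp.spl.cross] at hy
  obtain ⟨f, hf⟩ := E.np v (p y) (by rw [hz, map_zero])
  have hf1 := hp.spl.zero _ _ hf
  rw [map_add, hpp, map_add] at hf1
  have hf2 : E.q' (p (E.res v)) (p (E.res f)) = E.q' (p (E.res v)) (p y) := by
    rw [← sub_eq_zero, ZModModule.sub_eq_add, add_comm]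
    exact hf1
  -- `q' (res v) (res f) = q' (p (res v)) (p y)`
  have hf3 : E.q' (E.res v) (E.res f) = E.q' (p (E.res v)) (p y) := by
    rw [map_add] at hf
    rw [cross' E.link' hp.spl] at hf
    rw [← sub_eq_zero, ZModModule.sub_eq_add, add_comm]
    exact hf
  -- (3)
  have hortho : E.q' (w0 + p w0) (p (E.res v)) = 0 := by
    rw [map_add, LinearMap.add_apply, cross' E.link' hp.spl w0, ZModModule.add_self]
  obtain ⟨a, b, hab, hax⟩ := E.np3 v f (w0 + p w0) (p (E.res v)) (p y) hf3 hortho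
  rw [map_add, hw0, hz, add_zero, E.link.symm] at hax
  obtain ⟨a', ha'⟩ := E.norm a hax
  have hpa : p (E.res a) = 0 := by
    rw [← ha', ← hp.comm, hz, map_zero]
  have h1 := congrArg E.rs hab
  rw [E.rsq, E.rsq] at h1
  have h2 := hEQP L C E.q' (E.res E.e) E.link' p hp.spl _ _ _ _ h1
  rw [hf2, hpa, map_zero, LinearMap.zero_apply] at h2
  exact hy h2

end Pool.Agent.DQX
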