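import Pool.Agent.DQX.Stmts

/-!
DQX, module LSC.
-/

set_option autoImplicit false

namespace Pool.Agent.DQX

open CommonSlot

theorem lsc_proof : Stmt_LSC := by
  intro V B _ _ _ _ W f g h
  by_cases h1 : ∃ v ∈ W, f v ≠ 0
  · obtain ⟨v, hv, hf⟩ := h1
    have hfg : f v = g v := (h v hv).resolve_left hf
    refine ⟨1, fun v' hv' => ?_⟩
    rw [one_smul]
    rcases h v' hv' with h2 | h2
    · by_contra hne
      rw [h2] at hne
      rcases h (v + v') (W.add_mem hv hv') with h3 | h3
      · rw [map_add, h2, add_zero] at h3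
        exact hf h3
      · rw [map_add, map_add, h2, add_zero, hfg] at h3
        exact hne ((add_eq_left.1 h3.symm).symm)
    · exact h2
  · push Not at h1
    exact ⟨0, fun v hv => by rw [zero_smul, h1 v hv]⟩

end Pool.Agent.DQX
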