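import Pool.Agent.DQX.Stmts

/-! MUF: the functionals `μ`. -/

set_option autoImplicit false

namespace Pool.Agent.DQX

open CommonSlot

namespace MUF_

section
variable {V B L C : Type} [AddCommGroup V] [Module (ZMod 2) V] [AddCommGroup B]
  [Module (ZMod 2) B] [AddCommGroup L] [Module (ZMod 2) L] [AddCommGroup C]
  [Module (ZMod 2) C]

theorem fact1 (E : QX V B L C) {p : L →ₗ[ZMod 2] L} (hp : Spl E.q' p) {v : V}
    (hv : VP E p v) (w : L) : E.q v (E.N w) = E.q v (E.N (p w)) := by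
  rw [← E.proj, ← E.proj]
  have h1 : p (E.res v) = E.res v := hv
  rw [← h1, hp.cross]

theorem fact2 (E : QX V B L C) {ι : Type} [Fintype ι] {p : ι → (L →ₗ[ZMod 2] L)}
    (hD : Dec E.q' ι p) {j k : ι} (hk : k ≠ j) {v : V} (hv : VP E (p j) v) (w : L) :
    E.q v (E.N (p k w)) = 0 := by
  rw [fact1 E (hD.spl j) hv, hD.orth j k (Ne.symm hk), map_zero, map_zero]

end

end MUF_

open MUF_ in
theorem muf_proof (hXID : Stmt_XID) (hGRA : Stmt_GRA) (hLEX : Stmt_LEX) (hLEA : Stmt_LEA)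
    (hLEB : Stmt_LEB) : Stmt_MUF := by
  intro V B L C _ _ _ _ _ _ _ _ E ι _ _ p w0 hred hw0 hdec hsf hok
  have hres : ∀ i, E.res (E.N (p i w0)) = 0 := by
    intro i
    rw [(hsf i).comm, hw0, E.resx, map_zero]
  obtain ⟨-, hgra⟩ := hGRA V B L C E ι p w0 hred hw0 hdec hsf hok
  -- the maps `g_j`
  have hg : ∀ j, ∃ g : B →ₗ[ZMod 2] B, ∀ v, g (E.q E.x v) = E.q (E.N (p j w0)) v := fun j =>
    hLEX V B (E.q E.x) (E.q (E.N (p j w0))) (hXID V B L C E _ (hres j)).1
  choose g hg using hg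
  -- the elements `z0`
  have hz0 : ∀ j, E.N (p j w0) ≠ 0 → ∃ z0, VP E (p j) z0 ∧ E.q E.x z0 ≠ 0 := by
    intro j hj
    obtain ⟨v, hv⟩ : ∃ v, E.q (E.N (p j w0)) v ≠ 0 := by
      by_contra h
      push Not at h
      exact hj (hred.nd _ h)
    obtain ⟨z0, hz0⟩ := hgra j v
    have hV : VP E (p j) z0 := by
      show p j (E.res z0) = E.res z0
      rw [hz0, (hdec.spl j).idem]
    refine ⟨z0, hV, ?_⟩
    rw [← hw0, E.link.symm, fact1 E (hdec.spl j) hV]
    have h1 : E.q z0 (E.N (p j w0)) = E.q v (E.N (p j w0)) := by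
      rw [← E.proj, ← E.proj, hz0, E.link'.symm (E.res v), (hdec.spl j).cross w0 (E.res v),
        E.link'.symm (p j w0)]
    rw [h1, E.link.symm]
    exact hv
  -- the data `(z0, φ)`
  have hφ : ∀ j, ∃ (z0 : V) (φ : B →ₗ[ZMod 2] ZMod 2), VP E (p j) z0 ∧
      (E.N (p j w0) ≠ 0 → φ (E.q E.x z0) = 1) ∧ (E.N (p j w0) = 0 → φ = 0) := by
    intro j
    by_cases hj : E.N (p j w0) = 0
    · refine ⟨0, 0, ?_, fun h => absurd hj h, fun _ => rfl⟩
      show p j (E.res 0) = E.res 0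
      rw [map_zero, map_zero]
    · obtain ⟨z0, h1, h2⟩ := hz0 j hj
      have h3 : ∃ φ : Module.Dual (ZMod 2) B, φ (E.q E.x z0) ≠ 0 := by
        by_contra h
        push Not at h
        exact h2 ((Module.forall_dual_apply_eq_zero_iff (ZMod 2) _).1 h)
      obtain ⟨φ, hφ⟩ := h3
      exact ⟨z0, φ, h1, fun _ => zm_ne_zero hφ, fun h => absurd h hj⟩
  choose z0 φ hφ1 hφ2 hφ3 using hφ
  let μ : ι → ι → (V →ₗ[ZMod 2] ZMod 2) := fun _ j => (φ j).comp ((g j).comp (E.q.flip (z0 j)))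
  have hμ : ∀ i j v, μ i j v = φ j (g j (E.q v (z0 j))) := fun _ _ _ => rfl
  -- the scalar property
  have key : ∀ i j, i ≠ j → ∀ v z, VP E (p i) v → VP E (p j) z →
      g j (E.q v z) = μ i j v • E.q E.x z := by
    intro i j hij v z hv hz
    by_cases hj : E.N (p j w0) = 0
    · have h1 : μ i j v = 0 := by rw [hμ i, hφ3 j hj]; rfl
      obtain ⟨ψ, hψ⟩ := E.kq v z (by
        have e1 : p j (E.res z) = E.res z := hz
        have e2 : p i (E.res v) = E.res v := hv
        rw [← e2, (hdec.spl i).cross, ← e1, hdec.orth i j hij, map_zero])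
      rw [hψ, hg, hj, h1, zero_smul, map_zero, LinearMap.zero_apply]
    · have hL := hLEB V B L C E ι p w0 hred hw0 hdec hsf hok j i (Ne.symm hij) v hv (g j) (hg j)
      obtain ⟨l, hl⟩ := (hok j).sc hj (hgra j) ((g j).comp (E.q v)) (by
        intro z' hz' hx
        show g j (E.q v z') = 0
        rw [E.link.symm]
        exact hL.1 z' hz' hx) (by
        intro z' hz'
        obtain ⟨a, b, h1, h2, h3⟩ := hL.2 z' hz'
        refine ⟨a, b, h1, ?_, h3⟩
        show g j (E.q v z') = _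
        rw [E.link.symm, h2])
      have h1 : g j (E.q v z) = l • E.q E.x z := hl z hz
      have h2 : g j (E.q v (z0 j)) = l • E.q E.x (z0 j) := hl (z0 j) (hφ1 j)
      rw [h1, hμ i, h2, map_smul, hφ2 j hj, smul_eq_mul, mul_one]
  refine ⟨μ, fun i j hij => ⟨?_, ?_, ?_, ?_, ?_⟩⟩
  · intro v z hv hz
    have e1 : p j (E.res z) = E.res z := hz
    have e2 : p i (E.res v) = E.res v := hv
    obtain ⟨ψ, hψ⟩ := E.kq v z (by
      rw [← e2, (hdec.spl i).cross, ← e1, hdec.orth i j hij, map_zero])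
    have h1 : E.q E.x ψ = ∑ k, E.q (E.N (p k w0)) ψ := by
      conv_lhs => rw [← hw0, ← hdec.sum w0]
      rw [map_sum, map_sum, LinearMap.sum_apply]
    have h2 : ∑ k, E.q (E.N (p k w0)) ψ =
        E.q (E.N (p i w0)) ψ + E.q (E.N (p j w0)) ψ := by
      rw [← Finset.add_sum_erase Finset.univ _ (Finset.mem_univ i)]
      congr 1
      rw [Finset.sum_eq_single j]
      · intro k hk hkj
        exact hLEA V B L C E ι p w0 hred hw0 hdec hsf hok i j k v z ψ hv hz hψ
          (Finset.ne_of_mem_erase hk) hkj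
      · intro h
        exact absurd (Finset.mem_erase.2 ⟨Ne.symm hij, Finset.mem_univ j⟩) h
    have h3 : E.q v z = g i (E.q v z) + g j (E.q v z) := by
      conv_lhs => rw [hψ, h1, h2, ← hg, ← hg, ← hψ]
    have h4 : g i (E.q v z) = μ j i z • E.q E.x v := by
      rw [E.link.symm]
      exact key j i (Ne.symm hij) z v hz hv
    calc E.q v z = g i (E.q v z) + g j (E.q v z) := h3
      _ = _ := by rw [h4, key i j hij v z hv hz]
  · intro z
    rw [hμ i, E.link.symm, fact2 E hdec hij (hφ1 j), map_zero, map_zero]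
  · intro hj
    rw [hμ i, E.link.symm, ← fact1 E (hdec.spl j) (hφ1 j), hw0, E.link.symm, hg, E.link.symm,
      ← fact1 E (hdec.spl j) (hφ1 j), hw0, E.link.symm]
    exact hφ2 j hj
  · intro hj v
    rw [hμ i, hφ3 j hj]
    rfl
  · intro k hk
    rw [hμ i, E.link.symm, fact2 E hdec hk (hφ1 j), map_zero, map_zero]

end Pool.Agent.DQX
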