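import Pool.Agent.DQX.Stmts

set_option autoImplicit false

namespace Pool.Agent.DQX

open CommonSlot

theorem pr1_proof (hGRA : Stmt_GRA) (hXST : Stmt_XST) (hMUF : Stmt_MUF) (hDCM : Stmt_DCM) :
    Stmt_PR1 := by
  intro V B L C _ _ _ _ _ _ _ _ E ι _ _ p w0 hR hw0 hD hSF hB
  obtain ⟨-, hgr⟩ := hGRA V B L C E ι p w0 hR hw0 hD hSF hB
  obtain ⟨hker, hind⟩ := hXST V B L C E ι p w0 hR hw0 hD hSF hB
  obtain ⟨μ, hμ⟩ := hMUF V B L C E ι p w0 hR hw0 hD hSF hB
  have hresx : ∀ k, E.res (E.N (p k w0)) = 0 := by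
    intro k
    rw [(hSF k).comm, hw0, E.resx, map_zero]
  let W : ι → Submodule (ZMod 2) V := fun i =>
    { carrier := {v | VP E (p i) v ∧ ∀ j, j ≠ i → μ i j v = 0}
      zero_mem' := ⟨by unfold VP; rw [map_zero, map_zero], fun j _ => map_zero _⟩
      add_mem' := by
        rintro a b ⟨ha, ha'⟩ ⟨hb, hb'⟩
        refine ⟨?_, fun j hj => by rw [map_add, ha' j hj, hb' j hj, add_zero]⟩
        unfold VP at ha hb ⊢
        rw [map_add, map_add, ha, hb]
      smul_mem' := by
        rintro c a ⟨ha, ha'⟩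
        refine ⟨?_, fun j hj => by rw [map_smul, ha' j hj, smul_zero]⟩
        unfold VP at ha ⊢
        rw [map_smul, map_smul, ha] }
  have hW : ∀ i v, v ∈ W i ↔ VP E (p i) v ∧ ∀ j, j ≠ i → μ i j v = 0 := fun _ _ => Iff.rfl
  -- the elements `x_k`
  have hxW : ∀ k, E.N (p k w0) ∈ W k := by
    intro k
    rw [hW]
    refine ⟨?_, fun j hj => (hμ k j (Ne.symm hj)).2.1 w0⟩
    unfold VP
    rw [hresx k, map_zero]
  -- the sum of the `W i`
  let S : Submodule (ZMod 2) V :=
    LinearMap.range (∑ i, (W i).subtype ∘ₗ (LinearMap.proj i : (∀ i, W i) →ₗ[ZMod 2] W i))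
  have hWS : ∀ i, ∀ v ∈ W i, v ∈ S := by
    intro i v hv
    refine ⟨Pi.single i ⟨v, hv⟩, ?_⟩
    rw [LinearMap.sum_apply, Finset.sum_eq_single i]
    · simp
    · intro j _ hj
      simp [Pi.single_eq_of_ne hj]
    · intro h
      exact absurd (Finset.mem_univ i) h
  have hS : ∀ v, v ∈ S := by
    intro v
    choose vi hvi using fun i => hgr i v
    have h0 : E.res (v + ∑ i, vi i) = 0 := by
      rw [map_add, map_sum]
      simp_rw [hvi]
      rw [hD.sum, ZModModule.add_self]
    obtain ⟨c, hc⟩ := hker _ h0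
    have h1 : v = ∑ i, vi i + ∑ k, c k • E.N (p k w0) := by
      rw [← hc, add_comm v, ← add_assoc, ZModModule.add_self, zero_add]
    have h2 : ∀ i, vi i + ∑ j ∈ Finset.univ.erase i, μ i j (vi i) • E.N (p j w0) ∈ W i := by
      intro i
      rw [hW]
      constructor
      · unfold VP
        have h3 : E.res (∑ j ∈ Finset.univ.erase i, μ i j (vi i) • E.N (p j w0)) = 0 := by
          rw [map_sum]
          apply Finset.sum_eq_zero
          intro j _
          rw [map_smul, hresx, smul_zero]
        rw [map_add, h3, add_zero, hvi, (hD.spl i).idem]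
      · intro k hk
        rw [map_add, map_sum, Finset.sum_eq_single k]
        · rw [map_smul, smul_eq_mul]
          by_cases hx : E.N (p k w0) = 0
          · rw [(hμ i k (Ne.symm hk)).2.2.2.1 hx, (hμ i k (Ne.symm hk)).2.2.2.1 hx, zero_mul,
              add_zero]
          · rw [(hμ i k (Ne.symm hk)).2.2.1 hx, mul_one, ZModModule.add_self]
        · intro j _ hj
          rw [map_smul, (hμ i k (Ne.symm hk)).2.2.2.2 j hj, smul_zero]
        · intro h
          exact absurd (Finset.mem_erase.2 ⟨hk, Finset.mem_univ k⟩) h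
    rw [h1]
    apply S.add_mem
    · apply S.sum_mem
      intro i _
      have h4 : vi i = (vi i + ∑ j ∈ Finset.univ.erase i, μ i j (vi i) • E.N (p j w0)) +
          ∑ j ∈ Finset.univ.erase i, μ i j (vi i) • E.N (p j w0) := by
        rw [add_assoc, ZModModule.add_self, add_zero]
      rw [h4]
      exact S.add_mem (hWS i _ (h2 i)) (S.sum_mem fun j _ => S.smul_mem _ (hWS j _ (hxW j)))
    · exact S.sum_mem fun k _ => S.smul_mem _ (hWS k _ (hxW k))
  obtain ⟨P, hP1, hP2, hP3, hP4⟩ := hDCM V ι W (by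
    intro v
    obtain ⟨f, hf⟩ := hS v
    refine ⟨fun i => f i, fun i => (f i).2, ?_⟩
    rw [← hf, LinearMap.sum_apply]
    rfl) (by
    intro f hf hsum i
    have hres : ∀ i, E.res (f i) = 0 := by
      intro i
      have h1 : p i (E.res (∑ j, f j)) = 0 := by rw [hsum, map_zero, map_zero]
      rw [map_sum, map_sum, Finset.sum_eq_single i] at h1
      · have h2 : VP E (p i) (f i) := (hf i).1
        unfold VP at h2
        rw [h2] at h1
        exact h1
      · intro j _ hj
        have h2 : VP E (p j) (f j) := (hf j).1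
        unfold VP at h2
        rw [← h2, hD.orth i j (Ne.symm hj)]
      · intro h
        exact absurd (Finset.mem_univ i) h
    have hfi : ∀ i, ∃ c : ZMod 2, f i = c • E.N (p i w0) := by
      intro i
      obtain ⟨c, hc⟩ := hker _ (hres i)
      refine ⟨c i, ?_⟩
      rw [hc, Finset.sum_eq_single i]
      · intro j _ hj
        have h1 := (hf i).2 j hj
        rw [hc, map_sum, Finset.sum_eq_single j] at h1
        · rw [map_smul, smul_eq_mul] at h1
          by_cases hx : E.N (p j w0) = 0
          · rw [hx, smul_zero]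
          · rw [(hμ i j (Ne.symm hj)).2.2.1 hx, mul_one] at h1
            rw [h1, zero_smul]
        · intro k _ hk
          rw [map_smul, (hμ i j (Ne.symm hj)).2.2.2.2 k hk, smul_zero]
        · intro h
          exact absurd (Finset.mem_univ j) h
      · intro h
        exact absurd (Finset.mem_univ i) h
    choose c hc using hfi
    have h1 : ∑ i, c i • E.N (p i w0) = 0 := by
      rw [← hsum]
      exact Finset.sum_congr rfl fun i _ => (hc i).symm
    rw [hc i]
    exact hind c h1 i)
  have hvp : ∀ i v, p i (E.res (P i v)) = E.res (P i v) := fun i v => (hP1 i v).1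
  have hres : ∀ i v, E.res (P i v) = p i (E.res v) := by
    intro i v
    conv_rhs => rw [← hP2 v, map_sum, map_sum]
    rw [Finset.sum_eq_single i, hvp]
    · intro j _ hj
      rw [← hvp, hD.orth i j (Ne.symm hj)]
    · intro h
      exact absurd (Finset.mem_univ i) h
  have hNW : ∀ i w, E.N (p i w) ∈ W i := by
    intro i w
    rw [hW]
    refine ⟨?_, fun j hj => (hμ i j (Ne.symm hj)).2.1 w⟩
    unfold VP
    rw [(hSF i).comm, (hD.spl i).idem]
  refine ⟨P, fun i v => hP3 i _ (hP1 i v), fun i j hij v => hP4 j i (Ne.symm hij) _ (hP1 j v), hP2,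
    hres, ?_, ?_⟩
  · intro i w
    have h1 : E.N w = ∑ j, E.N (p j w) := by rw [← map_sum, hD.sum]
    rw [h1, map_sum, Finset.sum_eq_single i, hP3 i _ (hNW i w)]
    · intro j _ hj
      exact hP4 j i hj _ (hNW j w)
    · intro h
      exact absurd (Finset.mem_univ i) h
  · intro i j hij v u
    rw [(hμ i j hij).1 _ _ (hP1 i v).1 (hP1 j u).1, (hP1 i v).2 j (Ne.symm hij),
      (hP1 j u).2 i hij, zero_smul, zero_smul, add_zero]

end Pool.Agent.DQX
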