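import Pool.Agent.DQX.Stmts

/-!
DQX, module PR2: the projections of PR1 split zero symbols.
-/

set_option autoImplicit false

namespace Pool.Agent.DQX

open CommonSlot

theorem pr2_proof (hXID : Stmt_XID) (hLEA : Stmt_LEA) : Stmt_PR2 := by
  intro V B L C _ _ _ _ _ _ _ _ E ι _ _ p w0 hR hw0 hD hSF hB P hidem horth hsum hres hN hq
  have cross : ∀ i w y, E.q (P i w) y = E.q (P i w) (P i y) := by
    intro i w y
    conv_lhs => rw [← hsum y]
    rw [map_sum]
    apply Finset.sum_eq_single i
    · intro j _ hj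
      exact hq i j (Ne.symm hj) w y
    · intro h
      exact absurd (Finset.mem_univ i) h
  have hvp : ∀ i v, VP E (p i) (P i v) := by
    intro i v
    unfold VP
    rw [hres, (hSF i).spl.idem]
  have hxs : ∑ k, E.N (p k w0) = E.x := by
    rw [← map_sum, hD.sum, hw0]
  have hresx : ∀ k, E.res (E.N (p k w0)) = 0 := by
    intro k
    rw [(hSF k).comm, hw0, E.resx, map_zero]
  have zero : ∀ i v u, E.q v u = 0 → E.q (P i v) (P i u) = 0 := by
    intro j v u hvu
    have h1 : E.q' (E.res v) (E.res u) = 0 := by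
      rw [← E.rsq, hvu, map_zero]
    have h2 : ∀ i, ∃ ψ, E.q (P i v) (P i u) = E.q E.x ψ := by
      intro i
      apply E.kq
      rw [hres, hres]
      exact (hSF i).spl.zero _ _ h1
    choose ψ hψ using h2
    have h3 : ∀ i k, k ≠ i → E.q (E.N (p k w0)) (ψ i) = 0 := by
      intro i k hk
      exact hLEA V B L C E ι p w0 hR hw0 hD hSF hB i i k (P i v) (P i u) (ψ i) (hvp i v)
        (hvp i u) (hψ i) hk hk
    have h4 : ∀ i, E.q E.x (ψ i) = E.q (E.N (p i w0)) (ψ i) := by
      intro i
      conv_lhs => rw [← hxs]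
      rw [map_sum, LinearMap.sum_apply]
      apply Finset.sum_eq_single i
      · intro k _ hk
        exact h3 i k hk
      · intro h
        exact absurd (Finset.mem_univ i) h
    have h5 : ∑ i, E.q (P i v) (P i u) = 0 := by
      have h6 : E.q v u = ∑ i, E.q (P i v) (P i u) := by
        conv_lhs => rw [← hsum v]
        rw [map_sum, LinearMap.sum_apply]
        apply Finset.sum_congr rfl
        intro i _
        exact cross i v u
      rw [← h6, hvu]
    have h7 : E.q E.x (∑ i, ψ i) = 0 := by
      rw [map_sum]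
      rw [← h5]
      apply Finset.sum_congr rfl
      intro i _
      rw [hψ i]
    have h8 := (hXID V B L C E _ (hresx j)).1 _ h7
    rw [map_sum, Finset.sum_eq_single j (fun i _ hi => h3 i j (Ne.symm hi))
      (fun h => absurd (Finset.mem_univ j) h)] at h8
    rw [hψ j, h4 j, h8]
  have hspl : ∀ i, Spl E.q (P i) := fun i => ⟨hidem i, cross i, zero i⟩
  exact ⟨⟨hspl, horth, hsum⟩, fun i => ⟨hspl i, hSF i, hres i, hN i⟩⟩

end Pool.Agent.DQX
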