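import Pool.Agent.DQX.Stmts

/-!
DQX, module RED: reduction modulo the radicals.
-/

set_option autoImplicit false

namespace Pool.Agent.DQX

open CommonSlot

namespace RED_

variable {V B L C : Type} [AddCommGroup V] [Module (ZMod 2) V] [AddCommGroup B]
  [Module (ZMod 2) B] [AddCommGroup L] [Module (ZMod 2) L] [AddCommGroup C] [Module (ZMod 2) C]

/-- quotient by the radical with a linear section -/
theorem quot (q : V →ₗ[ZMod 2] V →ₗ[ZMod 2] B) (hs : ∀ a b, q a b = q b a) :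
    ∃ (V1 : Type) (_ : AddCommGroup V1) (_ : Module (ZMod 2) V1) (π : V →ₗ[ZMod 2] V1)
      (s : V1 →ₗ[ZMod 2] V), (∀ a, π (s a) = a) ∧ (∀ v, π v = 0 ↔ ∀ u, q v u = 0) ∧
      (∀ u v, q (s (π u)) v = q u v) ∧ ∀ u v, q v (s (π u)) = q v u := by
  obtain ⟨s, h⟩ := (LinearMap.ker q).mkQ.exists_rightInverse_of_surjective
    (LinearMap.range_eq_top.2 (Submodule.mkQ_surjective _))
  have h1 : ∀ a, (LinearMap.ker q).mkQ (s a) = a := fun a => LinearMap.congr_fun h a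
  have h2 : ∀ v, (LinearMap.ker q).mkQ v = 0 ↔ ∀ u, q v u = 0 := by
    intro v
    rw [Submodule.mkQ_apply, Submodule.Quotient.mk_eq_zero, LinearMap.mem_ker]
    constructor
    · intro h u; rw [h]; rfl
    · intro h; exact LinearMap.ext h
  have h3 : ∀ u v, q (s ((LinearMap.ker q).mkQ u)) v = q u v := by
    intro u v
    have : (LinearMap.ker q).mkQ (s ((LinearMap.ker q).mkQ u) - u) = 0 := by
      rw [map_sub, h1, sub_self]
    have h4 := (h2 _).1 this v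
    rw [map_sub, LinearMap.sub_apply] at h4
    exact sub_eq_zero.1 h4
  exact ⟨V ⧸ LinearMap.ker q, inferInstance, inferInstance, (LinearMap.ker q).mkQ, s, h1, h2, h3,
    fun u v => by rw [hs, h3, hs]⟩

end RED_

theorem red_proof : Stmt_RED := by
  intro V B L C _ _ _ _ _ _ _ _ E
  obtain ⟨V1, i1, i2, πV, sV, v1, v2, v3, v4⟩ := RED_.quot E.q E.link.symm
  obtain ⟨L1, i3, i4, πL, sL, l1, l2, l3, l4⟩ := RED_.quot E.q' E.link'.symm
  -- the radicals are preserved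
  have hN : ∀ w, πL w = 0 → πV (E.N w) = 0 := by
    intro w hw
    rw [v2]
    intro u
    rw [E.link.symm, ← E.proj, E.link'.symm, (l2 w).1 hw, map_zero]
  have hR : ∀ v, πV v = 0 → πL (E.res v) = 0 := by
    intro v hv
    rw [l2]
    intro y
    obtain ⟨f, hf⟩ := E.np v y ((v2 v).1 hv _)
    rw [map_add, ← E.rsq, (v2 v).1 hv, map_zero, add_zero] at hf
    exact hf
  let q1 : V1 →ₗ[ZMod 2] V1 →ₗ[ZMod 2] B := E.q.compl₁₂ sV sV
  let q1' : L1 →ₗ[ZMod 2] L1 →ₗ[ZMod 2] C := E.q'.compl₁₂ sL sL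
  let res1 : V1 →ₗ[ZMod 2] L1 := πL ∘ₗ E.res ∘ₗ sV
  let N1 : L1 →ₗ[ZMod 2] V1 := πV ∘ₗ E.N ∘ₗ sL
  have eq : ∀ u v, q1 (πV u) (πV v) = E.q u v := by
    intro u v
    show E.q (sV (πV u)) (sV (πV v)) = _
    rw [v3, v4]
  have eq' : ∀ u v, q1' (πL u) (πL v) = E.q' u v := by
    intro u v
    show E.q' (sL (πL u)) (sL (πL v)) = _
    rw [l3, l4]
  have eres : ∀ v, res1 (πV v) = πL (E.res v) := by
    intro v
    show πL (E.res (sV (πV v))) = _
    have h : πV (sV (πV v) - v) = 0 := by rw [map_sub, v1, sub_self]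
    have h2 := hR _ h
    rw [map_sub, map_sub] at h2
    exact sub_eq_zero.1 h2
  have eN : ∀ w, N1 (πL w) = πV (E.N w) := by
    intro w
    show πV (E.N (sL (πL w))) = _
    have h : πL (sL (πL w) - w) = 0 := by rw [map_sub, l1, sub_self]
    have h2 := hN _ h
    rw [map_sub, map_sub] at h2
    exact sub_eq_zero.1 h2
  have sV' : Function.Surjective πV := fun a => ⟨sV a, v1 a⟩
  have sL' : Function.Surjective πL := fun a => ⟨sL a, l1 a⟩
  refine ⟨V1, L1, i1, i2, i3, i4,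
    { q := q1, q' := q1', e := πV E.e, res := res1, N := N1, cor := E.cor, rs := E.rs,
      x := πV E.x, link := ?_, link' := ?_, Nres := ?_, resx := ?_, sq := ?_, norm := ?_,
      proj := ?_, rsq := ?_, kq := ?_, np := ?_, rt := ?_, np3 := ?_ }, πV, πL, ?_, sV', sL', v2,
    l2, eq, eq', eres, eN, rfl, rfl⟩
  · refine ⟨fun a b => ?_, fun a => ?_, fun a b c d h => ?_⟩
    · obtain ⟨a, rfl⟩ := sV' a
      obtain ⟨b, rfl⟩ := sV' b
      rw [eq, eq, E.link.symm]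
    · obtain ⟨a, rfl⟩ := sV' a
      rw [eq, eq, E.link.diag]
    · obtain ⟨a, rfl⟩ := sV' a
      obtain ⟨b, rfl⟩ := sV' b
      obtain ⟨c, rfl⟩ := sV' c
      obtain ⟨d, rfl⟩ := sV' d
      rw [eq, eq] at h
      obtain ⟨y, h1, h2⟩ := E.link.link a b c d h
      exact ⟨πV y, by rw [eq, eq, h1], by rw [eq, eq, h2]⟩
  · refine ⟨fun a b => ?_, fun a => ?_, fun a b c d h => ?_⟩
    · obtain ⟨a, rfl⟩ := sL' a
      obtain ⟨b, rfl⟩ := sL' b
      rw [eq', eq', E.link'.symm]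
    · obtain ⟨a, rfl⟩ := sL' a
      rw [eres, eq', eq', E.link'.diag]
    · obtain ⟨a, rfl⟩ := sL' a
      obtain ⟨b, rfl⟩ := sL' b
      obtain ⟨c, rfl⟩ := sL' c
      obtain ⟨d, rfl⟩ := sL' d
      rw [eq', eq'] at h
      obtain ⟨y, h1, h2⟩ := E.link'.link a b c d h
      exact ⟨πL y, by rw [eq', eq', h1], by rw [eq', eq', h2]⟩
  · intro v
    obtain ⟨v, rfl⟩ := sV' v
    rw [eres, eN, E.Nres, map_zero]
  · rw [eres, E.resx, map_zero]
  · intro w y h
    obtain ⟨w, rfl⟩ := sL' w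
    obtain ⟨y, rfl⟩ := sL' y
    rw [eq'] at h
    rw [eN, eN, eres, eres, ← map_add, ← map_add, eq']
    exact E.sq w y h
  · intro v h
    obtain ⟨v, rfl⟩ := sV' v
    rw [eq] at h
    obtain ⟨w, hw⟩ := E.norm v h
    exact ⟨πL w, by rw [eN, hw]⟩
  · intro v w
    obtain ⟨v, rfl⟩ := sV' v
    obtain ⟨w, rfl⟩ := sL' w
    rw [eres, eN, eq, eq', E.proj]
  · intro u v
    obtain ⟨u, rfl⟩ := sV' u
    obtain ⟨v, rfl⟩ := sV' v
    rw [eq, eres, eres, eq', E.rsq]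
  · intro u v h
    obtain ⟨u, rfl⟩ := sV' u
    obtain ⟨v, rfl⟩ := sV' v
    rw [eres, eres, eq'] at h
    obtain ⟨y, hy⟩ := E.kq u v h
    exact ⟨πV y, by rw [eq, eq, hy]⟩
  · intro v w h
    obtain ⟨v, rfl⟩ := sV' v
    obtain ⟨w, rfl⟩ := sL' w
    rw [eN, eq] at h
    obtain ⟨f, hf⟩ := E.np v w h
    exact ⟨πV f, by rw [eres, eres, ← map_add, eq', hf]⟩
  · intro w y
    obtain ⟨w, rfl⟩ := sL' w
    obtain ⟨y, rfl⟩ := sL' y
    obtain ⟨b, c, h⟩ := E.rt w y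
    exact ⟨πV b, πV c, by rw [eres, eres, ← map_add, ← map_add, eq', h]⟩
  · intro u v w y y' h h'
    obtain ⟨u, rfl⟩ := sV' u
    obtain ⟨v, rfl⟩ := sV' v
    obtain ⟨w, rfl⟩ := sL' w
    obtain ⟨y, rfl⟩ := sL' y
    obtain ⟨y', rfl⟩ := sL' y'
    rw [eres, eres, eq', eq'] at h
    rw [eq'] at h'
    obtain ⟨a, b, h1, h2⟩ := E.np3 u v w y y' h h'
    exact ⟨πV a, πV b, by rw [eq, eq, h1], by rw [eN, eq, h2]⟩
  · constructor
    · intro w h
      obtain ⟨w, rfl⟩ := sV' w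
      rw [v2]
      intro u
      have := h (πV u)
      rwa [eq] at this
    · intro w h
      obtain ⟨w, rfl⟩ := sL' w
      rw [l2]
      intro u
      have := h (πL u)
      rwa [eq'] at this

end Pool.Agent.DQX
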