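import Pool.Agent.DQX.XID

/-! DQX: RGN, EX0 -/

set_option autoImplicit false

namespace Pool.Agent.DQX

open CommonSlot XID_

theorem rgn_proof (hRGD : Stmt_RGD) : Stmt_RGN := by
  intro V B L C _ _ _ _ _ _ _ _ E hE p τ hp hτ u z hu h
  obtain ⟨f, hf⟩ := E.np _ _ h
  have h1 := hp.spl.zero _ _ hf
  rcases hRGD L C E.q' (E.res E.e) E.link' p τ hp.spl hτ (E.res u) (p z + E.res f) hu h1 with h2 | h2
  · refine ⟨f, ?_⟩
    rw [map_add, hp.spl.idem] at h2
    exact eq_of h2
  · refine ⟨f + u + E.e, ?_⟩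
    rw [map_add, hp.spl.idem] at h2
    rw [map_add, map_add, map_add, map_add]
    have h3 : p z = p (E.res f) + (p z + p (E.res f)) := by
      rw [add_comm (p z), ← add_assoc, ad, zero_add]
    rw [h3, h2]; abel

theorem ex0_proof (hLM1 : Stmt_LM1) (hRGN : Stmt_RGN) : Stmt_EX0 := by
  intro V B L C _ _ _ _ _ _ _ _ E hE p τ hp hτ z
  rcases zm (τ (E.res (E.N (p z)))) with h | h
  · exact h
  · exfalso
    have h1 : τ (E.res (E.N (p z) + E.e)) = 1 := by
      rw [map_add, map_add, h, hτ.eta, add_zero]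
    have h2 : E.q (E.N (p z) + E.e) (E.N (p z)) = 0 := by
      rw [map_add, LinearMap.add_apply, E.link.symm E.e, E.link.diag, ad]
    obtain ⟨f, hf⟩ := hRGN V B L C E hE p τ hp hτ _ z h1 h2
    rw [hf, hLM1 V B L C E hE p hp f, map_zero, map_zero] at h
    exact zero_ne_one h

end Pool.Agent.DQX
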