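import Pool.Agent.DQX.Stmts

/-! DQX: SAT, TAS -/

set_option autoImplicit false

namespace Pool.Agent.DQX

open CommonSlot

namespace SAT_

variable {V B : Type} [AddCommGroup V] [Module (ZMod 2) V] [AddCommGroup B] [Module (ZMod 2) B]
  {q : V →ₗ[ZMod 2] V →ₗ[ZMod 2] B} {e : V}

theorem ad {M : Type} [AddCommGroup M] [Module (ZMod 2) M] (a : M) : a + a = 0 :=
  ZModModule.add_self a

theorem eq_of {M : Type} [AddCommGroup M] [Module (ZMod 2) M] {a b : M} (h : a + b = 0) :
    a = b := eq_of_add_eq_zero' h

/-- the case of a common slot -/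
theorem sat1 (hq : IsLinked q e) {x u y v : V} (h : q x u = q y u) (hv : q y v = 0) :
    ∃ a g, q x a = 0 ∧ q x g = 0 ∧ q (v + a) (u + g) = 0 := by
  have dg := fun a => hq.diag a
  have sy := hq.symm
  -- the linkage
  have h1 : q x (u + y) = q (x + u + v) y := by
    simp only [map_add, LinearMap.add_apply]
    rw [h, sy u y, sy v y, hv, add_zero, add_comm]
  obtain ⟨r, hr1, hr2⟩ := hq.link _ _ _ _ h1
  have hr3 : q (u + v) r = 0 := by
    have h2 : q (x + u + v) r = q x r + q (u + v) r := by
      simp only [map_add, LinearMap.add_apply]; abel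
    rw [hr2, hr1] at h2
    exact left_eq_add.1 h2
  have hxa : q x (r + x + u + y + e) = 0 := by
    simp only [map_add]
    rw [hr1, map_add, dg x]
    have := ad (q x u + q x y + q x e)
    rw [← this]; abel
  refine ⟨r + x + u + y + e, r + x + u + y + e + x + e, hxa, ?_, ?_⟩
  · rw [map_add, map_add, hxa, dg x, zero_add, ad]
  · have h3 : q (u + v) (r + x + u + y + e) = q v (u + x + e) := by
      have : q (u + v) (r + x + u + y + e) = q (u + v) r + (q u x + q u y) + (q u u + q u e) +
          q v y + q v (u + x + e) := by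
        simp only [map_add, LinearMap.add_apply]; abel
      rw [this, hr3, sy u x, sy u y, h, ad, dg u, ad (q u e), sy v y, hv]
      simp
    set a := r + x + u + y + e with ha
    have h4 : q (v + a) (u + (a + x + e)) = q v (u + x + e) + q (u + v) a + (q a a + q a e) +
        q a x := by
      have e1 : q u a = q a u := sy u a
      simp only [map_add, LinearMap.add_apply]
      rw [e1]; abel
    rw [h4, h3, ad, dg a, ad (q a e), sy a x, hxa]
    simp

end SAT_

open SAT_ in
theorem sat_proof : Stmt_SAT := by
  intro V B _ _ _ _ q e hq x u y y' v h hv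
  obtain ⟨s, h1, h2⟩ := hq.link _ _ _ _ h
  obtain ⟨a, g, ha, hg, hag⟩ := sat1 hq (x := x) (u := s) (y := y) (v := v) (by rw [h1, h2]) hv
  refine ⟨a, u + s + g, ha, ?_, ?_⟩
  · rw [map_add, map_add, h1, ad, hg, add_zero]
  · rw [show u + (u + s + g) = u + u + (s + g) by abel, ad, zero_add]
    exact hag

open SAT_ in
theorem tas_proof : Stmt_TAS := by
  intro V B _ _ _ _ q e hq x u0 z a g ha hg h
  have sy := hq.symm
  have dg := fun a => hq.diag a
  set u := u0 + g with hu
  set b := z + a with hb
  have hbu : q b u = 0 := h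
  have hz : z = a + b := by rw [hb, show a + (z + a) = z + (a + a) by abel, ad, add_zero]
  have h1 : q z x = q (z + (u + a + x + e)) b := by
    have e1 : q z x = q b x := by
      rw [hz, map_add, LinearMap.add_apply, sy a x, ha, zero_add]
    have e2 : q (z + (u + a + x + e)) b = (q a b + q a b) + (q b b + q b e) + q b u + q b x := by
      rw [hz]
      simp only [map_add, LinearMap.add_apply]
      rw [sy u b, sy x b, sy e b]; abel
    rw [e1, e2, ad, dg b, ad (q b e), hbu]
    simp
  obtain ⟨m, hm1, hm2⟩ := hq.link _ _ _ _ h1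
  have hsm : q (u + a + x + e) m = 0 := by
    rw [map_add, LinearMap.add_apply, hm1] at hm2
    exact left_eq_add.1 hm2.symm
  refine ⟨m + x, u + a + x + e, ?_, ?_⟩
  · rw [sy, map_add, hm1, ad]
  · rw [map_add q, LinearMap.add_apply, sy m, hsm, zero_add]
    simp only [map_add]
    rw [ha, dg x, hu, map_add, hg]
    simp [add_assoc, ad]

end Pool.Agent.DQX
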