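import Pool.Agent.DQX.Stmts

/-!
SPC: the complement of a stable factor.
-/

set_option autoImplicit false

namespace Pool.Agent.DQX

open CommonSlot

theorem spc_proof : Stmt_SPC := by
  intro V B L C _ _ _ _ _ _ _ _ E p hp
  have hpp := hp.spl.idem
  have hcr := hp.spl.cross
  have hcr' : ∀ w y, E.q' w (p y) = E.q' (p w) (p y) := by
    intro w y
    rw [E.link'.symm w, hcr y w, E.link'.symm (p y)]
  refine ⟨⟨?_, ?_, ?_⟩, ?_⟩
  · intro w
    simp only [LinearMap.add_apply, LinearMap.id_apply, map_add, hpp]
    rw [ZModModule.add_self, add_zero]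
  · intro w y
    simp only [LinearMap.add_apply, LinearMap.id_apply, map_add]
    rw [hcr' w y, ZModModule.add_self, add_zero]
  · intro w y h
    simp only [LinearMap.add_apply, LinearMap.id_apply, map_add]
    rw [h, hcr' w y, hcr w y, hp.spl.zero w y h]
    simp
  · intro w
    simp only [LinearMap.add_apply, LinearMap.id_apply, map_add]
    rw [hp.comm]

end Pool.Agent.DQX
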