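import Pool.Agent.DQX.Stmts

set_option autoImplicit false

namespace Pool.Agent.DQX

open CommonSlot

namespace SPX_

section

variable {U B : Type} [AddCommGroup U] [Module (ZMod 2) U] [AddCommGroup B] [Module (ZMod 2) B]

theorem two {M : Type} [AddCommGroup M] [Module (ZMod 2) M] (a : M) : a + a = 0 :=
  ZModModule.add_self a

theorem eq_of_add {M : Type} [AddCommGroup M] [Module (ZMod 2) M] {a b : M} (h : a + b = 0) :
    a = b := by
  have : a + b + b = b := by rw [h, zero_add]
  rwa [add_assoc, two, add_zero] at this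

theorem ql (q : U →ₗ[ZMod 2] U →ₗ[ZMod 2] B) (a b c : U) : q (a + b) c = q a c + q b c := by
  rw [map_add, LinearMap.add_apply]

theorem qr (q : U →ₗ[ZMod 2] U →ₗ[ZMod 2] B) (a b c : U) : q a (b + c) = q a b + q a c :=
  map_add _ _ _

/-- from `b + c = d` -/
theorem shift {a b c : U} (h : a + b = c) : a = c + b := by
  rw [← h, add_assoc, two, add_zero]

theorem step (hSAT : Stmt_SAT) (hTAS : Stmt_TAS) (q : U →ₗ[ZMod 2] U →ₗ[ZMod 2] B) (e : U)
    (hq : IsLinked q e) (he : q e e = 0) (hV : ∀ y, q e y = 0 → y = 0 ∨ y = e) (a : U)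
    (ha0 : a ≠ 0) (hae : a ≠ e) :
    (∀ v, q a v = 0 → v = 0 ∨ v = a + e) ∨ (∀ v, q (a + e) v = 0 → v = 0 ∨ v = a) := by
  have hsymm := hq.symm
  have hc : q e a ≠ 0 := by
    intro h
    rcases hV a h with h | h
    · exact ha0 h
    · exact hae h
  have hc' : q a e ≠ 0 := by rw [hsymm]; exact hc
  by_contra hcon
  rw [not_or] at hcon
  obtain ⟨h1, h2⟩ := hcon
  have h1' : ∃ y, q a y = 0 ∧ y ≠ 0 ∧ y ≠ a + e := by
    by_contra hcon
    apply h1
    intro y hy
    by_contra h
    rw [not_or] at h
    exact hcon ⟨y, hy, h.1, h.2⟩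
  have h2' : ∃ y, q (a + e) y = 0 ∧ y ≠ 0 ∧ y ≠ a := by
    by_contra hcon
    apply h2
    intro y hy
    by_contra h
    rw [not_or] at h
    exact hcon ⟨y, hy, h.1, h.2⟩
  obtain ⟨y, hy, hy0, hya⟩ := h1'
  obtain ⟨y', hy', hy'0, hy'a⟩ := h2'
  have hDadd : ∀ z z' y1 y2 y1' y2', q y1 z = 0 → q y1 y2 = q e a → q y1' z' = 0 →
      q y1' y2' = q e a → ∃ b b', q b (z + z') = 0 ∧ q b b' = q e a := by
    intro z z' y1 y2 y1' y2' hz h12 hz' h12'
    obtain ⟨b, g, hb, hg, hbg⟩ := hSAT U B q e hq y1 y2 y1' y2' z' (by rw [h12, h12']) hz'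
    obtain ⟨w, w', hw, hw'⟩ := hTAS U B q e hq y1 y2 (z + z') (z + b) g
      (by rw [map_add, hz, hb, add_zero]) hg (by
        have : z + z' + (z + b) = z' + b := by
          have h3 : z + z' + (z + b) = (z + z) + (z' + b) := by abel
          rw [h3, two, zero_add]
        rw [this]
        exact hbg)
    exact ⟨w, w', hw, by rw [hw', h12]⟩
  obtain ⟨y1, y2, hy1, hy12⟩ := hDadd y y' a e (a + e) e hy (hsymm a e) hy' (by
    rw [ql, he, add_zero, hsymm])
  obtain ⟨al, g, hal, hg, halg⟩ := hSAT U B q e hq e a y1 y2 (y + y') hy12.symm hy1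
  have hya' : q y a = 0 := by rw [hsymm]; exact hy
  have hy'e : q y' a = q y' e := by
    have h3 : q y' (a + e) = 0 := by rw [hsymm]; exact hy'
    rw [qr] at h3
    exact eq_of_add h3
  rcases hV g hg with hg | hg
  · rw [hg, add_zero] at halg
    rcases hV al hal with hal | hal
    · rw [hal, add_zero, ql, hya', zero_add] at halg
      have h3 : q e y' = 0 := by rw [hsymm, ← hy'e, halg]
      rcases hV y' h3 with h4 | h4
      · exact hy'0 h4
      · rw [h4] at halg
        exact hc halg
    · rw [hal, ql, ql, hya', zero_add] at halg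
      have h3 : q e (y' + a) = 0 := by
        rw [qr, hsymm e y', ← hy'e]
        exact halg
      rcases hV _ h3 with h4 | h4
      · exact hy'a (eq_of_add h4)
      · have h5 : y' = e + a := shift h4
        rw [h5, add_comm e a, hq.diag, ql, he, add_zero] at hy'
        exact hc' hy'
  · rw [hg] at halg
    have hy's : q y' (a + e) = 0 := by rw [hsymm]; exact hy'
    rcases hV al hal with hal | hal
    · rw [hal, add_zero, ql, hy's, add_zero, qr, hya', zero_add] at halg
      have h3 : q e y = 0 := by rw [hsymm]; exact halg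
      rcases hV y h3 with h4 | h4
      · exact hy0 h4
      · rw [h4] at hya'
        exact hc hya'
    · rw [hal, ql, ql, hy's, add_zero, qr, qr, hya', zero_add, he, add_zero] at halg
      have h3 : q e (y + a) = 0 := by
        rw [qr, hsymm e y]
        exact halg
      rcases hV _ h3 with h4 | h4
      · have h5 : y = a := eq_of_add h4
        rw [h5, hq.diag] at hy
        exact hc' hy
      · have h5 : y = e + a := shift h4
        rw [add_comm] at h5
        exact hya h5

theorem main (hSAT : Stmt_SAT) (hTAS : Stmt_TAS) (q : U →ₗ[ZMod 2] U →ₗ[ZMod 2] B) (e : U)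
    (hq : IsLinked q e) (he0 : e ≠ 0) (he : q e e = 0) (hV : ∀ y, q e y = 0 → y = 0 ∨ y = e)
    (a u : U) (ha0 : a ≠ 0) (hae : a ≠ e) (hau : q a u = 0) : u = 0 ∨ u = a + e := by
  have hsymm := hq.symm
  have hc : q a e ≠ 0 := by
    intro h
    rw [hsymm] at h
    rcases hV a h with h | h
    · exact ha0 h
    · exact hae h
  by_contra hcon
  rw [not_or] at hcon
  obtain ⟨hu0, hua⟩ := hcon
  have hue : u ≠ e := by
    intro h
    rw [h] at hau
    exact hc hau
  have h1 : ∀ v, q (a + e) v = 0 → v = 0 ∨ v = a := by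
    rcases step hSAT hTAS q e hq he hV a ha0 hae with h | h
    · rcases h u hau with h | h
      · exact absurd h hu0
      · exact absurd h hua
    · exact h
  have h2 : ∀ v, q (u + e) v = 0 → v = 0 ∨ v = u := by
    rcases step hSAT hTAS q e hq he hV u hu0 hue with h | h
    · rcases h a (by rw [hsymm]; exact hau) with h | h
      · exact absurd h ha0
      · exact absurd (shift h.symm) hua
    · exact h
  have e1 : q (a + e) e = q a e := by rw [ql, he, add_zero]
  have e2 : q (u + e) a = q a e := by rw [ql, hsymm u a, hau, zero_add, hsymm]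
  obtain ⟨s, hs1, hs2⟩ := hq.link (a + e) e (u + e) a (by rw [e1, e2])
  have h3 := h1 (s + e) (by rw [qr, hs1]; exact two _)
  have h4 := h2 (s + a) (by rw [qr, hs2, e1, e2]; exact two _)
  rcases h3 with h3 | h3
  · have hs : s = e := eq_of_add h3
    rcases h4 with h4 | h4
    · exact hae ((eq_of_add h4).symm.trans hs)
    · rw [hs, add_comm] at h4
      exact hua h4.symm
  · have hs : s = a + e := shift h3
    rcases h4 with h4 | h4
    · have h5 : a + e = a := hs.symm.trans (eq_of_add h4)
      exact he0 (by simpa using h5)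
    · rw [hs] at h4
      have h5 : a + e + a = e := by
        rw [add_comm a e, add_assoc, two, add_zero]
      exact hue (h4.symm.trans h5)

end

end SPX_

open SPX_ in
theorem spx_proof (hSAT : Stmt_SAT) (hTAS : Stmt_TAS) : Stmt_SPX := by
  intro V B _ _ _ _ q e hq p hp hpe hee hV a v ha0 hae hav
  let U := LinearMap.range p
  let qU : U →ₗ[ZMod 2] U →ₗ[ZMod 2] B := q.domRestrict₁₂ U U
  have hqU : ∀ a b : U, qU a b = q a b := fun a b => rfl
  have hpU : ∀ a : U, p a = a := by
    rintro ⟨a, b, rfl⟩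
    exact hp.idem b
  have hlinked : IsLinked qU ⟨p e, e, rfl⟩ := by
    refine ⟨fun a b => hq.symm _ _, ?_, ?_⟩
    · intro a
      show q a a = q a (p e)
      rw [hq.diag, ← hpU a, hp.cross]
    · intro a b c d h
      obtain ⟨s, h1, h2⟩ := hq.link a b c d h
      refine ⟨⟨p s, s, rfl⟩, ?_, ?_⟩
      · show q a (p s) = q a b
        rw [← h1]
        conv_lhs => rw [← hpU a]
        conv_rhs => rw [← hpU a]
        rw [hp.cross _ s]
      · show q c (p s) = q a b
        rw [← h2]
        conv_lhs => rw [← hpU c]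
        conv_rhs => rw [← hpU c]
        rw [hp.cross _ s]
  have h := main hSAT hTAS qU ⟨p e, e, rfl⟩ hlinked (fun h => hpe (congrArg Subtype.val h)) hee
    (by
      rintro ⟨_, y, rfl⟩ hy
      rcases hV y hy with h | h
      · exact Or.inl (Subtype.ext h)
      · exact Or.inr (Subtype.ext h))
    ⟨p a, a, rfl⟩ ⟨p v, v, rfl⟩ (fun h => ha0 (congrArg Subtype.val h))
    (fun h => hae (congrArg Subtype.val h)) hav
  rcases h with h | h
  · exact Or.inl (congrArg Subtype.val h)
  · exact Or.inr (congrArg Subtype.val h)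

end Pool.Agent.DQX
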