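import Pool.Agent.DQX.Stmts

/-!
DQX, module SPY: the type of the factor in SPX.
-/

set_option autoImplicit false

namespace Pool.Agent.DQX

open CommonSlot

namespace SPY_

theorem z01 : ∀ x : ZMod 2, x = 0 ∨ x = 1 := by decide

theorem one_ne : (1 : ZMod 2) ≠ 0 := by decide

end SPY_

open SPY_ in
theorem spy_proof : Stmt_SPY := by
  intro V B _ _ _ _ q e hl p hsp hne hee hbig hVe hVa
  obtain ⟨a, ha⟩ := hbig
  rw [hsp.cross] at ha
  have ha0 : p a ≠ 0 := by
    intro h
    rw [h, map_zero] at ha
    exact ha rfl
  have hae : p a ≠ p e := by
    intro h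
    rw [h] at ha
    exact ha hee
  have hnot : p a ∉ Submodule.span (ZMod 2) {p e} := by
    intro h
    obtain ⟨c, hc⟩ := Submodule.mem_span_singleton.1 h
    rcases z01 c with h0 | h1
    · rw [h0, zero_smul] at hc
      exact ha0 hc.symm
    · rw [h1, one_smul] at hc
      exact hae hc.symm
  obtain ⟨f, hf1, hf2⟩ := Submodule.exists_le_ker_of_notMem hnot
  have hfa : f (p a) = 1 := (z01 _).resolve_left hf1
  have hfe : f (p e) = 0 := hf2 (Submodule.mem_span_singleton_self _)
  have hfn : ∀ w, f w = 1 → w ≠ 0 ∧ w ≠ p e := by
    intro w hw
    constructor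
    · intro h
      rw [h, map_zero] at hw
      exact one_ne hw.symm
    · intro h
      rw [h, hfe] at hw
      exact one_ne hw.symm
  by_cases hex : ∃ h, f (p h) = 0 ∧ p h ≠ 0 ∧ p h ≠ p e
  · right
    refine ⟨f ∘ₗ p, ⟨?_, ⟨a, hfa⟩, hfe, ?_, hex⟩⟩
    · intro w
      show f (p (p w)) = f (p w)
      rw [hsp.idem]
    · intro t h h1 h2 ht hh hh1 hh2 heq
      change f (p t) = 1 at ht
      change f (p h) = 0 at hh
      change f (p h1) = 0 at hh1
      change f (p h2) = 0 at hh2
      obtain ⟨ht0, hte⟩ := hfn _ ht
      by_cases hc : q (p t) (p h) = 0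
      · rcases hVa t h ht0 hte hc with h3 | h3
        · exact h3
        · exfalso
          rw [h3, map_add, ht, hfe, add_zero] at hh
          exact one_ne hh
      · exfalso
        obtain ⟨s, hs1, hs2⟩ := hl.link _ _ _ _ heq
        rw [hsp.cross] at hs1 hs2
        have hs0 : p s ≠ 0 := by
          intro h3
          rw [h3, map_zero] at hs1
          exact hc hs1.symm
        have hth : f (p (t + h1)) = 1 := by
          rw [map_add, map_add, ht, hh1, add_zero]
        obtain ⟨hth0, hthe⟩ := hfn _ hth
        have h4 : q (p (t + h1)) (p s) = 0 := by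
          rw [map_add, map_add, LinearMap.add_apply, hs1, hs2, ZModModule.add_self]
        have hps : p s = p (t + h1) + p e := (hVa _ _ hth0 hthe h4).resolve_left hs0
        have hfs : f (p s) = 1 := by
          rw [hps, map_add, hth, hfe, add_zero]
        have h5 : q (p t) (p (s + h)) = 0 := by
          rw [map_add, map_add, hs1, ZModModule.add_self]
        have h6 : p (s + h) = p t + p e := by
          refine (hVa _ _ ht0 hte h5).resolve_left ?_
          intro h7
          have h8 : f (p (s + h)) = 1 := by
            rw [map_add, map_add, hfs, hh, add_zero]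
          exact (hfn _ h8).1 h7
        have h9 : p h = p h1 := by
          have h10 : p h = p s + p (s + h) := by
            rw [map_add, ← add_assoc, ZModModule.add_self, zero_add]
          rw [h10, h6, hps, map_add]
          have h11 : p t + p h1 + p e + (p t + p e) = p h1 + (p t + p t) + (p e + p e) := by abel
          rw [h11, ZModModule.add_self, ZModModule.add_self, add_zero, add_zero]
        have h12 : q (p h1) (p (s + h2)) = 0 := by
          rw [map_add, map_add, hs2, heq, ZModModule.add_self]
        have h13 : f (p (s + h2)) = 1 := by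
          rw [map_add, map_add, hfs, hh2, add_zero]
        obtain ⟨h14, h15⟩ := hfn _ h13
        have hh10 : p h1 ≠ 0 := by
          intro h16
          rw [h16, map_zero, LinearMap.zero_apply] at heq
          exact hc heq
        by_cases h17 : p h1 = p e
        · rw [h17] at h12
          rcases hVe _ h12 with h18 | h18
          · exact h14 h18
          · exact h15 h18
        · rcases hVa _ _ hh10 h17 h12 with h18 | h18
          · exact h14 h18
          · rw [h18, map_add, hh1, hfe, add_zero] at h13
            exact one_ne h13.symm
  · left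
    push Not at hex
    have hr : ∀ w, p w = 0 ∨ p w = p e ∨ p w = p a ∨ p w = p a + p e := by
      intro w
      rcases z01 (f (p w)) with h0 | h1
      · by_cases h2 : p w = 0
        · exact Or.inl h2
        · exact Or.inr (Or.inl (hex w h0 h2))
      · have h3 : f (p (w + a)) = 0 := by
          rw [map_add, map_add, h1, hfa]; decide
        have h5 : p w = p a + p (w + a) := by
          rw [map_add, add_comm (p w), ← add_assoc, ZModModule.add_self, zero_add]
        by_cases h4 : p (w + a) = 0
        · rw [h4, add_zero] at h5
          exact Or.inr (Or.inr (Or.inl h5))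
        · rw [hex _ h3 h4] at h5
          exact Or.inr (Or.inr (Or.inr h5))
    have haa : q (p a) (p a) = q (p a) (p e) := by
      rw [hl.diag, hsp.cross]
    have hea : q (p e) (p a) = q (p a) (p e) := hl.symm _ _
    refine ⟨q (p a) (p e), ?_, ⟨a, e, rfl⟩, ?_⟩
    · rw [hl.symm]; exact ha
    · have hbb : q (p a) (p e) + q (p a) (p e) = 0 := ZModModule.add_self _
      intro w y
      rcases hr w with h | h | h | h <;> rcases hr y with h' | h' | h' | h' <;>
        rw [h, h'] <;>
        simp only [map_zero, LinearMap.zero_apply, map_add, LinearMap.add_apply, haa, hea, hee,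
          hbb, add_zero, zero_add, true_or, or_true]

end Pool.Agent.DQX
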