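import Pool.Agent.DQX.Stmts

set_option autoImplicit false

namespace Pool.Agent.DQX

open CommonSlot

theorem tye_proof : Stmt_TYE := by
  intro V B _ _ _ _ q e hq p τ hp htp ⟨t, ht⟩ hte hext ⟨h, hh, hh'⟩ hall hpe
  have two : ∀ v : V, v + v = 0 := fun v => ZModModule.add_self v
  have twoB : ∀ v : B, v + v = 0 := fun v => ZModModule.add_self v
  have hpe0 : p e ≠ 0 := by
    rcases hall h hh with h1 | h1
    · exact absurd h1 hh'
    · rwa [h1] at hh'
  have hcase : ∀ w, p w = 0 ∨ p w = p e ∨ p w = p t ∨ p w = p t + p e := by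
    intro w
    have hz : ∀ z : ZMod 2, z = 0 ∨ z = 1 := by decide
    rcases hz (τ w) with h1 | h1
    · rcases hall w h1 with h2 | h2
      · exact Or.inl h2
      · exact Or.inr (Or.inl h2)
    · have h3 : τ (w + t) = 0 := by
        rw [map_add, h1, ht]
        decide
      have h4 : p w = p t + p (w + t) := by
        rw [map_add, add_comm (p w), ← add_assoc, two, zero_add]
      rcases hall (w + t) h3 with h2 | h2
      · refine Or.inr (Or.inr (Or.inl ?_))
        rw [h4, h2, add_zero]
      · refine Or.inr (Or.inr (Or.inr ?_))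
        rw [h4, h2]
  have hβ : q (p t) (p e) ≠ 0 := by
    intro h1
    apply hpe0
    apply hext t e 0 0 ht hte (map_zero _) (map_zero _)
    rw [h1, map_zero, map_zero]
  have htt : q (p t) (p t) = q (p t) (p e) := by
    rw [hq.diag, hp.cross t e]
  have het : q (p e) (p t) = q (p t) (p e) := hq.symm _ _
  refine ⟨q (p t) (p e), hβ, ⟨t, e, rfl⟩, fun w y => ?_⟩
  rcases hcase w with h1 | h1 | h1 | h1 <;> rcases hcase y with h2 | h2 | h2 | h2 <;>
    rw [h1, h2] <;>
    simp [htt, het, hpe, twoB]

end Pool.Agent.DQX
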