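import Pool.Agent.DQX.Stmts

/-!
DQX, module VPN.
-/

set_option autoImplicit false

namespace Pool.Agent.DQX

open CommonSlot

theorem vpn_proof : Stmt_VPN := by
  intro V B L C _ _ _ _ _ _ _ _ E ι _ _ p w0 hR hw0 hD hS hB i v hv hx
  obtain ⟨y, rfl⟩ := E.norm v hx
  have hk : ∀ k, k ≠ i → E.N (p k y) = 0 ∨ E.N (p k y) = E.N (p k w0) := by
    intro k hki
    apply (hB k).fx
    rw [(hS k).comm, ← hv, hD.orth k i hki]
  have hN : E.N y = ∑ k, E.N (p k y) := by
    conv_lhs => rw [← hD.sum y]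
    rw [map_sum]
  have hch : ∀ k, ∃ c : ZMod 2, (k = i → c = 0) ∧ (k ≠ i → E.N (p k y) = c • E.N (p k w0)) := by
    intro k
    by_cases h : k = i
    · exact ⟨0, fun _ => rfl, fun h' => absurd h h'⟩
    · rcases hk k h with h1 | h1
      · exact ⟨0, fun h' => absurd h' h, fun _ => by rw [h1, zero_smul]⟩
      · exact ⟨1, fun h' => absurd h' h, fun _ => by rw [h1, one_smul]⟩
  choose c hc1 hc2 using hch
  refine ⟨y, c, hc1 i rfl, ?_⟩
  rw [hN, ← Finset.add_sum_erase Finset.univ (fun k => E.N (p k y)) (Finset.mem_univ i),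
    ← Finset.add_sum_erase Finset.univ (fun k => c k • E.N (p k w0)) (Finset.mem_univ i)]
  show E.N (p i y) + _ = E.N (p i y) + (c i • E.N (p i w0) + _)
  rw [hc1 i rfl, zero_smul, zero_add]
  congr 1
  exact Finset.sum_congr rfl fun k hk => hc2 k (Finset.ne_of_mem_erase hk)

end Pool.Agent.DQX
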