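import Pool.Agent.DQX.Stmts

/-! DQX: XID, IND, INX, RTM, MGR, HFX, RGD -/

set_option autoImplicit false

namespace Pool.Agent.DQX

open CommonSlot

namespace XID_

theorem ad {M : Type} [AddCommGroup M] [Module (ZMod 2) M] (a : M) : a + a = 0 :=
  ZModModule.add_self a

theorem eq_of {M : Type} [AddCommGroup M] [Module (ZMod 2) M] {a b : M} (h : a + b = 0) :
    a = b := eq_of_add_eq_zero' h

variable {V B L C : Type} [AddCommGroup V] [Module (ZMod 2) V] [AddCommGroup B]
  [Module (ZMod 2) B] [AddCommGroup L] [Module (ZMod 2) L] [AddCommGroup C]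
  [Module (ZMod 2) C] (E : QX V B L C)

theorem cor_res (u v : V) : E.cor (E.q' (E.res u) (E.res v)) = 0 := by
  rw [E.proj, E.Nres, map_zero]

theorem cor_res' (w : L) (v : V) : E.cor (E.q' w (E.res v)) = E.q (E.N w) v := by
  rw [E.link'.symm, E.proj, E.link.symm]

theorem x_norm (w : L) : E.q E.x (E.N w) = 0 := by
  rw [← E.proj, E.resx, map_zero, LinearMap.zero_apply, map_zero]

theorem qeq {a b c : V} (h : E.q a b = E.q a c) : E.q a (b + c) = 0 := by
  rw [map_add, h, ad]

variable {E}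

theorem comp_res {p : L →ₗ[ZMod 2] L} (hp : SF E p) {w0 : L} (hw : E.N w0 = E.x) :
    E.res (E.N (p w0)) = 0 := by
  rw [hp.comm, hw, E.resx, map_zero]

/-- the components of `cross`, on the other side -/
theorem cross' {p : L →ₗ[ZMod 2] L} (hp : SF E p) (w y : L) :
    E.q' w (p y) = E.q' (p w) (p y) := by
  rw [E.link'.symm, hp.spl.cross, E.link'.symm]

/-- Rosset-Tate with corestriction -/
theorem rt_cor (w y : L) : ∃ b c, E.q' (w + E.res b) (y + E.res c) = 0 ∧
    E.cor (E.q' w y) = E.q (E.N w) c + E.q b (E.N y) := by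
  obtain ⟨b, c, h⟩ := E.rt w y
  refine ⟨b, c, h, ?_⟩
  have h2 := congrArg E.cor h
  simp only [map_add, LinearMap.add_apply, map_zero] at h2
  rw [cor_res E b c, add_zero, cor_res', E.proj] at h2
  apply eq_of
  rw [← h2]; abel

end XID_

open XID_

theorem rgd_proof : Stmt_RGD := by
  intro V B _ _ _ _ q e hq p τ hp hE w y hw h
  rcases zm (τ y) with h0 | h1
  · left
    exact hE.ext w y 0 0 hw h0 (map_zero τ) (map_zero τ) (by rw [h, map_zero, map_zero])
  · right
    have h2 : p (y + w + e) = 0 := by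
      refine hE.ext w (y + w + e) 0 0 hw ?_ (map_zero τ) (map_zero τ) ?_
      · rw [map_add, map_add, h1, hw, hE.eta, add_zero]; rfl
      · rw [map_zero, map_zero, map_add, map_add, map_add, map_add, h, zero_add, hq.diag (p w),
          hp.cross w e, ad]
    rw [map_add, map_add, add_assoc] at h2
    exact eq_of h2

theorem xid_proof : Stmt_XID := by
  intro V B L C _ _ _ _ _ _ _ _ E r hr
  constructor
  · intro v hv
    obtain ⟨w, rfl⟩ := E.norm v hv
    rw [← E.proj, hr, map_zero, LinearMap.zero_apply, map_zero]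
  · intro v
    obtain ⟨y, hy⟩ := E.kq r v (by rw [hr, map_zero, LinearMap.zero_apply])
    obtain ⟨u, h1, h2⟩ := E.link.link _ _ _ _ hy
    exact ⟨u, h2, h1⟩

theorem ind_proof (hLM1 : Stmt_LM1) : Stmt_IND := by
  intro V B L C _ _ _ _ _ _ _ _ E hE p hp s w h
  obtain ⟨f, hf⟩ := E.np s w h
  have h1 := hp.spl.zero _ _ hf
  rw [map_add, map_add] at h1
  have h2 : E.q' (p (E.res s)) (p w) = E.q' (p (E.res s)) (p (E.res f)) := eq_of h1
  have h3 : E.q s (E.N (p w)) = E.cor (E.q' (p (E.res s)) (p w)) := by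
    rw [← E.proj, cross' hp]
  rw [h3, h2, ← hp.spl.cross, cor_res', hLM1 V B L C E hE p hp s, map_zero, LinearMap.zero_apply]

theorem inx_proof (hSPC : Stmt_SPC) (hXID : Stmt_XID) (hIND : Stmt_IND) : Stmt_INX := by
  intro V B L C _ _ _ _ _ _ _ _ E hE p w0 hp hw z v u h
  obtain ⟨s, h1, h2⟩ := E.link.link _ _ _ _ h
  have h3 : E.q s (E.N (p z + w0)) = 0 := by
    rw [map_add, map_add, E.link.symm s, E.link.symm s, hw, h1, h2, ad]
  have h4 := hIND V B L C E hE _ (hSPC V B L C E p hp) s _ h3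
  have h5 : (LinearMap.id + p : L →ₗ[ZMod 2] L) (p z + w0) = w0 + p w0 := by
    rw [LinearMap.add_apply, LinearMap.id_apply, map_add, hp.spl.idem]
    rw [show p z + w0 + (p z + p w0) = (p z + p z) + (w0 + p w0) by abel, ad, zero_add]
  rw [h5, map_add, map_add, hw] at h4
  have h6 : E.q (E.N (p w0)) s = E.q E.x s := by
    rw [E.link.symm _ s, E.link.symm _ s]; exact (eq_of h4).symm
  have h7 : E.q E.x (u + s) = 0 := by rw [map_add, h2, h, ad]
  have h8 := (hXID V B L C E (E.N (p w0)) (comp_res hp hw)).1 _ h7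
  rw [map_add] at h8
  rw [eq_of h8, h6, h2, h]

theorem rtm_proof : Stmt_RTM := by
  intro V B L C _ _ _ _ _ _ _ _ E m m' h h'
  obtain ⟨b, c, _, h2⟩ := rt_cor (E := E) m m'
  rw [h2, h, h', map_zero, map_zero, LinearMap.zero_apply, add_zero]

theorem mgr_proof (hIND : Stmt_IND) : Stmt_MGR := by
  intro V B L C _ _ _ _ _ _ _ _ E hE p hp m h
  apply hE.nd
  intro u
  rw [E.link.symm]
  exact hIND V B L C E hE p hp u m (by rw [h, map_zero])

theorem hfx_proof (hXID : Stmt_XID) (hMGR : Stmt_MGR) : Stmt_HFX := by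
  intro V B L C _ _ _ _ _ _ _ _ E hE p w0 hp hw m h
  obtain ⟨b, c, _, h2⟩ := rt_cor (E := E) (p w0) (p m)
  rw [hMGR V B L C E hE p hp m h, map_zero, add_zero] at h2
  obtain ⟨u, h3, h4⟩ := (hXID V B L C E (E.N (p w0)) (comp_res hp hw)).2 c
  refine ⟨u, ?_, ?_⟩
  · rw [cross' hp, h2, h3]
  · rw [h4, h3]

end Pool.Agent.DQX
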