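import Pool.Agent.DQX.Stmts

/-!
DQX, module XST: `ker res` is spanned by the components of `x`.
-/

set_option autoImplicit false

namespace Pool.Agent.DQX

open CommonSlot

theorem xst_proof (hXID : Stmt_XID) (hMGR : Stmt_MGR) : Stmt_XST := by
  intro V B L C _ _ _ _ _ _ _ _ E ι _ _ p w0 hR hw0 hD hS hB
  have hxx : E.q E.x E.x = 0 := by
    have h := E.proj E.x w0
    rw [E.resx, hw0, map_zero, LinearMap.zero_apply, map_zero] at h
    exact h.symm
  constructor
  · intro r hr
    have h1 := (hXID V B L C E r hr).1 E.x hxx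
    rw [E.link.symm] at h1
    obtain ⟨y, rfl⟩ := E.norm r h1
    have hk : ∀ k, ∃ c : ZMod 2, E.N (p k y) = c • E.N (p k w0) := by
      intro k
      rcases (hB k).fx y (by rw [(hS k).comm, hr, map_zero]) with h | h
      · exact ⟨0, by rw [h, zero_smul]⟩
      · exact ⟨1, by rw [h, one_smul]⟩
    choose c hc using hk
    refine ⟨c, ?_⟩
    conv_lhs => rw [← hD.sum y]
    rw [map_sum]
    exact Finset.sum_congr rfl fun k _ => hc k
  · intro c hc i
    have h := hMGR V B L C E hR (p i) (hS i) (∑ k, c k • p k w0) (by
      rw [map_sum, ← hc]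
      exact Finset.sum_congr rfl fun k _ => map_smul _ _ _)
    have h2 : p i (∑ k, c k • p k w0) = c i • p i w0 := by
      rw [map_sum, Finset.sum_eq_single i]
      · rw [map_smul, (hS i).spl.idem]
      · intro k _ hk
        rw [map_smul, hD.orth i k hk.symm, smul_zero]
      · intro h
        exact absurd (Finset.mem_univ i) h
    rw [h2, map_smul] at h
    exact h

end Pool.Agent.DQX
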