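import Pool.Agent.DQX.StmtsZ

set_option autoImplicit false

namespace Pool.Agent.DQX

open CommonSlot Pool.Agent.EWG

theorem zfr_proof : Stmt_ZFR := by
  intro V B L C V1 L1 _ _ _ _ _ _ _ _ _ _ _ _ E E1 πV πL ZV ZL p p' P h hRed hsV hsL hqV hqL
    hres hZV hZL hpp hpP hp0 hpp' hph hp0' hSP hSh hI
  have hadd : ∀ a b : L, p' a + p' b = 0 → p' a = p' b := fun a b hab => by
    have := add_eq_zero_iff_eq_neg.1 hab
    rwa [ZModModule.neg_eq_self] at this
  have eqv : ∀ a b : L, h (πL a) = h (πL b) → p' a = p' b := by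
    intro a b hab
    apply hadd
    rw [← map_add, hp0', map_add, map_add, hab, ZModModule.add_self]
  have h1 : ∀ v, p' (E.res v) = p' (E.res (p v)) := by
    intro v
    apply eqv
    rw [← hres, ← hres, hpP, hI.hP]
  refine ⟨h1, ?_, ?_, ?_⟩
  · intro w
    obtain ⟨v1, hv1⟩ := hI.surj (πL w)
    obtain ⟨v0, rfl⟩ := hsV v1
    refine ⟨p v0, hpp v0, ?_⟩
    rw [← h1]
    apply eqv
    rw [← hres, hv1]
  · intro v hv hv0
    rw [hp0', ← hres] at hv0
    have := hI.inj _ hv0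
    rw [← hp0] at this
    rw [← hv, this]
  · intro v w hv hw
    rw [← hZV, ← hZL, ← hqV, ← hqL, hph, hph, ← hres, ← hres, ← hI.iff, ← hpP, ← hpP, hv, hw]

end Pool.Agent.DQX
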