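import Pool.Agent.DQX.StmtsZ

/-!
DQX, module ZIN: from a decomposition in the sense of `ETG` to one modulo the radical.
-/

set_option autoImplicit false

namespace Pool.Agent.DQX

open CommonSlot Pool.Agent.EWG

theorem zin_two {L : Type} [AddCommGroup L] [Module (ZMod 2) L] (a : L) : a + a = 0 := by
  have h : (2 : ZMod 2) • a = a + a := two_smul _ a
  rw [← h, show (2 : ZMod 2) = 0 from rfl, zero_smul]

theorem zin_eq {L : Type} [AddCommGroup L] [Module (ZMod 2) L] {a b : L} (h : a + b = 0) :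
    a = b := by
  have h1 := congrArg (· + b) h
  simp only [add_assoc, zin_two, add_zero, zero_add] at h1
  exact h1

theorem zin_proof (hRIG : Stmt_RIG) (hZLC : Stmt_ZLC) : Stmt_ZIN := by
  intro L L1 C _ _ _ _ _ _ q q1 π Z k D hl hnd hsurj hq hZ hOS
  -- the kernel of `π` is killed by the projections
  have hker : ∀ j w, π w = 0 → D.p j w = 0 := by
    intro j w hw
    apply D.nd j w
    intro y
    apply D.ind
    rw [← hZ, ← hq, hw, map_zero, LinearMap.zero_apply]
  obtain ⟨σ, hσ⟩ := LinearMap.exists_rightInverse_of_surjective π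
    (LinearMap.range_eq_top.mpr hsurj)
  have hσ' : ∀ w, π (σ w) = w := fun w => by
    have := congrArg (fun f => f w) hσ
    simpa using this
  have hc : ∀ j w, (π ∘ₗ D.p j ∘ₗ σ) (π w) = π (D.p j w) := by
    intro j w
    simp only [LinearMap.comp_apply]
    have h1 : D.p j (σ (π w) + w) = 0 := by
      apply hker
      rw [map_add, hσ', zin_two]
    rw [map_add] at h1
    rw [zin_eq h1]
  set c : Fin k → (L1 →ₗ[ZMod 2] L1) := fun j => π ∘ₗ D.p j ∘ₗ σ with hcdef
  have hcj : ∀ j w, c j (π w) = π (D.p j w) := hc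
  have hspl : ∀ j, Spl q1 (c j) := by
    intro j
    refine ⟨fun w => ?_, fun w y => ?_, fun w y h => ?_⟩
    · obtain ⟨v, rfl⟩ := hsurj w
      rw [hcj, hcj, D.idem]
    · obtain ⟨v, rfl⟩ := hsurj w
      obtain ⟨u, rfl⟩ := hsurj y
      rw [hcj, hcj, hq, hq]
      have h1 := (hZ _ _).mpr (D.perp j v u)
      rw [map_add] at h1
      exact zin_eq h1
    · obtain ⟨v, rfl⟩ := hsurj w
      obtain ⟨u, rfl⟩ := hsurj y
      rw [hcj, hcj, hq]
      rw [hq, hZ] at h
      exact (hZ _ _).mpr (D.ind v u h j)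
  have hne : ∀ j, ∃ w, c j w ≠ 0 := by
    intro j
    obtain ⟨v, hv⟩ := D.ne j
    refine ⟨π v, fun h => hv ?_⟩
    rw [hcj] at h
    have h1 := hker j _ h
    rwa [D.idem] at h1
  have hdec : Dec q1 (Fin k) c := by
    refine ⟨hspl, fun i j hij w => ?_, fun w => ?_⟩
    · obtain ⟨v, rfl⟩ := hsurj w
      rw [hcj, hcj, D.orth i j hij, map_zero]
    · obtain ⟨v, rfl⟩ := hsurj w
      have h1 : ∑ i, c i (π v) = π (∑ i, D.p i v) := by
        rw [map_sum]
        exact Finset.sum_congr rfl (fun i _ => hcj i v)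
      rw [h1]
      have h2 : π v + π (∑ i, D.p i v) = 0 := by
        apply hnd
        intro y
        obtain ⟨u, rfl⟩ := hsurj y
        rw [← map_add, hq, hZ]
        exact D.rad v u
      exact (zin_eq h2).symm
  refine ⟨c, hcj, hdec, fun j => ?_, hne⟩
  rcases hOS j with h | ⟨t, ht, ht0, hr⟩
  · left
    refine hZLC L1 C q1 hl hnd (c j) (hspl j) (hne j) ?_
    intro v w w'
    obtain ⟨v, rfl⟩ := hsurj v
    obtain ⟨w, rfl⟩ := hsurj w
    obtain ⟨w', rfl⟩ := hsurj w'
    rw [hcj, ← map_add π, hq, hq, hq, hZ, hZ, hZ]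
    exact h v w w'
  · right
    refine hRIG L1 C q1 0 hl (c j) (π t) (hspl j) (map_zero _) ?_ ?_ ?_
    · rw [hcj, ht]
    · by_contra hcon
      push Not at hcon
      apply ht0
      rw [← ht]
      apply D.nd j t
      intro w
      rw [ht, ← hZ, ← hq]
      exact hcon _
    · intro v hv
      obtain ⟨v, rfl⟩ := hsurj v
      rw [hcj] at hv ⊢
      rw [hq, hZ] at hv
      rcases hr v hv with h | h
      · left; rw [h, map_zero]
      · right; rw [h]

end Pool.Agent.DQX
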