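import Pool.Agent.DQX.StmtsZ

/-!
DQX, module ZLC.
-/

set_option autoImplicit false

namespace Pool.Agent.DQX

open CommonSlot

theorem zlc_proof : Stmt_ZLC := by
  intro L C _ _ _ _ q hl hnd p hp hex h
  -- any two nonzero values with the same first slot are equal
  have key : ∀ v w w', q (p v) w ≠ 0 → q (p v) w' ≠ 0 → q (p v) w = q (p v) w' := by
    intro v w w' h1 h2
    rcases h v w w' with h3 | h3 | h3
    · exact absurd h3 h1
    · exact absurd h3 h2
    · rw [map_add] at h3
      rw [← add_zero (q (p v) w), ← ZModModule.add_self (q (p v) w'), ← add_assoc, h3, zero_add]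
  have key2 : ∀ v v' w w', q (p v) w ≠ 0 → q (p v') w' ≠ 0 → q (p v) w = q (p v') w' := by
    intro v v' w w' h1 h2
    by_cases h3 : q (p v') w = 0
    · by_cases h4 : q (p v) w' = 0
      · have h5 : q (p (v + v')) w = q (p v) w := by
          rw [map_add, map_add, LinearMap.add_apply, h3, add_zero]
        have h6 : q (p (v + v')) w' = q (p v') w' := by
          rw [map_add, map_add, LinearMap.add_apply, h4, zero_add]
        rw [← h5, ← h6]
        exact key _ _ _ (by rw [h5]; exact h1) (by rw [h6]; exact h2)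
      · rw [key v w w' h1 h4]
        have e1 : q (p v) w' = q (p w') (p v) := by rw [hp.cross, hl.symm]
        have e2 : q (p v') w' = q (p w') (p v') := by rw [hp.cross, hl.symm]
        rw [e1, e2]
        exact key _ _ _ (by rw [← e1]; exact h4) (by rw [← e2]; exact h2)
    · rw [key v' w' w h2 h3]
      have e1 : q (p v) w = q (p w) (p v) := by rw [hp.cross, hl.symm]
      have e2 : q (p v') w = q (p w) (p v') := by rw [hp.cross, hl.symm]
      rw [e1, e2]
      exact key _ _ _ (by rw [← e1]; exact h1) (by rw [← e2]; exact h3)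
  obtain ⟨v, hv⟩ := hex
  have : ∃ w, q (p v) w ≠ 0 := by
    by_contra hc
    push Not at hc
    exact hv (hnd _ hc)
  obtain ⟨w, hw⟩ := this
  refine ⟨q (p v) w, hw, ⟨v, w, (hp.cross v w).symm⟩, fun a b => ?_⟩
  by_cases h0 : q (p a) (p b) = 0
  · exact Or.inl h0
  · exact Or.inr (key2 _ _ _ _ h0 hw)

end Pool.Agent.DQX
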