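import Pool.Agent.DQX.StmtsZ

/-!
ZOU: from a decomposition modulo the radical to one in the sense of `ETG`.
-/

set_option autoImplicit false

namespace Pool.Agent.DQX

open CommonSlot Pool.Agent.EWG

theorem zou_proof (hRGD : Stmt_RGD) : Stmt_ZOU := by
  intro V V1 B _ _ _ _ _ _ q q1 π Z k P hl hnd hsur hq hZ hdec htyp hne
  obtain ⟨sec, hsec⟩ := π.exists_rightInverse_of_surjective (LinearMap.range_eq_top.2 hsur)
  have hs : ∀ v, π (sec v) = v := fun v => LinearMap.congr_fun hsec v
  have hb : ∀ (v w : V), q v w = 0 ↔ q1 (π v) (π w) = 0 := fun v w => by rw [hq]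
  have hcr : ∀ j v w, q1 (P j v) w = q1 (P j v) (P j w) := fun j v w => (hdec.spl j).cross v w
  have hpz : ∀ j v, sec (P j (π v)) = 0 ↔ P j (π v) = 0 := fun j v =>
    ⟨fun h => by rw [← hs (P j (π v)), h, map_zero], fun h => by rw [h, map_zero]⟩
  refine ⟨⟨fun j => sec ∘ₗ P j ∘ₗ π, ?_, ?_, ?_, ?_, ?_, ?_, ?_⟩, ?_, ?_⟩
  · intro j v
    simp only [LinearMap.comp_apply]
    rw [hs, (hdec.spl j).idem]
  · intro i j hij v
    simp only [LinearMap.comp_apply]
    rw [hs, hdec.orth i j hij, map_zero]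
  · intro j v w
    simp only [LinearMap.comp_apply]
    rw [← hZ, hb, map_add, hs, hs, map_add, hcr j _ (π w), ZModModule.add_self]
  · intro v w
    rw [← hZ, hb]
    have h1 : π (v + ∑ j, (sec ∘ₗ P j ∘ₗ π) v) = 0 := by
      rw [map_add, map_sum]
      have h2 : ∑ j, π ((sec ∘ₗ P j ∘ₗ π) v) = ∑ j, P j (π v) :=
        Finset.sum_congr rfl fun j _ => by
          simp only [LinearMap.comp_apply]
          rw [hs]
      rw [h2, hdec.sum, ZModModule.add_self]
    rw [h1, map_zero, LinearMap.zero_apply]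
  · intro v w hvw j
    simp only [LinearMap.comp_apply]
    rw [← hZ, hb] at hvw
    rw [← hZ, hb, hs, hs]
    exact (hdec.spl j).zero _ _ hvw
  · intro j v hv
    simp only [LinearMap.comp_apply] at hv ⊢
    rw [hpz]
    apply hnd
    intro y
    obtain ⟨w, rfl⟩ := hsur y
    have h1 := hv w
    rw [← hZ, hb, hs, hs] at h1
    rw [hcr]
    exact h1
  · intro j
    obtain ⟨w1, hw1⟩ := hne j
    obtain ⟨w, rfl⟩ := hsur w1
    refine ⟨w, fun h => hw1 ((hpz j w).1 h)⟩
  · intro j
    rcases htyp j with ⟨β, hβ, -, h2⟩ | ⟨τ, hτ⟩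
    · left
      intro v w w'
      change Z (sec (P j (π v))) w ∨ Z (sec (P j (π v))) w' ∨ Z (sec (P j (π v))) (w + w')
      rw [← hZ, ← hZ, ← hZ, hb, hb, hb, hs, map_add, map_add, hcr j _ (π w), hcr j _ (π w')]
      rcases h2 (π v) (π w) with h3 | h3
      · exact Or.inl h3
      · rcases h2 (π v) (π w') with h4 | h4
        · exact Or.inr (Or.inl h4)
        · right
          right
          rw [h3, h4, ZModModule.add_self]
    · right
      obtain ⟨t, ht⟩ := hτ.ex
      have hpt : P j t ≠ 0 := by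
        intro h
        have h1 := hτ.tp t
        rw [h, map_zero, ht] at h1
        exact zero_ne_one h1
      refine ⟨sec (P j t), ?_, ?_, ?_⟩
      · change sec (P j (π (sec (P j t)))) = _
        rw [hs, (hdec.spl j).idem]
      · intro h
        apply hpt
        rw [← hs (P j t), h, map_zero]
      · intro v hv
        change Z (sec (P j t)) (sec (P j (π v))) at hv
        change sec (P j (π v)) = 0 ∨ sec (P j (π v)) = sec (P j t)
        rw [← hZ, hb, hs, hs] at hv
        rcases hRGD V1 B q1 0 hl (P j) τ (hdec.spl j) hτ t (π v) ht hv with h1 | h1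
        · left
          rw [h1, map_zero]
        · right
          rw [h1, map_zero, add_zero]
  · intro j w
    change π (sec (P j (π w))) = P j (π w) ∧ (sec (P j (π w)) = 0 ↔ P j (π w) = 0)
    exact ⟨hs _, hpz j w⟩

end Pool.Agent.DQX
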