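import Pool.Agent.DQX.BFR
import Pool.Agent.DQX.BLO
import Pool.Agent.DQX.CEN
import Pool.Agent.DQX.COM
import Pool.Agent.DQX.DCM
import Pool.Agent.DQX.DES
import Pool.Agent.DQX.DSF
import Pool.Agent.DQX.EQP
import Pool.Agent.DQX.EX1
import Pool.Agent.DQX.EX2
import Pool.Agent.DQX.EX3
import Pool.Agent.DQX.EX4
import Pool.Agent.DQX.EX5
import Pool.Agent.DQX.EX6
import Pool.Agent.DQX.FE1
import Pool.Agent.DQX.FE2
import Pool.Agent.DQX.FFR
import Pool.Agent.DQX.FFT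
import Pool.Agent.DQX.FLO
import Pool.Agent.DQX.GRA
import Pool.Agent.DQX.IDC
import Pool.Agent.DQX.LC1
import Pool.Agent.DQX.LC2
import Pool.Agent.DQX.LC3
import Pool.Agent.DQX.LEA
import Pool.Agent.DQX.LEB
import Pool.Agent.DQX.LEX
import Pool.Agent.DQX.LM1
import Pool.Agent.DQX.LMZ
import Pool.Agent.DQX.LSC
import Pool.Agent.DQX.MUF
import Pool.Agent.DQX.PR1
import Pool.Agent.DQX.PR2
import Pool.Agent.DQX.RED
import Pool.Agent.DQX.RGN
import Pool.Agent.DQX.RIG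
import Pool.Agent.DQX.SAT
import Pool.Agent.DQX.SPC
import Pool.Agent.DQX.SPX
import Pool.Agent.DQX.SPY
import Pool.Agent.DQX.TYE
import Pool.Agent.DQX.VPN
import Pool.Agent.DQX.XID
import Pool.Agent.DQX.XST
import Pool.Agent.DQX.ZFR
import Pool.Agent.DQX.ZIN
import Pool.Agent.DQX.ZLC
import Pool.Agent.DQX.ZOU

/-! DQX: assembly of all modules. -/

set_option autoImplicit false

namespace Pool.Agent.DQX

theorem a_sat : Stmt_SAT := sat_proof 
theorem a_tas : Stmt_TAS := tas_proof 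
theorem a_eqp : Stmt_EQP := eqp_proof 
theorem a_rgd : Stmt_RGD := rgd_proof 
theorem a_rig : Stmt_RIG := rig_proof a_sat a_tas
theorem a_spx : Stmt_SPX := spx_proof a_sat a_tas
theorem a_spy : Stmt_SPY := spy_proof 
theorem a_tye : Stmt_TYE := tye_proof 
theorem a_spc : Stmt_SPC := spc_proof 
theorem a_xid : Stmt_XID := xid_proof 
theorem a_lm1 : Stmt_LM1 := lm1_proof a_xid
theorem a_ind : Stmt_IND := ind_proof a_lm1
theorem a_inx : Stmt_INX := inx_proof a_spc a_xid a_ind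
theorem a_rtm : Stmt_RTM := rtm_proof 
theorem a_mgr : Stmt_MGR := mgr_proof a_ind
theorem a_hfx : Stmt_HFX := hfx_proof a_xid a_mgr
theorem a_lmz : Stmt_LMZ := lmz_proof a_eqp
theorem a_lsc : Stmt_LSC := lsc_proof 
theorem a_bfr : Stmt_BFR := bfr_proof 
theorem a_lc1 : Stmt_LC1 := lc1_proof a_inx a_lmz
theorem a_lc2 : Stmt_LC2 := lc2_proof a_rtm a_lm1 a_lc1
theorem a_lc3 : Stmt_LC3 := lc3_proof a_xid a_lc1 a_lc2 a_lsc
theorem a_rgn : Stmt_RGN := rgn_proof a_rgd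
theorem a_ex0 : Stmt_EX0 := ex0_proof a_lm1 a_rgn
theorem a_ex1 : Stmt_EX1 := ex1_proof a_rgd a_xid a_lm1 a_inx a_lmz
theorem a_ex2 : Stmt_EX2 := ex2_proof a_rgd a_xid a_lm1 a_ex1 a_lsc
theorem a_ex3 : Stmt_EX3 := ex3_proof a_lm1 a_inx a_lmz a_rgn a_ex0
theorem a_ex4 : Stmt_EX4 := ex4_proof a_rgd a_sat a_xid a_rgn a_ex0 a_ex3
theorem a_ex5 : Stmt_EX5 := ex5_proof a_xid a_lm1 a_inx a_rgn
theorem a_ex6 : Stmt_EX6 := ex6_proof a_rgd a_xid a_lm1 a_rgn a_ex0 a_ex3 a_ex5 a_lsc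
theorem a_lex : Stmt_LEX := lex_proof 
theorem a_dcm : Stmt_DCM := dcm_proof 
theorem a_gra : Stmt_GRA := gra_proof a_xid a_lm1 a_ind a_mgr a_hfx
theorem a_xst : Stmt_XST := xst_proof a_xid a_mgr
theorem a_vpn : Stmt_VPN := vpn_proof 
theorem a_lea : Stmt_LEA := lea_proof a_xid a_ind a_inx
theorem a_leb : Stmt_LEB := leb_proof a_sat a_xid a_ind a_inx a_vpn
theorem a_muf : Stmt_MUF := muf_proof a_xid a_gra a_lex a_lea a_leb
theorem a_pr1 : Stmt_PR1 := pr1_proof a_gra a_xst a_muf a_dcm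
theorem a_pr2 : Stmt_PR2 := pr2_proof a_xid a_lea
theorem a_ffr : Stmt_FFR := ffr_proof a_eqp a_xid
theorem a_fft : Stmt_FFT := fft_proof a_eqp
theorem a_flo : Stmt_FLO := flo_proof a_eqp a_lc1 a_lc2 a_lm1
theorem a_fe1 : Stmt_FE1 := fe1_proof a_xid a_rig a_spx a_spy a_ex1
theorem a_fe2 : Stmt_FE2 := fe2_proof a_xid a_rgd a_tye a_ex0 a_ex3
theorem a_idc : Stmt_IDC := idc_proof a_rgd
theorem a_com : Stmt_COM := com_proof 
theorem a_cen : Stmt_CEN := cen_proof a_idc a_com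
theorem a_blo : Stmt_BLO := blo_proof 
theorem a_des : Stmt_DES := des_proof a_bfr a_lc1 a_lc3 a_ex1 a_ex2 a_ex3 a_ex4 a_ex5 a_ex6 a_pr1 a_pr2 a_ffr a_fft a_flo a_fe1 a_fe2 a_cen a_blo
theorem a_red : Stmt_RED := red_proof 
theorem a_zlc : Stmt_ZLC := zlc_proof 
theorem a_zin : Stmt_ZIN := zin_proof a_rig a_zlc
theorem a_zou : Stmt_ZOU := zou_proof a_rgd
theorem a_zfr : Stmt_ZFR := zfr_proof 

/-- **Descent**, from the field side. -/
theorem a_dsf (hQXF : Stmt_QXF) : ETG.Stmt_DSF :=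
  dsf_proof a_des a_red a_zin a_zou a_zfr hQXF

end Pool.Agent.DQX
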