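import Pool.Agent.DQX.XID

/-! DQX: BFR -/

set_option autoImplicit false

namespace Pool.Agent.DQX

open CommonSlot XID_

theorem bfr_proof : Stmt_BFR := by
  intro V B L C _ _ _ _ _ _ _ _ E hE p h w0 hp hF hw
  -- an element of the block with trivial norm class is `res N (h y)`
  have key : ∀ y, E.res (E.N (p y)) = 0 → p y = E.res (E.N (h y)) := by
    intro y hy
    have h1 : E.s (p y) = p y := by rw [QX.s_apply, hy, add_zero]
    have h2 : E.s (p y) = p (E.s y) := by
      rw [QX.s_apply, QX.s_apply, map_add, hp.comm]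
    have h3 := hF.conj y
    have h4 : h (E.s y) = h y := by
      rw [← hF.hp (E.s y), ← h2, h1, hF.hp]
    rw [← h2, h1, h4, QX.s_apply] at h3
    -- h y + res N (h y) = p y + h y
    have h5 : E.res (E.N (h y)) = p y := by
      have := h3
      rw [add_comm (p y)] at this
      exact add_left_cancel this
    exact h5.symm
  have key2 : ∀ y, E.res (E.N (p y)) = 0 → E.N (p y) = 0 := by
    intro y hy
    rw [key y hy, E.Nres]
  have hx : E.N (p w0) = 0 := key2 w0 (comp_res hp hw)
  refine ⟨hx, ?_, ?_, ?_⟩
  · intro m hm _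
    refine ⟨h m, ?_⟩
    rw [hF.ph]
    exact key m (by rw [hm, map_zero])
  · intro y hy
    exact Or.inl (key2 y hy)
  · intro h0
    exact absurd hx h0

end Pool.Agent.DQX
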