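import Pool.Agent.Lib_MP_d26ff6_al.Main

/-!
Descent of one step elementary type along a quadratic extension `K = F(√x)` with
`(x, -1) = 0`, arbitrary `-1`, no hypothesis on `I³` (problem MP_d26ff6_al): definitions.
Notes 1607, 1608, 1615, 1617, 1620.  Recipes: /team-store/MP_d26ff6_DQX.md

`V = F*/F*²`, `L = K*/K*²`, `q`, `q'` the symbols, `e = -1`, `res e = -1` in `K`,
`res` restriction, `N` norm, `cor` corestriction, `rs` restriction of symbols.
The conjugation of `K` is `s w = w + res (N w)`.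
-/

set_option autoImplicit false

namespace Pool.Agent.DQX

open CommonSlot

/-- A quadratic extension `K = F(√x)`. -/
structure QX (V B L C : Type) [AddCommGroup V] [Module (ZMod 2) V] [AddCommGroup B]
    [Module (ZMod 2) B] [AddCommGroup L] [Module (ZMod 2) L] [AddCommGroup C]
    [Module (ZMod 2) C] where
  q : V →ₗ[ZMod 2] V →ₗ[ZMod 2] B
  q' : L →ₗ[ZMod 2] L →ₗ[ZMod 2] C
  /-- the class of `-1` -/
  e : V
  res : V →ₗ[ZMod 2] L
  N : L →ₗ[ZMod 2] V
  cor : C →ₗ[ZMod 2] B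
  rs : B →ₗ[ZMod 2] C
  x : V
  /-- symmetric, `q a a = q a e`, linked -/
  link : IsLinked q e
  link' : IsLinked q' (res e)
  Nres : ∀ v, N (res v) = 0
  resx : res x = 0
  /-- `s w = w + res (N w)` is compatible with the symbol -/
  sq : ∀ w y, q' w y = 0 → q' (w + res (N w)) (y + res (N y)) = 0
  /-- elements orthogonal to `x` are norms -/
  norm : ∀ v, q x v = 0 → ∃ w, N w = v
  /-- projection formula -/
  proj : ∀ v w, cor (q' (res v) w) = q v (N w)
  rsq : ∀ u v, rs (q u v) = q' (res u) (res v)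
  /-- kernel of the restriction on symbols -/
  kq : ∀ u v, q' (res u) (res v) = 0 → ∃ y, q u v = q x y
  /-- norm principle -/
  np : ∀ v w, q v (N w) = 0 → ∃ f, q' (res v) (w + res f) = 0
  /-- Rosset-Tate -/
  rt : ∀ w y, ∃ b c, q' (w + res b) (y + res c) = 0
  /-- norm principle for two-fold Pfister forms -/
  np3 : ∀ u v w y y', q' (res u) (res v) = q' y y' → q' w y = 0 →
    ∃ a b, q u v = q a b ∧ q a (N w) = 0

section
variable {L C : Type} [AddCommGroup L] [Module (ZMod 2) L] [AddCommGroup C] [Module (ZMod 2) C]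

/-- nondegenerate -/
def ND (q' : L →ₗ[ZMod 2] L →ₗ[ZMod 2] C) : Prop := ∀ w, (∀ y, q' w y = 0) → w = 0

/-- `p` is the projection onto a direct factor -/
structure Spl (q' : L →ₗ[ZMod 2] L →ₗ[ZMod 2] C) (p : L →ₗ[ZMod 2] L) : Prop where
  idem : ∀ w, p (p w) = p w
  cross : ∀ w y, q' (p w) y = q' (p w) (p y)
  zero : ∀ w y, q' w y = 0 → q' (p w) (p y) = 0

/-- factor of local type (`p` the projection): the symbols have the two values `0`, `β` -/
def Loc (q' : L →ₗ[ZMod 2] L →ₗ[ZMod 2] C) (p : L →ₗ[ZMod 2] L) : Prop :=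
  ∃ β : C, β ≠ 0 ∧ (∃ w y, q' (p w) (p y) = β) ∧ ∀ w y, q' (p w) (p y) = 0 ∨ q' (p w) (p y) = β

/-- factor which is a group extension `H[t]` (`p` the projection, `H` the kernel of `τ` in the
factor, `η` the class of `-1`), `H ≠ {0, η}` -/
structure Ext (q' : L →ₗ[ZMod 2] L →ₗ[ZMod 2] C) (η : L) (p : L →ₗ[ZMod 2] L)
    (τ : L →ₗ[ZMod 2] ZMod 2) : Prop where
  tp : ∀ w, τ (p w) = τ w
  ex : ∃ t, τ t = 1
  eta : τ η = 0
  ext : ∀ t h h1 h2, τ t = 1 → τ h = 0 → τ h1 = 0 → τ h2 = 0 →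
    q' (p t) (p h) = q' (p h1) (p h2) → p h = 0
  big : ∃ h, τ h = 0 ∧ p h ≠ 0 ∧ p h ≠ p η

/-- local type or group extension -/
def Typ (q' : L →ₗ[ZMod 2] L →ₗ[ZMod 2] C) (η : L) (p : L →ₗ[ZMod 2] L) : Prop :=
  Loc q' p ∨ ∃ τ, Ext q' η p τ

/-- a decomposition into factors; the projections are `p i` -/
structure Dec (q' : L →ₗ[ZMod 2] L →ₗ[ZMod 2] C) (ι : Type) [Fintype ι]
    (p : ι → (L →ₗ[ZMod 2] L)) : Prop where
  spl : ∀ i, Spl q' (p i)
  orth : ∀ i j, i ≠ j → ∀ w, p i (p j w) = 0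
  sum : ∀ w, ∑ i, p i w = w

end

section
variable {V B L C : Type} [AddCommGroup V] [Module (ZMod 2) V] [AddCommGroup B]
  [Module (ZMod 2) B] [AddCommGroup L] [Module (ZMod 2) L] [AddCommGroup C] [Module (ZMod 2) C]

/-- the conjugation of `K` -/
def QX.s (E : QX V B L C) : L →ₗ[ZMod 2] L := LinearMap.id + E.res ∘ₗ E.N

theorem QX.s_apply (E : QX V B L C) (w : L) : E.s w = w + E.res (E.N w) := rfl

/-- `K/F` modulo the radicals -/
structure QX.Red (E : QX V B L C) : Prop where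
  nd : ND E.q
  nd' : ND E.q'

/-- a factor stable under conjugation -/
structure SF (E : QX V B L C) (p : L →ₗ[ZMod 2] L) : Prop where
  spl : Spl E.q' p
  /-- `p` commutes with the conjugation -/
  comm : ∀ w, E.res (E.N (p w)) = p (E.res (E.N w))

/-- `p` is the projection onto the product of two factors exchanged by the conjugation,
`h` the projection onto the first of the two -/
structure Fre (E : QX V B L C) (p h : L →ₗ[ZMod 2] L) : Prop where
  spl : Spl E.q' h
  ph : ∀ w, p (h w) = h w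
  hp : ∀ w, h (p w) = h w
  /-- `s h s = p + h` -/
  conj : ∀ w, E.s (h w) = p (E.s w) + h (E.s w)

/-- the part `V^p = {v : res v in the factor p}` -/
def VP (E : QX V B L C) (p : L →ₗ[ZMod 2] L) (v : V) : Prop := p (E.res v) = E.res v

/-- what we need of a stable factor `p` (here `N w0 = x`) -/
structure BlkOK (E : QX V B L C) (w0 : L) (p : L →ₗ[ZMod 2] L) : Prop where
  /-- the kernel of `h` -/
  hj : ∀ m, E.N (p m) = 0 → E.cor (E.q' w0 (p m)) = 0 → ∃ z, p m = E.res (E.N (p z))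
  /-- elements fixed by the conjugation -/
  fx : ∀ y, E.res (E.N (p y)) = 0 → E.N (p y) = 0 ∨ E.N (p y) = E.N (p w0)
  /-- the scalar lemma -/
  sc : E.N (p w0) ≠ 0 → (∀ v, ∃ v', E.res v' = p (E.res v)) → ∀ Φ : V →ₗ[ZMod 2] B,
    (∀ v, VP E p v → E.q E.x v = 0 → Φ v = 0) →
    (∀ v, VP E p v → ∃ a g, E.q E.x g = 0 ∧ Φ v = E.q (E.N (p a)) (v + g) ∧
      E.q' (E.res (E.N (p a))) (p (E.res (v + g))) = 0) →
    ∃ l : ZMod 2, ∀ v, VP E p v → Φ v = l • E.q E.x v

/-- matching factors of `F` and `K` -/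
structure Fct (E : QX V B L C) (P : V →ₗ[ZMod 2] V) (p : L →ₗ[ZMod 2] L) : Prop where
  splP : Spl E.q P
  sf : SF E p
  resP : ∀ v, E.res (P v) = p (E.res v)
  NP : ∀ w, P (E.N w) = E.N (p w)

/-- `v ↦ h (res v)` is an isomorphism of the factor `P` of `F` onto the factor `h` of `K` -/
structure Iso (E : QX V B L C) (P : V →ₗ[ZMod 2] V) (h : L →ₗ[ZMod 2] L) : Prop where
  hP : ∀ v, h (E.res (P v)) = h (E.res v)
  inj : ∀ v, h (E.res v) = 0 → P v = 0
  surj : ∀ w, ∃ v, h (E.res v) = h w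
  iff : ∀ v u, E.q (P v) (P u) = 0 ↔ E.q' (h (E.res v)) (h (E.res u)) = 0

end

end Pool.Agent.DQX
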