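import Pool.Agent.DQX.Stmts

set_option autoImplicit false

namespace Pool.Agent.DQX

open CommonSlot

theorem fft_proof (hEQP : Stmt_EQP) : Stmt_FFT := by
  intro V B L C _ _ _ _ _ _ _ _ E hRed P p h hF hFre hI hcor hT
  rcases hT with ⟨β, hβ, ⟨w, y, hwy⟩, hval⟩ | ⟨τ, hτ⟩
  · left
    refine ⟨E.cor β, ?_, ?_, ?_⟩
    · obtain ⟨v, hv⟩ := hI.surj w
      obtain ⟨u, hu⟩ := hI.surj y
      intro h0
      have h1 := hcor v u
      rw [hv, hu, hwy, h0] at h1
      have h2 := (hI.iff v u).1 h1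
      rw [hv, hu, hwy] at h2
      exact hβ h2
    · obtain ⟨v, hv⟩ := hI.surj w
      obtain ⟨u, hu⟩ := hI.surj y
      refine ⟨v, u, ?_⟩
      rw [hcor, hv, hu, hwy]
    · intro v u
      rw [hcor]
      rcases hval (E.res v) (E.res u) with h1 | h1
      · left; rw [h1, map_zero]
      · right; rw [h1]
  · right
    have htau : ∀ v, τ (E.res (P v)) = τ (E.res v) := by
      intro v
      rw [← hτ.tp (E.res (P v)), hI.hP v, hτ.tp]
    refine ⟨τ ∘ₗ E.res, ?_, ?_, ?_, ?_, ?_⟩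
    · intro v
      exact htau v
    · obtain ⟨t, ht⟩ := hτ.ex
      obtain ⟨v, hv⟩ := hI.surj t
      refine ⟨v, ?_⟩
      show τ (E.res v) = 1
      rw [← hτ.tp, hv, hτ.tp, ht]
    · exact hτ.eta
    · intro t k k1 k2 ht hk hk1 hk2 hq
      have h1 : E.q' (E.res (P t)) (E.res (P k)) = E.q' (E.res (P k1)) (E.res (P k2)) := by
        rw [← E.rsq, ← E.rsq, hq]
      have h2 := hEQP L C E.q' (E.res E.e) E.link' h hFre.spl _ _ _ _ h1
      rw [hI.hP, hI.hP, hI.hP, hI.hP] at h2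
      exact hI.inj k (hτ.ext _ _ _ _ ht hk hk1 hk2 h2)
    · obtain ⟨w, hw0, hw1, hw2⟩ := hτ.big
      obtain ⟨v, hv⟩ := hI.surj w
      refine ⟨v, ?_, ?_, ?_⟩
      · show τ (E.res v) = 0
        rw [← hτ.tp, hv, hτ.tp, hw0]
      · intro h0
        apply hw1
        rw [← hv, ← hI.hP, h0, map_zero, map_zero]
      · intro h0
        apply hw2
        rw [← hv, ← hI.hP, h0, hI.hP]

end Pool.Agent.DQX
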