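import Pool.Agent.DQX.QXF
import Pool.Agent.EWH.All

/-!
DQX: the field module `Stmt_QXF`, assembled.
-/

set_option autoImplicit false

namespace Pool.Agent.DQX

theorem q_qxf : Stmt_QXF :=
  qxf_proof EWH.q_rel EWH.q_slk EWH.q_bil EWH.q_map EWH.q_rtq EWH.q_trn EWH.q_tpf EWH.q_rtd
    EWH.q_npr EWH.q_np3 EWH.q_krs EWH.q_vkr EWH.q_alb EWH.q_qbl EWH.q_fin EWH.q_cmp

end Pool.Agent.DQX
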