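import Pool.Agent.DQX.All
import Pool.Agent.DQX.QXFA

/-! DQX: the descent statement for fields, without hypotheses. -/

set_option autoImplicit false

namespace Pool.Agent.DQX

/-- **Descent for fields.** -/
theorem dsf : ETG.Stmt_DSF := a_dsf q_qxf

end Pool.Agent.DQX
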