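import Pool.Agent.DQX.StmtsZ
import Pool.Agent.EWH.FX

/-!
DQX, module QXF: the datum of a quadratic extension of fields (from the squad EWH).
-/

set_option autoImplicit false

namespace Pool.Agent.DQX

open Pool.Agent.EWG (VV vm iu QD vm_surj vm_eq_zero vm_one vm_mul vm_add_self)

namespace QXF_

/-- the datum `QX` of a quadratic extension of fields, arbitrary `-1` -/
def toQX {F K : Type} [Field F] [Field K] [Algebra F K] {E : QD F K} (X : EWH.FX E) :
    QX (VV F) (EWH.BQ F) (VV K) (EWH.BQ K) where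
  q := X.q
  q' := X.Q
  e := vm (-1)
  res := X.res
  N := X.N
  cor := X.cor
  rs := X.rb
  x := vm E.x
  link := ⟨X.q_symm, X.q_self, X.q_link⟩
  link' := ⟨X.Q_symm, fun w => by
    rw [X.Q_self, X.res_vm]
    congr 1
    have : (iu F (-1 : Fˣ) : Kˣ) = -1 := by
      apply Units.ext
      rw [EWG.iu_coe]
      simp
    rw [this], X.Q_link⟩
  Nres := X.N_res
  resx := (X.ker_res _).2 (Or.inr rfl)
  sq := fun w y h => by
    have e : ∀ w, w + X.res (X.N w) = X.σ w := by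
      intro w
      rw [X.res_N, ← add_assoc, vm_add_self, zero_add]
    rw [e, e, ← X.sC_Q, h, map_zero]
  norm := fun v h => (X.im_N v).1 h
  proj := fun v w => by rw [X.Q_symm, X.cor_Q, X.q_symm]
  rsq := X.rb_q
  kq := fun u v h => (X.F3 u v).1 h
  np := X.F4
  rt := X.F5
  np3 := fun u v w y y' h h' => X.F6 u v y y' w h h'

theorem neg_one {K : Type} [Field K] (hK : EWG.Good K) : vm (-1 : Kˣ) = 0 := by
  rw [vm_eq_zero]
  obtain ⟨i, hi⟩ := hK.neg
  have h0 : i ≠ 0 := by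
    intro h
    rw [h] at hi
    apply neg_ne_zero.2 (one_ne_zero (α := K))
    rw [← hi]
    ring
  refine ⟨Units.mk0 i h0, Units.ext ?_⟩
  rw [Units.val_mul, Units.val_mk0, ← pow_two, hi]
  simp

end QXF_

/-- QXF from the modules of EWH. -/
theorem qxf_proof (hREL : EWH.Stmt_REL) (hSLK : EWH.Stmt_SLK) (hBIL : EWH.Stmt_BIL)
    (hMAP : EWH.Stmt_MAP) (hRTQ : EWH.Stmt_RTQ) (hTRN : EWH.Stmt_TRN) (hTPF : EWH.Stmt_TPF)
    (hRTD : EWH.Stmt_RTD) (hNPR : EWH.Stmt_NPR) (hNP3 : EWH.Stmt_NP3) (hKRS : EWH.Stmt_KRS)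
    (hVKR : EWH.Stmt_VKR) (hALB : EWH.Stmt_ALB) (hQBL : EWH.Stmt_QBL) (hFIN : EWH.Stmt_FIN)
    (hCMP : EWH.Stmt_CMP) : Stmt_QXF := by
  intro F K _ _ _ hF E
  have hK : EWG.Good K := EWG.Good.map (algebraMap F K) hF
  obtain ⟨X⟩ := EWH.fx_proof hREL hSLK hBIL hMAP hRTQ hTRN hTPF hRTD hNPR hNP3 hKRS hVKR hALB
    hQBL F K hF.two E
  refine ⟨fun h => hFIN F hF.two h K E, EWH.BQ F, EWH.BQ K, inferInstance, inferInstance,
    inferInstance, inferInstance, QXF_.toQX X, QXF_.neg_one hF, rfl, ?_, ?_, ?_⟩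
  · intro v
    obtain ⟨a, rfl⟩ := vm_surj v
    rw [ETG.rv_vm]
    exact X.res_vm a
  · intro v w
    constructor
    · rintro h a b rfl rfl
      exact ((hCMP F hF a b a b).2).2 ((X.q_zero a b).1 h)
    · intro h
      obtain ⟨a, rfl⟩ := vm_surj v
      obtain ⟨b, rfl⟩ := vm_surj w
      exact (X.q_zero a b).2 (((hCMP F hF a b a b).2).1 (h a b rfl rfl))
  · intro v w
    constructor
    · rintro h a b rfl rfl
      exact ((hCMP K hK a b a b).2).2 ((X.Q_zero a b).1 h)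
    · intro h
      obtain ⟨a, rfl⟩ := vm_surj v
      obtain ⟨b, rfl⟩ := vm_surj w
      exact (X.Q_zero a b).2 (((hCMP K hK a b a b).2).1 (h a b rfl rfl))

end Pool.Agent.DQX
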