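import Pool.Agent.DQX.Stmts

set_option autoImplicit false

namespace Pool.Agent.DQX

open CommonSlot

namespace RIG_

section

variable {U B : Type} [AddCommGroup U] [Module (ZMod 2) U] [AddCommGroup B] [Module (ZMod 2) B]

theorem two {M : Type} [AddCommGroup M] [Module (ZMod 2) M] (a : M) : a + a = 0 :=
  ZModModule.add_self a

theorem eq_of_add {M : Type} [AddCommGroup M] [Module (ZMod 2) M] {a b : M} (h : a + b = 0) :
    a = b := by
  have : a + b + b = b := by rw [h, zero_add]
  rwa [add_assoc, two, add_zero] at this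

theorem add_of_eq {M : Type} [AddCommGroup M] [Module (ZMod 2) M] {a b : M} (h : a = b) :
    a + b = 0 := by
  rw [h]; exact two b

theorem ql (q : U →ₗ[ZMod 2] U →ₗ[ZMod 2] B) (a b c : U) : q (a + b) c = q a c + q b c := by
  rw [map_add, LinearMap.add_apply]

theorem qr (q : U →ₗ[ZMod 2] U →ₗ[ZMod 2] B) (a b c : U) : q a (b + c) = q a b + q a c :=
  map_add _ _ _

/-- rigid elements -/
def Rg (q : U →ₗ[ZMod 2] U →ₗ[ZMod 2] B) (v : U) : Prop :=
  v ≠ 0 ∧ ∀ y, q v y = 0 → y = 0 ∨ y = v

theorem step1 (hSAT : Stmt_SAT) (hTAS : Stmt_TAS) (q : U →ₗ[ZMod 2] U →ₗ[ZMod 2] B)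
    (hq : IsLinked q 0) (t : U) (ht : Rg q t) (v : U) (hv0 : v ≠ 0) (hvt : v ≠ t) :
    Rg q v ∨ Rg q (v + t) := by
  have hsymm := hq.symm
  have halt : ∀ a, q a a = 0 := fun a => by rw [hq.diag, map_zero]
  by_contra hcon
  rw [not_or] at hcon
  obtain ⟨h1, h2⟩ := hcon
  have hvt0 : v + t ≠ 0 := fun h => hvt (eq_of_add h)
  have hc : q t v ≠ 0 := by
    intro h
    rcases ht.2 v h with h | h
    · exact hv0 h
    · exact hvt h
  have h1' : ∃ y, q v y = 0 ∧ y ≠ 0 ∧ y ≠ v := by
    by_contra hcon
    apply h1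
    refine ⟨hv0, fun y hy => ?_⟩
    by_contra h
    rw [not_or] at h
    exact hcon ⟨y, hy, h.1, h.2⟩
  have h2' : ∃ y, q (v + t) y = 0 ∧ y ≠ 0 ∧ y ≠ v + t := by
    by_contra hcon
    apply h2
    refine ⟨hvt0, fun y hy => ?_⟩
    by_contra h
    rw [not_or] at h
    exact hcon ⟨y, hy, h.1, h.2⟩
  obtain ⟨y, hy, hy0, hyv⟩ := h1'
  obtain ⟨y', hy', hy'0, hy'v⟩ := h2'
  -- `y + y'` is in `D(c)`
  have hDadd : ∀ z z' y1 y2 y1' y2', q y1 z = 0 → q y1 y2 = q t v → q y1' z' = 0 →
      q y1' y2' = q t v → ∃ a b, q a (z + z') = 0 ∧ q a b = q t v := by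
    intro z z' y1 y2 y1' y2' hz h12 hz' h12'
    obtain ⟨a, g, ha, hg, hag⟩ := hSAT U B q 0 hq y1 y2 y1' y2' z' (by rw [h12, h12']) hz'
    obtain ⟨w, w', hw, hw'⟩ := hTAS U B q 0 hq y1 y2 (z + z') (z + a) g
      (by rw [map_add, hz, ha, add_zero]) hg (by
        have : z + z' + (z + a) = z' + a := by
          have h3 : z + z' + (z + a) = (z + z) + (z' + a) := by abel
          rw [h3, two, zero_add]
        rw [this]
        exact hag)
    exact ⟨w, w', hw, by rw [hw', h12]⟩
  obtain ⟨y1, y2, hy1, hy12⟩ := hDadd y y' v t (v + t) t hy (hsymm v t) hy' (by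
    rw [map_add, LinearMap.add_apply, halt, add_zero, hsymm])
  obtain ⟨a, g, ha, hg, hag⟩ := hSAT U B q 0 hq t v y1 y2 (y + y') hy12.symm hy1
  have hyv0 : q y v = 0 := by rw [hsymm]; exact hy
  have hy'v0 : q y' (v + t) = 0 := by rw [hsymm]; exact hy'
  have hvt' : q v t = q t v := hsymm v t
  -- expand
  have hy'2 : q y' v = q y' t := by
    rw [map_add] at hy'v0
    exact eq_of_add hy'v0
  rcases ht.2 g hg with hg | hg
  · rw [hg, add_zero] at hag
    rcases ht.2 a ha with ha | ha
    · rw [ha, add_zero, map_add, LinearMap.add_apply, hyv0, zero_add] at hag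
      -- q y' v = 0
      have h3 : q t y' = 0 := by rw [hsymm, ← hy'2, hag]
      rcases ht.2 y' h3 with h4 | h4
      · exact hy'0 h4
      · rw [h4] at hag
        exact hc hag
    · rw [ha, map_add, map_add, LinearMap.add_apply, LinearMap.add_apply, hyv0, zero_add] at hag
      have h3 : q t (y' + v) = 0 := by
        rw [map_add, hsymm t y', ← hy'2]
        exact hag
      rcases ht.2 _ h3 with h4 | h4
      · have h5 : y' = v := eq_of_add h4
        rw [h5, map_add, LinearMap.add_apply, halt, zero_add] at hy'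
        exact hc hy'
      · apply hy'v
        have h5 : y' + v + v = t + v := by rw [h4]
        rw [add_assoc, two, add_zero] at h5
        rw [h5, add_comm]
  · rw [hg] at hag
    rcases ht.2 a ha with ha | ha
    · rw [ha, add_zero, ql, hy'v0, add_zero, qr, hyv0, zero_add] at hag
      have h3 : q t y = 0 := by rw [hsymm]; exact hag
      rcases ht.2 _ h3 with h4 | h4
      · exact hy0 h4
      · rw [h4] at hyv0
        exact hc hyv0
    · rw [ha, ql, ql, hy'v0, add_zero, qr, qr, hyv0, zero_add, halt, add_zero] at hag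
      have h3 : q t (y + v) = 0 := by
        rw [map_add, hsymm t y]
        exact hag
      rcases ht.2 _ h3 with h4 | h4
      · exact hyv (eq_of_add h4)
      · have h5 : y + v + v = t + v := by rw [h4]
        rw [add_assoc, two, add_zero] at h5
        rw [h5, map_add, halt, add_zero, hvt'] at hy
        exact hc hy

theorem main (hSAT : Stmt_SAT) (hTAS : Stmt_TAS) (q : U →ₗ[ZMod 2] U →ₗ[ZMod 2] B)
    (hq : IsLinked q 0) (t : U) (hnz : ∃ v, q t v ≠ 0)
    (ht : ∀ y, q t y = 0 → y = 0 ∨ y = t) :
    ∃ τ : U →ₗ[ZMod 2] ZMod 2, τ t = 1 ∧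
      (∀ t' h h1 h2, τ t' = 1 → τ h = 0 → τ h1 = 0 → τ h2 = 0 → q t' h = q h1 h2 → h = 0) ∧
      ∃ h, τ h = 0 ∧ h ≠ 0 := by
  have halt : ∀ a, q a a = 0 := fun a => by rw [hq.diag, map_zero]
  have hsymm := hq.symm
  have ht0 : t ≠ 0 := by
    rintro rfl
    obtain ⟨v, hv⟩ := hnz
    rw [map_zero, LinearMap.zero_apply] at hv
    exact hv rfl
  have htR : Rg q t := ⟨ht0, ht⟩
  let D : Submodule (ZMod 2) U :=
    { carrier := {v | ¬ Rg q v}
      add_mem' := by
        intro v v' hv hv' hr
        by_cases h0 : v = 0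
        · rw [h0, zero_add] at hr
          exact hv' hr
        by_cases h1 : v = v + v'
        · have h2 : v' = 0 := by
            have := congrArg (fun z => v + z) h1
            simp only [← add_assoc, two, zero_add] at this
            exact this.symm
          rw [h2, add_zero] at hr
          exact hv hr
        rcases step1 hSAT hTAS q hq (v + v') hr v h0 h1 with h | h
        · exact hv h
        · rw [← add_assoc, two, zero_add] at h
          exact hv' h
      zero_mem' := fun h => h.1 rfl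
      smul_mem' := by
        intro c v hv
        have hc : c = 0 ∨ c = 1 := by
          revert c
          decide
        rcases hc with rfl | rfl
        · rw [zero_smul]
          exact fun h => h.1 rfl
        · rw [one_smul]
          exact hv }
  have htD : t ∉ D := fun h => h htR
  obtain ⟨f, hf, hfD⟩ := Submodule.exists_le_ker_of_notMem htD
  have hone : ∀ c : ZMod 2, c ≠ 0 → c = 1 := by decide
  have hft : f t = 1 := hone _ hf
  have hfR : ∀ v, f v = 1 → Rg q v := by
    intro v hv
    by_contra hcon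
    have h1 : v ∈ D := hcon
    have h2 := hfD h1
    rw [LinearMap.mem_ker] at h2
    rw [h2] at hv
    exact zero_ne_one hv
  refine ⟨f, hft, ?_, ?_⟩
  · intro t' h h1 h2 ht' hh hh1 hh2 heq
    have hR := hfR t' ht'
    by_cases hc : q t' h = 0
    · rcases hR.2 h hc with h3 | h3
      · exact h3
      · rw [h3, ht'] at hh
        exact absurd hh one_ne_zero
    · exfalso
      obtain ⟨s, hs1, hs2⟩ := hq.link t' h h1 h2 heq
      have h3 : q t' (s + h) = 0 := by rw [map_add, hs1]; exact two _
      have h4 : q (t' + h1) s = 0 := by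
        rw [map_add, LinearMap.add_apply, hs1, hs2]; exact two _
      have h5 : f (t' + h1) = 1 := by rw [map_add, ht', hh1, add_zero]
      have hs : s = t' + h1 := by
        rcases (hfR _ h5).2 s h4 with h6 | h6
        · exfalso
          rw [h6, map_zero] at hs1
          exact hc hs1.symm
        · exact h6
      have hhh : h = h1 := by
        rcases hR.2 _ h3 with h6 | h6
        · exfalso
          have h7 := congrArg f h6
          rw [map_add, hs, h5, hh, map_zero, add_zero] at h7
          exact one_ne_zero h7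
        · rw [hs] at h6
          have h7 : t' + (h1 + h) = t' + 0 := by rw [← add_assoc, h6, add_zero]
          exact (eq_of_add (add_left_cancel h7)).symm
      have h8 : q (s + h2) h1 = 0 := by
        rw [hsymm, map_add, hs2, heq]
        exact two _
      have h9 : f (s + h2) = 1 := by rw [map_add, hs, h5, hh2, add_zero]
      rcases (hfR _ h9).2 _ h8 with h10 | h10
      · rw [heq, h10, map_zero, LinearMap.zero_apply] at hc
        exact hc rfl
      · rw [h10, h9] at hh1
        exact one_ne_zero hh1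
  · obtain ⟨v, hv⟩ := hnz
    have hv0 : v ≠ 0 := by
      rintro rfl
      rw [map_zero] at hv
      exact hv rfl
    have hvt : v ≠ t := by
      rintro rfl
      exact hv (halt _)
    by_cases h : f v = 0
    · exact ⟨v, h, hv0⟩
    · refine ⟨v + t, ?_, fun h0 => hvt (eq_of_add h0)⟩
      rw [map_add, hft, hone _ h]
      decide

end

end RIG_

open RIG_ in
theorem rig_proof (hSAT : Stmt_SAT) (hTAS : Stmt_TAS) : Stmt_RIG := by
  intro V B _ _ _ _ q e hq p t hp hpe hpt hnz hrig
  let U := LinearMap.range p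
  let qU : U →ₗ[ZMod 2] U →ₗ[ZMod 2] B := q.domRestrict₁₂ U U
  have hqU : ∀ a b : U, qU a b = q a b := fun a b => rfl
  have hpU : ∀ a : U, p a = a := by
    rintro ⟨a, b, rfl⟩
    exact hp.idem b
  have hlinked : IsLinked qU 0 := by
    refine ⟨fun a b => hq.symm _ _, ?_, ?_⟩
    · intro a
      rw [map_zero, hqU, hq.diag, ← hpU a, hp.cross, hpe, map_zero]
    · intro a b c d h
      obtain ⟨s, h1, h2⟩ := hq.link a b c d h
      refine ⟨⟨p s, s, rfl⟩, ?_, ?_⟩
      · show q a (p s) = q a b
        rw [← h1]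
        conv_lhs => rw [← hpU a]
        conv_rhs => rw [← hpU a]
        rw [hp.cross _ s]
      · show q c (p s) = q a b
        rw [← h2]
        conv_lhs => rw [← hpU c]
        conv_rhs => rw [← hpU c]
        rw [hp.cross _ s]
  obtain ⟨τ, h1, h2, h3⟩ := main hSAT hTAS qU hlinked ⟨t, t, hpt⟩ (by
      obtain ⟨v, hv⟩ := hnz
      refine ⟨⟨p v, v, rfl⟩, ?_⟩
      show q t (p v) ≠ 0
      rw [← hpt, ← hp.cross, hpt]
      exact hv) (by
      intro y hy
      have h := hrig y (by rw [hpU y]; exact hy)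
      rw [hpU y] at h
      rcases h with h | h
      · exact Or.inl (Subtype.ext h)
      · exact Or.inr (Subtype.ext h))
  have hR : ∀ w, ((p.rangeRestrict w : U) : V) = p w := fun w => rfl
  refine ⟨τ ∘ₗ p.rangeRestrict, ?_, ⟨t, ?_⟩, ?_, ?_, ?_⟩
  · intro w
    show τ (p.rangeRestrict (p w)) = τ (p.rangeRestrict w)
    congr 1
    exact Subtype.ext (hp.idem w)
  · show τ (p.rangeRestrict t) = 1
    rw [← h1]
    congr 1
    exact Subtype.ext hpt
  · show τ (p.rangeRestrict e) = 0
    rw [← map_zero τ]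
    congr 1
    exact Subtype.ext hpe
  · intro t' h a b ht' hh ha hb heq
    have h4 := h2 (p.rangeRestrict t') (p.rangeRestrict h) (p.rangeRestrict a)
      (p.rangeRestrict b) ht' hh ha hb heq
    exact congrArg (fun z : U => (z : V)) h4
  · obtain ⟨h, hh, hh0⟩ := h3
    refine ⟨h, ?_, ?_, ?_⟩
    · show τ (p.rangeRestrict h) = 0
      rw [← hh]
      congr 1
      exact Subtype.ext (hpU h)
    · rw [hpU]
      exact fun h0 => hh0 (Subtype.ext h0)
    · rw [hpU, hpe]
      exact fun h0 => hh0 (Subtype.ext h0)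

end Pool.Agent.DQX
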