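import Pool.Agent.DQX.Defs

/-!
DQX: statements of the modules (descent of one step elementary type, MP_d26ff6_al).
Recipes: /team-store/MP_d26ff6_DQX.md
-/

set_option autoImplicit false

namespace Pool.Agent.DQX

open CommonSlot

/-! ## A. Linked structures -/

/-- SAT. Uses nothing. -/
def Stmt_SAT : Prop := ∀ (V B : Type) [AddCommGroup V] [Module (ZMod 2) V] [AddCommGroup B]
    [Module (ZMod 2) B] (q : V →ₗ[ZMod 2] V →ₗ[ZMod 2] B) (e : V), IsLinked q e →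
  ∀ x u y y' v, q x u = q y y' → q y v = 0 →
    ∃ a g, q x a = 0 ∧ q x g = 0 ∧ q (v + a) (u + g) = 0

/-- TAS, the converse of SAT. Uses nothing. -/
def Stmt_TAS : Prop := ∀ (V B : Type) [AddCommGroup V] [Module (ZMod 2) V] [AddCommGroup B]
    [Module (ZMod 2) B] (q : V →ₗ[ZMod 2] V →ₗ[ZMod 2] B) (e : V), IsLinked q e →
  ∀ x u z a g, q x a = 0 → q x g = 0 → q (z + a) (u + g) = 0 →
    ∃ y y', q y z = 0 ∧ q y y' = q x u

/-- EQP: equal symbols have equal components. Uses nothing. -/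
def Stmt_EQP : Prop := ∀ (V B : Type) [AddCommGroup V] [Module (ZMod 2) V] [AddCommGroup B]
    [Module (ZMod 2) B] (q : V →ₗ[ZMod 2] V →ₗ[ZMod 2] B) (e : V), IsLinked q e →
  ∀ p, Spl q p → ∀ a b c d, q a b = q c d → q (p a) (p b) = q (p c) (p d)

/-- RGD: the elements outside `H` are rigid. Uses nothing. -/
def Stmt_RGD : Prop := ∀ (V B : Type) [AddCommGroup V] [Module (ZMod 2) V] [AddCommGroup B]
    [Module (ZMod 2) B] (q : V →ₗ[ZMod 2] V →ₗ[ZMod 2] B) (e : V), IsLinked q e →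
  ∀ p τ, Spl q p → Ext q e p τ → ∀ w y, τ w = 1 → q (p w) (p y) = 0 →
    p y = 0 ∨ p y = p w + p e

/-- RIG: rigid elements give group extensions (`-1 = 1` in the factor). Uses SAT, TAS. -/
def Stmt_RIG : Prop := ∀ (V B : Type) [AddCommGroup V] [Module (ZMod 2) V] [AddCommGroup B]
    [Module (ZMod 2) B] (q : V →ₗ[ZMod 2] V →ₗ[ZMod 2] B) (e : V), IsLinked q e →
  ∀ p t, Spl q p → p e = 0 → p t = t → (∃ v, q t v ≠ 0) →
    (∀ v, q t (p v) = 0 → p v = 0 ∨ p v = t) → ∃ τ, Ext q e p τ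

/-- SPX: a factor in which `⟨1, 1⟩` represents only `1` and `-1`. Uses SAT, TAS. -/
def Stmt_SPX : Prop := ∀ (V B : Type) [AddCommGroup V] [Module (ZMod 2) V] [AddCommGroup B]
    [Module (ZMod 2) B] (q : V →ₗ[ZMod 2] V →ₗ[ZMod 2] B) (e : V), IsLinked q e →
  ∀ p, Spl q p → p e ≠ 0 → q (p e) (p e) = 0 →
    (∀ v, q (p e) (p v) = 0 → p v = 0 ∨ p v = p e) →
    ∀ a v, p a ≠ 0 → p a ≠ p e → q (p a) (p v) = 0 → p v = 0 ∨ p v = p a + p e

/-- SPY: the type of the factor in SPX. Uses nothing. -/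
def Stmt_SPY : Prop := ∀ (V B : Type) [AddCommGroup V] [Module (ZMod 2) V] [AddCommGroup B]
    [Module (ZMod 2) B] (q : V →ₗ[ZMod 2] V →ₗ[ZMod 2] B) (e : V), IsLinked q e →
  ∀ p, Spl q p → p e ≠ 0 → q (p e) (p e) = 0 → (∃ v, q (p e) v ≠ 0) →
    (∀ v, q (p e) (p v) = 0 → p v = 0 ∨ p v = p e) →
    (∀ a v, p a ≠ 0 → p a ≠ p e → q (p a) (p v) = 0 → p v = 0 ∨ p v = p a + p e) →
    Typ q e p

/-- TYE: a group extension of `{0, e}` is of local type. Uses nothing. -/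
def Stmt_TYE : Prop := ∀ (V B : Type) [AddCommGroup V] [Module (ZMod 2) V] [AddCommGroup B]
    [Module (ZMod 2) B] (q : V →ₗ[ZMod 2] V →ₗ[ZMod 2] B) (e : V), IsLinked q e →
  ∀ (p : V →ₗ[ZMod 2] V) (τ : V →ₗ[ZMod 2] ZMod 2), Spl q p → (∀ w, τ (p w) = τ w) →
    (∃ t, τ t = 1) → τ e = 0 →
    (∀ t h h1 h2, τ t = 1 → τ h = 0 → τ h1 = 0 → τ h2 = 0 →
      q (p t) (p h) = q (p h1) (p h2) → p h = 0) →
    (∃ h, τ h = 0 ∧ p h ≠ 0) → (∀ h, τ h = 0 → p h = 0 ∨ p h = p e) → q (p e) (p e) = 0 →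
    Loc q p

/-! ## B. Basic facts on the quadratic extension -/

/-- SPC: the complement of a stable factor. Uses nothing. -/
def Stmt_SPC : Prop := ∀ (V B L C : Type) [AddCommGroup V] [Module (ZMod 2) V] [AddCommGroup B]
    [Module (ZMod 2) B] [AddCommGroup L] [Module (ZMod 2) L] [AddCommGroup C]
    [Module (ZMod 2) C] (E : QX V B L C),
  ∀ p, SF E p → SF E (LinearMap.id + p)

/-- XID: elements of `ker res`. Uses nothing. -/
def Stmt_XID : Prop := ∀ (V B L C : Type) [AddCommGroup V] [Module (ZMod 2) V] [AddCommGroup B]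
    [Module (ZMod 2) B] [AddCommGroup L] [Module (ZMod 2) L] [AddCommGroup C]
    [Module (ZMod 2) C] (E : QX V B L C),
  ∀ r, E.res r = 0 → (∀ v, E.q E.x v = 0 → E.q r v = 0) ∧
    ∀ v, ∃ u, E.q E.x u = E.q r v ∧ E.q r u = E.q r v

/-- LM1 (the key trick). Uses XID. -/
def Stmt_LM1 : Prop := ∀ (V B L C : Type) [AddCommGroup V] [Module (ZMod 2) V] [AddCommGroup B]
    [Module (ZMod 2) B] [AddCommGroup L] [Module (ZMod 2) L] [AddCommGroup C]
    [Module (ZMod 2) C] (E : QX V B L C),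
  E.Red → ∀ p, SF E p → ∀ v, E.N (p (E.res v)) = 0

/-- IND. Uses LM1. -/
def Stmt_IND : Prop := ∀ (V B L C : Type) [AddCommGroup V] [Module (ZMod 2) V] [AddCommGroup B]
    [Module (ZMod 2) B] [AddCommGroup L] [Module (ZMod 2) L] [AddCommGroup C]
    [Module (ZMod 2) C] (E : QX V B L C),
  E.Red → ∀ p, SF E p → ∀ s w, E.q s (E.N w) = 0 → E.q s (E.N (p w)) = 0

/-- INX. Uses SPC, XID, IND. -/
def Stmt_INX : Prop := ∀ (V B L C : Type) [AddCommGroup V] [Module (ZMod 2) V] [AddCommGroup B]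
    [Module (ZMod 2) B] [AddCommGroup L] [Module (ZMod 2) L] [AddCommGroup C]
    [Module (ZMod 2) C] (E : QX V B L C),
  E.Red → ∀ p w0, SF E p → E.N w0 = E.x → ∀ z v u, E.q (E.N (p z)) v = E.q E.x u →
    E.q (E.N (p w0)) u = E.q E.x u

/-- RTM. Uses nothing. -/
def Stmt_RTM : Prop := ∀ (V B L C : Type) [AddCommGroup V] [Module (ZMod 2) V] [AddCommGroup B]
    [Module (ZMod 2) B] [AddCommGroup L] [Module (ZMod 2) L] [AddCommGroup C]
    [Module (ZMod 2) C] (E : QX V B L C),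
  ∀ m m', E.N m = 0 → E.N m' = 0 → E.cor (E.q' m m') = 0

/-- MGR: `M = ker N` is graded. Uses IND. -/
def Stmt_MGR : Prop := ∀ (V B L C : Type) [AddCommGroup V] [Module (ZMod 2) V] [AddCommGroup B]
    [Module (ZMod 2) B] [AddCommGroup L] [Module (ZMod 2) L] [AddCommGroup C]
    [Module (ZMod 2) C] (E : QX V B L C),
  E.Red → ∀ p, SF E p → ∀ m, E.N m = 0 → E.N (p m) = 0

/-- HFX. Uses XID, MGR. -/
def Stmt_HFX : Prop := ∀ (V B L C : Type) [AddCommGroup V] [Module (ZMod 2) V] [AddCommGroup B]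
    [Module (ZMod 2) B] [AddCommGroup L] [Module (ZMod 2) L] [AddCommGroup C]
    [Module (ZMod 2) C] (E : QX V B L C),
  E.Red → ∀ p w0, SF E p → E.N w0 = E.x → ∀ m, E.N m = 0 →
    ∃ c, E.cor (E.q' w0 (p m)) = E.q E.x c ∧ E.q (E.N (p w0)) c = E.q E.x c

/-- LMZ: the norm is not zero on a stable factor. Uses EQP. -/
def Stmt_LMZ : Prop := ∀ (V B L C : Type) [AddCommGroup V] [Module (ZMod 2) V] [AddCommGroup B]
    [Module (ZMod 2) B] [AddCommGroup L] [Module (ZMod 2) L] [AddCommGroup C]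
    [Module (ZMod 2) C] (E : QX V B L C),
  E.Red → ∀ p w0, SF E p → E.N w0 = E.x → (∀ z, E.N (p z) = 0) → ∀ w, p w = 0

/-! ## C. The four types of stable factors -/

/-- LSC: scalars. Uses nothing. -/
def Stmt_LSC : Prop := ∀ (V B : Type) [AddCommGroup V] [Module (ZMod 2) V] [AddCommGroup B]
    [Module (ZMod 2) B] (W : Submodule (ZMod 2) V) (f g : V →ₗ[ZMod 2] B),
  (∀ v ∈ W, f v = 0 ∨ f v = g v) → ∃ l : ZMod 2, ∀ v ∈ W, f v = l • g v

/-- BFR: two factors exchanged by the conjugation. Uses nothing. -/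
def Stmt_BFR : Prop := ∀ (V B L C : Type) [AddCommGroup V] [Module (ZMod 2) V] [AddCommGroup B]
    [Module (ZMod 2) B] [AddCommGroup L] [Module (ZMod 2) L] [AddCommGroup C]
    [Module (ZMod 2) C] (E : QX V B L C),
  E.Red → ∀ p h w0, SF E p → Fre E p h → E.N w0 = E.x →
    E.N (p w0) = 0 ∧ BlkOK E w0 p

/-- LC1: local type. Uses INX, LMZ. -/
def Stmt_LC1 : Prop := ∀ (V B L C : Type) [AddCommGroup V] [Module (ZMod 2) V] [AddCommGroup B]
    [Module (ZMod 2) B] [AddCommGroup L] [Module (ZMod 2) L] [AddCommGroup C]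
    [Module (ZMod 2) C] (E : QX V B L C),
  E.Red → ∀ p w0, SF E p → E.N w0 = E.x → Loc E.q' p →
    E.N (p w0) ≠ 0 ∧ ∃ β y0, E.cor β ≠ 0 ∧ E.cor β = E.q E.x y0 ∧
      ∀ w y, E.q' (p w) (p y) = 0 ∨ E.q' (p w) (p y) = β

/-- LC2: local type. Uses RTM, LM1, LC1. -/
def Stmt_LC2 : Prop := ∀ (V B L C : Type) [AddCommGroup V] [Module (ZMod 2) V] [AddCommGroup B]
    [Module (ZMod 2) B] [AddCommGroup L] [Module (ZMod 2) L] [AddCommGroup C]
    [Module (ZMod 2) C] (E : QX V B L C), Finite L →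
  E.Red → ∀ p w0, SF E p → E.N w0 = E.x → Loc E.q' p →
    (∀ m m', E.N (p m) = 0 → E.N (p m') = 0 → E.q' (p m) (p m') = 0) ∧
    ∀ m, E.N (p m) = 0 → ∃ v, p m = p (E.res v)

/-- LC3: local type. Uses XID, LC1, LC2, LSC. -/
def Stmt_LC3 : Prop := ∀ (V B L C : Type) [AddCommGroup V] [Module (ZMod 2) V] [AddCommGroup B]
    [Module (ZMod 2) B] [AddCommGroup L] [Module (ZMod 2) L] [AddCommGroup C]
    [Module (ZMod 2) C] (E : QX V B L C), Finite L →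
  E.Red → ∀ p w0, SF E p → E.N w0 = E.x → Loc E.q' p → BlkOK E w0 p

/-- RGN. Uses RGD. -/
def Stmt_RGN : Prop := ∀ (V B L C : Type) [AddCommGroup V] [Module (ZMod 2) V] [AddCommGroup B]
    [Module (ZMod 2) B] [AddCommGroup L] [Module (ZMod 2) L] [AddCommGroup C]
    [Module (ZMod 2) C] (E : QX V B L C),
  E.Red → ∀ p τ, SF E p → Ext E.q' (E.res E.e) p τ → ∀ u z, τ (E.res u) = 1 →
    E.q u (E.N (p z)) = 0 → ∃ f, p z = p (E.res f)

/-- EX0. Uses LM1, RGN. -/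
def Stmt_EX0 : Prop := ∀ (V B L C : Type) [AddCommGroup V] [Module (ZMod 2) V] [AddCommGroup B]
    [Module (ZMod 2) B] [AddCommGroup L] [Module (ZMod 2) L] [AddCommGroup C]
    [Module (ZMod 2) C] (E : QX V B L C),
  E.Red → ∀ p τ, SF E p → Ext E.q' (E.res E.e) p τ → ∀ z, τ (E.res (E.N (p z))) = 0

/-- EX1: `res V` has no component outside `H`. Uses RGD, XID, LM1, INX, LMZ. -/
def Stmt_EX1 : Prop := ∀ (V B L C : Type) [AddCommGroup V] [Module (ZMod 2) V] [AddCommGroup B]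
    [Module (ZMod 2) B] [AddCommGroup L] [Module (ZMod 2) L] [AddCommGroup C]
    [Module (ZMod 2) C] (E : QX V B L C),
  E.Red → ∀ p τ w0, SF E p → Ext E.q' (E.res E.e) p τ → E.N w0 = E.x →
    (∀ v, τ (E.res v) = 0) →
    p (E.res E.e) = 0 ∧ (∀ w, τ w = 0 → ∃ v, p w = p (E.res v)) ∧
      (∀ y, E.res (E.N (p y)) = 0) ∧ τ w0 = 1 ∧ E.N (p w0) ≠ 0

/-- EX2: the same case. Uses RGD, XID, LM1, EX1, LSC. -/
def Stmt_EX2 : Prop := ∀ (V B L C : Type) [AddCommGroup V] [Module (ZMod 2) V] [AddCommGroup B]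
    [Module (ZMod 2) B] [AddCommGroup L] [Module (ZMod 2) L] [AddCommGroup C]
    [Module (ZMod 2) C] (E : QX V B L C),
  E.Red → ∀ p τ w0, SF E p → Ext E.q' (E.res E.e) p τ → E.N w0 = E.x →
    (∀ v, τ (E.res v) = 0) → BlkOK E w0 p

/-- EX3: `res V` has a component outside `H`. Uses LM1, INX, LMZ, RGN, EX0. -/
def Stmt_EX3 : Prop := ∀ (V B L C : Type) [AddCommGroup V] [Module (ZMod 2) V] [AddCommGroup B]
    [Module (ZMod 2) B] [AddCommGroup L] [Module (ZMod 2) L] [AddCommGroup C]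
    [Module (ZMod 2) C] (E : QX V B L C),
  E.Red → ∀ p τ w0, SF E p → Ext E.q' (E.res E.e) p τ → E.N w0 = E.x →
    (∃ v, τ (E.res v) = 1) →
    E.N (p w0) ≠ 0 ∧ ∀ v, τ (E.res v) = 1 → E.q (E.N (p w0)) v ≠ 0

/-- EX4. Uses RGD, SAT, XID, RGN, EX0, EX3. -/
def Stmt_EX4 : Prop := ∀ (V B L C : Type) [AddCommGroup V] [Module (ZMod 2) V] [AddCommGroup B]
    [Module (ZMod 2) B] [AddCommGroup L] [Module (ZMod 2) L] [AddCommGroup C]
    [Module (ZMod 2) C] (E : QX V B L C),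
  E.Red → ∀ p τ w0, SF E p → Ext E.q' (E.res E.e) p τ → E.N w0 = E.x →
    (∃ v, τ (E.res v) = 1) →
    ∀ m, E.N (p m) = 0 → E.cor (E.q' w0 (p m)) = 0 → ∃ z, p m = E.res (E.N (p z))

/-- EX5. Uses XID, LM1, INX, RGN. -/
def Stmt_EX5 : Prop := ∀ (V B L C : Type) [AddCommGroup V] [Module (ZMod 2) V] [AddCommGroup B]
    [Module (ZMod 2) B] [AddCommGroup L] [Module (ZMod 2) L] [AddCommGroup C]
    [Module (ZMod 2) C] (E : QX V B L C),
  E.Red → ∀ p τ w0, SF E p → Ext E.q' (E.res E.e) p τ → E.N w0 = E.x →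
    (∃ v, τ (E.res v) = 1) →
    ∀ y, E.res (E.N (p y)) = 0 → E.N (p y) = 0 ∨ E.N (p y) = E.N (p w0)

/-- EX6. Uses RGD, XID, LM1, RGN, EX0, EX3, EX5, LSC. -/
def Stmt_EX6 : Prop := ∀ (V B L C : Type) [AddCommGroup V] [Module (ZMod 2) V] [AddCommGroup B]
    [Module (ZMod 2) B] [AddCommGroup L] [Module (ZMod 2) L] [AddCommGroup C]
    [Module (ZMod 2) C] (E : QX V B L C),
  E.Red → ∀ p τ w0, SF E p → Ext E.q' (E.res E.e) p τ → E.N w0 = E.x →
    (∃ v, τ (E.res v) = 1) → (∀ v, ∃ v', E.res v' = p (E.res v)) →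
    ∀ Φ : V →ₗ[ZMod 2] B,
    (∀ v, VP E p v → ∃ a g, E.q E.x g = 0 ∧ Φ v = E.q (E.N (p a)) (v + g) ∧
      E.q' (E.res (E.N (p a))) (p (E.res (v + g))) = 0) →
    ∃ l : ZMod 2, ∀ v, VP E p v → Φ v = l • E.q E.x v

/-! ## D. The product decomposition of `F` -/

/-- LEX: a linear map on the range. Uses nothing. -/
def Stmt_LEX : Prop := ∀ (V B : Type) [AddCommGroup V] [Module (ZMod 2) V] [AddCommGroup B]
    [Module (ZMod 2) B] (f g : V →ₗ[ZMod 2] B), (∀ v, f v = 0 → g v = 0) →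
  ∃ k : B →ₗ[ZMod 2] B, ∀ v, k (f v) = g v

/-- DCM: projections of a direct sum. Uses nothing. -/
def Stmt_DCM : Prop := ∀ (V : Type) [AddCommGroup V] [Module (ZMod 2) V] (ι : Type)
    [Fintype ι] [DecidableEq ι] (W : ι → Submodule (ZMod 2) V),
  (∀ v, ∃ f : ι → V, (∀ i, f i ∈ W i) ∧ ∑ i, f i = v) →
  (∀ f : ι → V, (∀ i, f i ∈ W i) → ∑ i, f i = 0 → ∀ i, f i = 0) →
  ∃ P : ι → (V →ₗ[ZMod 2] V), (∀ i v, P i v ∈ W i) ∧ (∀ v, ∑ i, P i v = v) ∧
    (∀ i, ∀ v ∈ W i, P i v = v) ∧ ∀ i j, i ≠ j → ∀ v ∈ W i, P j v = 0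

/-- GRA: `ker N = res V`, and `res V` is graded. Uses XID, LM1, IND, MGR, HFX. -/
def Stmt_GRA : Prop := ∀ (V B L C : Type) [AddCommGroup V] [Module (ZMod 2) V] [AddCommGroup B]
    [Module (ZMod 2) B] [AddCommGroup L] [Module (ZMod 2) L] [AddCommGroup C]
    [Module (ZMod 2) C] (E : QX V B L C),
  ∀ (ι : Type) [Fintype ι] [DecidableEq ι] (p : ι → (L →ₗ[ZMod 2] L)) (w0 : L),
    E.Red → E.N w0 = E.x → Dec E.q' ι p → (∀ i, SF E (p i)) → (∀ i, BlkOK E w0 (p i)) →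
    (∀ m, E.N m = 0 → ∃ v, m = E.res v) ∧ ∀ i v, ∃ v', E.res v' = p i (E.res v)

/-- XST: `ker res` is spanned by the components of `x`. Uses XID, MGR. -/
def Stmt_XST : Prop := ∀ (V B L C : Type) [AddCommGroup V] [Module (ZMod 2) V] [AddCommGroup B]
    [Module (ZMod 2) B] [AddCommGroup L] [Module (ZMod 2) L] [AddCommGroup C]
    [Module (ZMod 2) C] (E : QX V B L C),
  ∀ (ι : Type) [Fintype ι] [DecidableEq ι] (p : ι → (L →ₗ[ZMod 2] L)) (w0 : L),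
    E.Red → E.N w0 = E.x → Dec E.q' ι p → (∀ i, SF E (p i)) → (∀ i, BlkOK E w0 (p i)) →
    (∀ r, E.res r = 0 → ∃ c : ι → ZMod 2, r = ∑ i, c i • E.N (p i w0)) ∧
    ∀ c : ι → ZMod 2, ∑ i, c i • E.N (p i w0) = 0 → ∀ i, c i • E.N (p i w0) = 0

/-- VPN. Uses nothing. -/
def Stmt_VPN : Prop := ∀ (V B L C : Type) [AddCommGroup V] [Module (ZMod 2) V] [AddCommGroup B]
    [Module (ZMod 2) B] [AddCommGroup L] [Module (ZMod 2) L] [AddCommGroup C]
    [Module (ZMod 2) C] (E : QX V B L C),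
  ∀ (ι : Type) [Fintype ι] [DecidableEq ι] (p : ι → (L →ₗ[ZMod 2] L)) (w0 : L),
    E.Red → E.N w0 = E.x → Dec E.q' ι p → (∀ i, SF E (p i)) → (∀ i, BlkOK E w0 (p i)) →
    ∀ i v, VP E (p i) v → E.q E.x v = 0 →
      ∃ (y : L) (c : ι → ZMod 2), c i = 0 ∧ v = E.N (p i y) + ∑ k, c k • E.N (p k w0)

/-- LEA. Uses XID, IND, INX. -/
def Stmt_LEA : Prop := ∀ (V B L C : Type) [AddCommGroup V] [Module (ZMod 2) V] [AddCommGroup B]
    [Module (ZMod 2) B] [AddCommGroup L] [Module (ZMod 2) L] [AddCommGroup C]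
    [Module (ZMod 2) C] (E : QX V B L C),
  ∀ (ι : Type) [Fintype ι] [DecidableEq ι] (p : ι → (L →ₗ[ZMod 2] L)) (w0 : L),
    E.Red → E.N w0 = E.x → Dec E.q' ι p → (∀ i, SF E (p i)) → (∀ i, BlkOK E w0 (p i)) →
    ∀ i j k v z ψ, VP E (p i) v → VP E (p j) z → E.q v z = E.q E.x ψ → k ≠ i → k ≠ j →
      E.q (E.N (p k w0)) ψ = 0

/-- LEB. Uses SAT, XID, IND, INX, VPN. -/
def Stmt_LEB : Prop := ∀ (V B L C : Type) [AddCommGroup V] [Module (ZMod 2) V] [AddCommGroup B]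
    [Module (ZMod 2) B] [AddCommGroup L] [Module (ZMod 2) L] [AddCommGroup C]
    [Module (ZMod 2) C] (E : QX V B L C),
  ∀ (ι : Type) [Fintype ι] [DecidableEq ι] (p : ι → (L →ₗ[ZMod 2] L)) (w0 : L),
    E.Red → E.N w0 = E.x → Dec E.q' ι p → (∀ i, SF E (p i)) → (∀ i, BlkOK E w0 (p i)) →
    ∀ i j, i ≠ j → ∀ z, VP E (p j) z → ∀ g : B →ₗ[ZMod 2] B,
      (∀ v, g (E.q E.x v) = E.q (E.N (p i w0)) v) →
      (∀ v, VP E (p i) v → E.q E.x v = 0 → g (E.q v z) = 0) ∧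
      ∀ v, VP E (p i) v → ∃ a b, E.q E.x b = 0 ∧ g (E.q v z) = E.q (E.N (p i a)) (v + b) ∧
        E.q' (E.res (E.N (p i a))) (p i (E.res (v + b))) = 0

/-- MUF: the functionals `μ`. Uses XID, GRA, LEX, LEA, LEB. -/
def Stmt_MUF : Prop := ∀ (V B L C : Type) [AddCommGroup V] [Module (ZMod 2) V] [AddCommGroup B]
    [Module (ZMod 2) B] [AddCommGroup L] [Module (ZMod 2) L] [AddCommGroup C]
    [Module (ZMod 2) C] (E : QX V B L C),
  ∀ (ι : Type) [Fintype ι] [DecidableEq ι] (p : ι → (L →ₗ[ZMod 2] L)) (w0 : L),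
    E.Red → E.N w0 = E.x → Dec E.q' ι p → (∀ i, SF E (p i)) → (∀ i, BlkOK E w0 (p i)) →
    ∃ μ : ι → ι → (V →ₗ[ZMod 2] ZMod 2), ∀ i j, i ≠ j →
      (∀ v z, VP E (p i) v → VP E (p j) z →
        E.q v z = μ j i z • E.q E.x v + μ i j v • E.q E.x z) ∧
      (∀ z, μ i j (E.N (p i z)) = 0) ∧
      (E.N (p j w0) ≠ 0 → μ i j (E.N (p j w0)) = 1) ∧
      (E.N (p j w0) = 0 → ∀ v, μ i j v = 0) ∧
      ∀ k, k ≠ j → μ i j (E.N (p k w0)) = 0

/-- PR1: the projections. Uses GRA, XST, MUF, DCM. -/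
def Stmt_PR1 : Prop := ∀ (V B L C : Type) [AddCommGroup V] [Module (ZMod 2) V] [AddCommGroup B]
    [Module (ZMod 2) B] [AddCommGroup L] [Module (ZMod 2) L] [AddCommGroup C]
    [Module (ZMod 2) C] (E : QX V B L C),
  ∀ (ι : Type) [Fintype ι] [DecidableEq ι] (p : ι → (L →ₗ[ZMod 2] L)) (w0 : L),
    E.Red → E.N w0 = E.x → Dec E.q' ι p → (∀ i, SF E (p i)) → (∀ i, BlkOK E w0 (p i)) →
    ∃ P : ι → (V →ₗ[ZMod 2] V), (∀ i v, P i (P i v) = P i v) ∧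
      (∀ i j, i ≠ j → ∀ v, P i (P j v) = 0) ∧ (∀ v, ∑ i, P i v = v) ∧
      (∀ i v, E.res (P i v) = p i (E.res v)) ∧ (∀ i w, P i (E.N w) = E.N (p i w)) ∧
      ∀ i j, i ≠ j → ∀ v u, E.q (P i v) (P j u) = 0

/-- PR2: the projections of PR1 split zero symbols. Uses XID, LEA. -/
def Stmt_PR2 : Prop := ∀ (V B L C : Type) [AddCommGroup V] [Module (ZMod 2) V] [AddCommGroup B]
    [Module (ZMod 2) B] [AddCommGroup L] [Module (ZMod 2) L] [AddCommGroup C]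
    [Module (ZMod 2) C] (E : QX V B L C),
  ∀ (ι : Type) [Fintype ι] [DecidableEq ι] (p : ι → (L →ₗ[ZMod 2] L)) (w0 : L),
    E.Red → E.N w0 = E.x → Dec E.q' ι p → (∀ i, SF E (p i)) → (∀ i, BlkOK E w0 (p i)) →
    ∀ P : ι → (V →ₗ[ZMod 2] V), (∀ i v, P i (P i v) = P i v) →
      (∀ i j, i ≠ j → ∀ v, P i (P j v) = 0) → (∀ v, ∑ i, P i v = v) →
      (∀ i v, E.res (P i v) = p i (E.res v)) → (∀ i w, P i (E.N w) = E.N (p i w)) →
      (∀ i j, i ≠ j → ∀ v u, E.q (P i v) (P j u) = 0) → Dec E.q ι P ∧ ∀ i, Fct E (P i) (p i)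

/-! ## E. The factors of `F` -/

/-- FFR: free orbits. Uses EQP, XID. -/
def Stmt_FFR : Prop := ∀ (V B L C : Type) [AddCommGroup V] [Module (ZMod 2) V] [AddCommGroup B]
    [Module (ZMod 2) B] [AddCommGroup L] [Module (ZMod 2) L] [AddCommGroup C]
    [Module (ZMod 2) C] (E : QX V B L C),
  E.Red → ∀ P p h w0, Fct E P p → Fre E p h → E.N w0 = E.x → E.N (p w0) = 0 →
    Iso E P h ∧ ∀ v u, E.q (P v) (P u) = E.cor (E.q' (h (E.res v)) (h (E.res u)))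

/-- FFT: types along an isomorphism. Uses EQP. -/
def Stmt_FFT : Prop := ∀ (V B L C : Type) [AddCommGroup V] [Module (ZMod 2) V] [AddCommGroup B]
    [Module (ZMod 2) B] [AddCommGroup L] [Module (ZMod 2) L] [AddCommGroup C]
    [Module (ZMod 2) C] (E : QX V B L C),
  E.Red → ∀ P p h, Fct E P p → Fre E p h → Iso E P h →
    (∀ v u, E.q (P v) (P u) = E.cor (E.q' (h (E.res v)) (h (E.res u)))) →
    Typ E.q' (E.res E.e) h → Typ E.q E.e P

/-- FLO: local type. Uses EQP, LC1, LC2, LM1. -/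
def Stmt_FLO : Prop := ∀ (V B L C : Type) [AddCommGroup V] [Module (ZMod 2) V] [AddCommGroup B]
    [Module (ZMod 2) B] [AddCommGroup L] [Module (ZMod 2) L] [AddCommGroup C]
    [Module (ZMod 2) C] (E : QX V B L C), Finite L →
  E.Red → ∀ P p w0, Fct E P p → E.N w0 = E.x → Loc E.q' p → Loc E.q P

/-- FE1: extension type, first case. Uses XID, RIG, SPX, SPY, EX1. -/
def Stmt_FE1 : Prop := ∀ (V B L C : Type) [AddCommGroup V] [Module (ZMod 2) V] [AddCommGroup B]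
    [Module (ZMod 2) B] [AddCommGroup L] [Module (ZMod 2) L] [AddCommGroup C]
    [Module (ZMod 2) C] (E : QX V B L C),
  E.Red → ∀ P p τ w0, Fct E P p → E.N w0 = E.x → Ext E.q' (E.res E.e) p τ →
    BlkOK E w0 p → (∀ v, τ (E.res v) = 0) → Typ E.q E.e P

/-- FE2: extension type, second case. Uses XID, RGD, TYE, EX0, EX3. -/
def Stmt_FE2 : Prop := ∀ (V B L C : Type) [AddCommGroup V] [Module (ZMod 2) V] [AddCommGroup B]
    [Module (ZMod 2) B] [AddCommGroup L] [Module (ZMod 2) L] [AddCommGroup C]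
    [Module (ZMod 2) C] (E : QX V B L C),
  E.Red → ∀ P p τ w0, Fct E P p → E.N w0 = E.x → Ext E.q' (E.res E.e) p τ →
    BlkOK E w0 p → (∃ v, τ (E.res v) = 1) → Typ E.q E.e P

/-! ## F. The conjugation permutes the components -/

/-- IDC: the components are indecomposable. Uses RGD. -/
def Stmt_IDC : Prop := ∀ (V B : Type) [AddCommGroup V] [Module (ZMod 2) V] [AddCommGroup B]
    [Module (ZMod 2) B] (q : V →ₗ[ZMod 2] V →ₗ[ZMod 2] B) (e : V), IsLinked q e →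
  ND q → ∀ p, Spl q p → Typ q e p → ∀ f, Spl q f → (∀ w, f (p w) = f w) →
    (∀ w, p (f w) = f w) → (∀ w, f w = 0) ∨ ∀ w, f w = p w

/-- COM: projections onto factors commute. Uses nothing. -/
def Stmt_COM : Prop := ∀ (V B : Type) [AddCommGroup V] [Module (ZMod 2) V] [AddCommGroup B]
    [Module (ZMod 2) B] (q : V →ₗ[ZMod 2] V →ₗ[ZMod 2] B) (e : V), IsLinked q e →
  ND q → ∀ f p, Spl q f → Spl q p → ∀ w, f (p w) = p (f w)

/-- CEN: the components are permuted. Uses IDC, COM. -/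
def Stmt_CEN : Prop := ∀ (V B L C : Type) [AddCommGroup V] [Module (ZMod 2) V] [AddCommGroup B]
    [Module (ZMod 2) B] [AddCommGroup L] [Module (ZMod 2) L] [AddCommGroup C]
    [Module (ZMod 2) C] (E : QX V B L C),
  E.Red → ∀ (k : ℕ) (c : Fin k → (L →ₗ[ZMod 2] L)), Dec E.q' (Fin k) c →
    (∀ j, Typ E.q' (E.res E.e) (c j)) → (∀ j, ∃ w, c j w ≠ 0) →
    ∀ j, ∃ j', ∀ w, E.s (c j (E.s w)) = c j' w

/-- BLO: the stable blocks. Uses nothing. -/
def Stmt_BLO : Prop := ∀ (V B L C : Type) [AddCommGroup V] [Module (ZMod 2) V] [AddCommGroup B]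
    [Module (ZMod 2) B] [AddCommGroup L] [Module (ZMod 2) L] [AddCommGroup C]
    [Module (ZMod 2) C] (E : QX V B L C),
  E.Red → ∀ (k : ℕ) (c : Fin k → (L →ₗ[ZMod 2] L)), Dec E.q' (Fin k) c →
    (∀ j, ∃ w, c j w ≠ 0) → (∀ j, ∃ j', ∀ w, E.s (c j (E.s w)) = c j' w) →
    ∃ (ι : Type) (_ : Fintype ι) (_ : DecidableEq ι) (p : ι → (L →ₗ[ZMod 2] L)),
      Dec E.q' ι p ∧ ∀ i, SF E (p i) ∧ ((∃ j, p i = c j) ∨ ∃ j, Fre E (p i) (c j))

/-! ## G. The abstract theorem -/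

/-- DES: the descent theorem (reduced). Uses all modules of A to F. -/
def Stmt_DES : Prop := ∀ (V B L C : Type) [AddCommGroup V] [Module (ZMod 2) V] [AddCommGroup B]
    [Module (ZMod 2) B] [AddCommGroup L] [Module (ZMod 2) L] [AddCommGroup C]
    [Module (ZMod 2) C] (E : QX V B L C),
  Finite L → E.Red → E.q E.x E.e = 0 →
    ∀ (k : ℕ) (c : Fin k → (L →ₗ[ZMod 2] L)), Dec E.q' (Fin k) c →
    (∀ j, Typ E.q' (E.res E.e) (c j)) → (∀ j, ∃ w, c j w ≠ 0) →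
    ∃ (k' : ℕ) (P : Fin k' → (V →ₗ[ZMod 2] V)), Dec E.q (Fin k') P ∧
      ∀ i, Typ E.q E.e (P i) ∧ (∃ v, P i v ≠ 0) ∧ (P i E.x ≠ 0 ∨ ∃ j, Iso E (P i) (c j))

/-- RED: reduction modulo the radicals. Uses nothing. -/
def Stmt_RED : Prop := ∀ (V B L C : Type) [AddCommGroup V] [Module (ZMod 2) V] [AddCommGroup B]
    [Module (ZMod 2) B] [AddCommGroup L] [Module (ZMod 2) L] [AddCommGroup C]
    [Module (ZMod 2) C] (E : QX V B L C),
  ∃ (V1 L1 : Type) (_ : AddCommGroup V1) (_ : Module (ZMod 2) V1) (_ : AddCommGroup L1)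
    (_ : Module (ZMod 2) L1) (E1 : QX V1 B L1 C) (πV : V →ₗ[ZMod 2] V1)
    (πL : L →ₗ[ZMod 2] L1), E1.Red ∧ Function.Surjective πV ∧ Function.Surjective πL ∧
    (∀ v, πV v = 0 ↔ ∀ u, E.q v u = 0) ∧ (∀ w, πL w = 0 ↔ ∀ y, E.q' w y = 0) ∧
    (∀ u v, E1.q (πV u) (πV v) = E.q u v) ∧ (∀ w y, E1.q' (πL w) (πL y) = E.q' w y) ∧
    (∀ v, E1.res (πV v) = πL (E.res v)) ∧ (∀ w, E1.N (πL w) = πV (E.N w)) ∧
    E1.x = πV E.x ∧ E1.e = πV E.e

end Pool.Agent.DQX
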