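import Pool.Agent.DQX.Stmts
import Pool.Agent.ETG.Iface

/-!
DQX, interface with `Pool.Agent.ETG.Iface` (`-1 = 1`): statements.
-/

set_option autoImplicit false

namespace Pool.Agent.DQX

open CommonSlot Pool.Agent.EWG

/-- ZLC: local components in the sense of `ETG`. Uses nothing. -/
def Stmt_ZLC : Prop := ∀ (L C : Type) [AddCommGroup L] [Module (ZMod 2) L] [AddCommGroup C]
    [Module (ZMod 2) C] (q : L →ₗ[ZMod 2] L →ₗ[ZMod 2] C), IsLinked q 0 → ND q →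
  ∀ p, Spl q p → (∃ w, p w ≠ 0) →
    (∀ v w w', q (p v) w = 0 ∨ q (p v) w' = 0 ∨ q (p v) (w + w') = 0) → Loc q p

/-- ZIN: from a decomposition in the sense of `ETG` to one modulo the radical.
Uses RIG, ZLC. -/
def Stmt_ZIN : Prop := ∀ (L L1 C : Type) [AddCommGroup L] [Module (ZMod 2) L] [AddCommGroup L1]
    [Module (ZMod 2) L1] [AddCommGroup C] [Module (ZMod 2) C]
    (q : L →ₗ[ZMod 2] L →ₗ[ZMod 2] C) (q1 : L1 →ₗ[ZMod 2] L1 →ₗ[ZMod 2] C)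
    (π : L →ₗ[ZMod 2] L1) (Z : L → L → Prop) (k : ℕ) (D : ETG.ZDec Z k),
  IsLinked q1 0 → ND q1 → Function.Surjective π → (∀ w y, q1 (π w) (π y) = q w y) →
    (∀ w y, q w y = 0 ↔ Z w y) → D.OS →
    ∃ c : Fin k → (L1 →ₗ[ZMod 2] L1), (∀ j w, c j (π w) = π (D.p j w)) ∧
      Dec q1 (Fin k) c ∧ (∀ j, Typ q1 0 (c j)) ∧ ∀ j, ∃ w, c j w ≠ 0

/-- ZOU: the converse. Uses RGD. -/
def Stmt_ZOU : Prop := ∀ (V V1 B : Type) [AddCommGroup V] [Module (ZMod 2) V] [AddCommGroup V1]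
    [Module (ZMod 2) V1] [AddCommGroup B] [Module (ZMod 2) B]
    (q : V →ₗ[ZMod 2] V →ₗ[ZMod 2] B) (q1 : V1 →ₗ[ZMod 2] V1 →ₗ[ZMod 2] B)
    (π : V →ₗ[ZMod 2] V1) (Z : V → V → Prop) (k : ℕ) (P : Fin k → (V1 →ₗ[ZMod 2] V1)),
  IsLinked q1 0 → ND q1 → Function.Surjective π → (∀ w y, q1 (π w) (π y) = q w y) →
    (∀ w y, q w y = 0 ↔ Z w y) → Dec q1 (Fin k) P → (∀ j, Typ q1 0 (P j)) →
    (∀ j, ∃ w, P j w ≠ 0) →
    ∃ D : ETG.ZDec Z k, D.OS ∧ ∀ j w, π (D.p j w) = P j (π w) ∧ (D.p j w = 0 ↔ P j (π w) = 0)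

/-- QXF: the datum of a quadratic extension of fields in which `-1` is a square (from the
field side, helper45). -/
def Stmt_QXF : Prop := ∀ (F K : Type) [Field F] [Field K] [Algebra F K], Good F → ∀ E : QD F K,
  (Finite (VV F) → Finite (VV K)) ∧
  ∃ (B C : Type) (_ : AddCommGroup B) (_ : Module (ZMod 2) B) (_ : AddCommGroup C)
    (_ : Module (ZMod 2) C) (Q : QX (VV F) B (VV K) C), Q.e = 0 ∧ Q.x = vm E.x ∧
    (∀ v, Q.res v = ETG.rv F K v) ∧ (∀ v w, Q.q v w = 0 ↔ ETG.Zf F v w) ∧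
    ∀ v w, Q.q' v w = 0 ↔ ETG.Zf K v w

/-- ZFR: isomorphic components. Uses nothing. -/
def Stmt_ZFR : Prop := ∀ (V B L C V1 L1 : Type) [AddCommGroup V] [Module (ZMod 2) V]
    [AddCommGroup B] [Module (ZMod 2) B] [AddCommGroup L] [Module (ZMod 2) L]
    [AddCommGroup C] [Module (ZMod 2) C] [AddCommGroup V1] [Module (ZMod 2) V1]
    [AddCommGroup L1] [Module (ZMod 2) L1] (E : QX V B L C) (E1 : QX V1 B L1 C)
    (πV : V →ₗ[ZMod 2] V1) (πL : L →ₗ[ZMod 2] L1) (ZV : V → V → Prop) (ZL : L → L → Prop)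
    (p : V →ₗ[ZMod 2] V) (p' : L →ₗ[ZMod 2] L) (P : V1 →ₗ[ZMod 2] V1) (h : L1 →ₗ[ZMod 2] L1),
  E1.Red → Function.Surjective πV → Function.Surjective πL →
    (∀ u v, E1.q (πV u) (πV v) = E.q u v) → (∀ w y, E1.q' (πL w) (πL y) = E.q' w y) →
    (∀ v, E1.res (πV v) = πL (E.res v)) →
    (∀ v w, E.q v w = 0 ↔ ZV v w) → (∀ v w, E.q' v w = 0 ↔ ZL v w) →
    (∀ v, p (p v) = p v) → (∀ v, πV (p v) = P (πV v)) → (∀ v, p v = 0 ↔ P (πV v) = 0) →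
    (∀ w, p' (p' w) = p' w) → (∀ w, πL (p' w) = h (πL w)) → (∀ w, p' w = 0 ↔ h (πL w) = 0) →
    Spl E1.q P → Spl E1.q' h → Iso E1 P h → ETG.ZFree ZV ZL E.res p p'

/-- DSF from the modules (`Stmt_DES`, `Stmt_RED`, `Stmt_ZIN`, `Stmt_ZOU`, `Stmt_ZFR`,
`Stmt_QXF`). -/
def Stmt_DSF : Prop := Stmt_DES → Stmt_RED → Stmt_ZIN → Stmt_ZOU → Stmt_ZFR → Stmt_QXF →
  ETG.Stmt_DSF

end Pool.Agent.DQX
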