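import Pool.Agent.DQX.SAT

/-! DQX: TAS, see `SAT.lean` (`tas_proof`). -/
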